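import Mathlib

set_option autoImplicit false

open MvPolynomial

namespace Pool.Agent.H408.Iso

universe u

/-- The monomial order that compares the exponents of the variables of large index first. -/
noncomputable def colexOrder : MonomialOrder ℕ where
  syn := Lex (ℕᵒᵈ →₀ ℕ)
  toSyn := (Finsupp.domCongr OrderDual.toDual).trans
    { toEquiv := toLex
      map_add' := toLex_add }
  toSyn_monotone := by
    intro a b hab
    refine Finsupp.toLex_monotone ?_
    intro i
    exact hab (OrderDual.ofDual i)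

theorem colex_lt_iff (a b : ℕ →₀ ℕ) : colexOrder.toSyn a < colexOrder.toSyn b ↔
    ∃ i, (∀ j, i < j → a j = b j) ∧ a i < b i := by
  constructor
  · intro h
    obtain ⟨i, hi, hi'⟩ := (Finsupp.Lex.lt_iff (α := ℕᵒᵈ) (N := ℕ)).1 h
    exact ⟨OrderDual.ofDual i, fun j hj => hi (OrderDual.toDual j) hj, hi'⟩
  · rintro ⟨i, hi, hi'⟩
    exact (Finsupp.Lex.lt_iff (α := ℕᵒᵈ) (N := ℕ)).2
      ⟨OrderDual.toDual i, fun j hj => hi (OrderDual.ofDual j) hj, hi'⟩

theorem colex_map_lt {φ : ℕ → ℕ} (hφ : StrictMono φ) {a b : ℕ →₀ ℕ}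
    (h : colexOrder.toSyn a < colexOrder.toSyn b) :
    colexOrder.toSyn (a.mapDomain φ) < colexOrder.toSyn (b.mapDomain φ) := by
  rw [colex_lt_iff] at h ⊢
  obtain ⟨i, hi, hi'⟩ := h
  refine ⟨φ i, fun j hj => ?_, ?_⟩
  · by_cases hr : j ∈ Set.range φ
    · obtain ⟨k, rfl⟩ := hr
      rw [Finsupp.mapDomain_apply hφ.injective, Finsupp.mapDomain_apply hφ.injective]
      exact hi k (hφ.lt_iff_lt.1 hj)
    · rw [Finsupp.mapDomain_of_notMem_range _ _ hr, Finsupp.mapDomain_of_notMem_range _ _ hr]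
  · rwa [Finsupp.mapDomain_apply hφ.injective, Finsupp.mapDomain_apply hφ.injective]

theorem colex_map_le {φ : ℕ → ℕ} (hφ : StrictMono φ) {a b : ℕ →₀ ℕ}
    (h : colexOrder.toSyn a ≤ colexOrder.toSyn b) :
    colexOrder.toSyn (a.mapDomain φ) ≤ colexOrder.toSyn (b.mapDomain φ) := by
  rcases h.lt_or_eq with h | h
  · exact (colex_map_lt hφ h).le
  · rw [colexOrder.toSyn.injective h]

theorem degree_rename {K : Type u} [Field K] {φ : ℕ → ℕ} (hφ : StrictMono φ)
    (f : MvPolynomial ℕ K) (hf : f ≠ 0) :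
    colexOrder.degree (rename φ f) = (colexOrder.degree f).mapDomain φ := by
  classical
  apply colexOrder.toSyn.injective
  apply le_antisymm
  · rw [MonomialOrder.degree_le_iff]
    intro d hd
    rw [support_rename_of_injective hφ.injective, Finset.mem_image] at hd
    obtain ⟨e, he, rfl⟩ := hd
    exact colex_map_le hφ (colexOrder.le_degree he)
  · apply colexOrder.le_degree
    rw [mem_support_iff, coeff_rename_mapDomain φ hφ.injective]
    exact (colexOrder.coeff_degree_ne_zero_iff).2 hf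

theorem leadingCoeff_rename {K : Type u} [Field K] {φ : ℕ → ℕ} (hφ : StrictMono φ)
    (f : MvPolynomial ℕ K) (hf : f ≠ 0) :
    colexOrder.leadingCoeff (rename φ f) = colexOrder.leadingCoeff f := by
  rw [MonomialOrder.leadingCoeff, degree_rename hφ f hf, coeff_rename_mapDomain φ hφ.injective]
  rfl

/-- An injection agrees on a finite set with a permutation. -/
theorem exists_perm (s : Finset ℕ) (φ : ℕ → ℕ) (hφ : Function.Injective φ) :
    ∃ σ : Equiv.Perm ℕ, ∀ x ∈ s, σ x = φ x := by
  classical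
  obtain ⟨N, hN⟩ : ∃ N, ∀ x ∈ s, x < N ∧ φ x < N := by
    refine ⟨(s.sup id) + (s.sup φ) + 1, fun x hx => ?_⟩
    have h1 : x ≤ s.sup id := Finset.le_sup (f := id) hx
    have h2 : φ x ≤ s.sup φ := Finset.le_sup (f := φ) hx
    omega
  let f : Fin N → Fin N := fun x => if h : φ x < N then ⟨φ x, h⟩ else x
  obtain ⟨g, hg⟩ := Finset.exists_equiv_extend_of_card_eq (α := Fin N) (β := Fin N)
    (t := Finset.univ) (by simp) (s := Finset.univ.filter (fun x => (x : ℕ) ∈ s)) (f := f)
    (by simp) (by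
      intro x hx y hy hxy
      simp only [Finset.coe_filter, Finset.mem_univ, true_and] at hx hy
      have hx' := (hN x hx).2
      have hy' := (hN y hy).2
      simp only [f, dif_pos hx', dif_pos hy', Fin.mk.injEq] at hxy
      exact Fin.ext (hφ hxy))
  let g' : Equiv.Perm (Fin N) := g.trans (Equiv.subtypeUnivEquiv (by simp))
  let e : Fin N ≃ {x : ℕ // x < N} := ⟨fun x => ⟨x, x.2⟩, fun x => ⟨x.1, x.2⟩,
    fun _ => rfl, fun _ => rfl⟩
  refine ⟨g'.extendDomain e, fun x hx => ?_⟩
  have hxN := (hN x hx).1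
  have h1 := Equiv.Perm.extendDomain_apply_image g' e (⟨x, hxN⟩ : Fin N)
  have h2 : ((e (⟨x, hxN⟩ : Fin N) : {x : ℕ // x < N}) : ℕ) = x := rfl
  rw [h2] at h1
  rw [h1]
  have h3 := hg (⟨x, hxN⟩ : Fin N) (by simp [hx])
  have h4 : g' (⟨x, hxN⟩ : Fin N) = f ⟨x, hxN⟩ := h3
  rw [h4]
  simp only [f, dif_pos (hN x hx).2]
  rfl

theorem rename_eq_perm {K : Type u} [Field K] (f : MvPolynomial ℕ K) (φ : ℕ → ℕ)
    (hφ : Function.Injective φ) : ∃ σ : Equiv.Perm ℕ, rename φ f = rename σ f := by
  classical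
  obtain ⟨σ, hσ⟩ := exists_perm f.vars φ hφ
  refine ⟨σ, ?_⟩
  have := hom_congr_vars (f₁ := (rename φ : MvPolynomial ℕ K →ₐ[K] MvPolynomial ℕ K).toRingHom)
    (f₂ := (rename σ : MvPolynomial ℕ K →ₐ[K] MvPolynomial ℕ K).toRingHom) (p₁ := f) (p₂ := f)
    (by ext r; simp) (by
      intro i hi _
      simp [hσ i hi]) rfl
  exact this

/-- Higman's lemma for monomials. -/
theorem higman (a : ℕ → (ℕ →₀ ℕ)) : ∃ i j, i < j ∧ ∃ φ : ℕ → ℕ, StrictMono φ ∧
    (a i).mapDomain φ ≤ a j := by
  classical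
  let N : ℕ → ℕ := fun k => ((a k).support.sup id) + 1
  have hN : ∀ k x, N k ≤ x → a k x = 0 := by
    intro k x hx
    by_contra hne
    have h1 : x ∈ (a k).support := Finsupp.mem_support_iff.2 hne
    have h2 : x ≤ (a k).support.sup id := Finset.le_sup (f := id) h1
    have : N k = ((a k).support.sup id) + 1 := rfl
    omega
  let L : ℕ → List ℕ := fun k => (List.range (N k)).map (a k)
  have hpwo : ({ l : List ℕ | ∀ x, x ∈ l → x ∈ (Set.univ : Set ℕ) }).PartiallyWellOrderedOn
      (List.SublistForall₂ (· ≤ ·)) := by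
    apply Set.PartiallyWellOrderedOn.partiallyWellOrderedOn_sublistForall₂
    exact Set.IsPWO.of_linearOrder _
  obtain ⟨i, j, hij, h⟩ := hpwo (fun k => ⟨L k, fun _ _ => trivial⟩)
  have h : List.SublistForall₂ (fun x1 x2 : ℕ => x1 ≤ x2) (L i) (L j) := h
  rw [List.sublistForall₂_iff] at h
  obtain ⟨l, hl, hsub⟩ := h
  rw [List.sublist_iff_exists_orderEmbedding_getElem?_eq] at hsub
  obtain ⟨φ, hφ⟩ := hsub
  refine ⟨i, j, hij, φ, φ.strictMono, ?_⟩
  intro y
  by_cases hr : y ∈ Set.range φ
  · obtain ⟨x, rfl⟩ := hr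
    rw [Finsupp.mapDomain_apply φ.injective]
    by_cases hx : x < N i
    · have hlen : (L i).length = l.length := hl.length_eq
      have hLi : (L i).length = N i := by simp [L]
      have hxl : x < l.length := by omega
      have h1 := List.Forall₂.get hl (by omega : x < (L i).length) hxl
      have h2 := hφ x
      have h3 : l[x]? = some (l.get ⟨x, hxl⟩) := by simp
      rw [h3] at h2
      have h4 : (L i).get ⟨x, by omega⟩ = a i x := by simp [L]
      rw [h4] at h1
      have h5 : φ x < (L j).length := by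
        by_contra hcon
        rw [List.getElem?_eq_none (by omega)] at h2
        exact absurd h2 (by simp)
      rw [List.getElem?_eq_getElem h5] at h2
      have h6 : (L j)[φ x] = a j (φ x) := by simp [L]
      rw [h6] at h2
      rw [← Option.some.inj h2]
      exact h1
    · rw [hN i x (by omega)]
      exact Nat.zero_le _
  · rw [Finsupp.mapDomain_of_notMem_range _ _ hr]
    exact Nat.zero_le _

/-- Cohen's theorem: symmetric ideals of the polynomial ring in countably many variables
satisfy the ascending chain condition. -/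
theorem symm_acc (K : Type u) [Field K] (I : ℕ → Ideal (MvPolynomial ℕ K)) (hmono : Monotone I)
    (hsym : ∀ n, ∀ σ : Equiv.Perm ℕ, ∀ f ∈ I n, rename σ f ∈ I n) :
    ∃ n, ∀ m, n ≤ m → I m = I n := by
  classical
  by_contra hcon
  push Not at hcon
  choose nx hnx hne using hcon
  -- a polynomial of minimal leading monomial in `I (nx n) \ I n`
  have hex : ∀ n, ∃ f, (f ∈ I (nx n) ∧ f ∉ I n) ∧ ∀ g, g ∈ I (nx n) → g ∉ I n →
      colexOrder.toSyn (colexOrder.degree f) ≤ colexOrder.toSyn (colexOrder.degree g) := by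
    intro n
    have hlt : I n < I (nx n) := lt_of_le_of_ne (hmono (hnx n)) (hne n).symm
    obtain ⟨f0, hf0, hf0'⟩ := SetLike.exists_of_lt hlt
    let S : Set colexOrder.syn := {d | ∃ f, (f ∈ I (nx n) ∧ f ∉ I n) ∧
      colexOrder.toSyn (colexOrder.degree f) = d}
    have hS : S.Nonempty := ⟨_, f0, ⟨hf0, hf0'⟩, rfl⟩
    obtain ⟨f, hf, hfd⟩ := WellFounded.min_mem (wellFounded_lt (α := colexOrder.syn)) S hS
    refine ⟨f, hf, fun g hg hg' => ?_⟩
    rw [hfd]
    exact not_lt.1 (WellFounded.not_lt_min (wellFounded_lt (α := colexOrder.syn)) S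
      ⟨g, ⟨hg, hg'⟩, rfl⟩)
  choose F hF hmin using hex
  let ν : ℕ → ℕ := fun k => nx^[k] 0
  have hν : ∀ k, ν (k + 1) = nx (ν k) := fun k => Function.iterate_succ_apply' nx k 0
  have hνm : Monotone ν := monotone_nat_of_le_succ fun k => by rw [hν]; exact hnx _
  obtain ⟨i, j, hij, φ, hφ, hle⟩ := higman (fun k => colexOrder.degree (F (ν k)))
  set f := F (ν i) with hf
  set g := F (ν j) with hg
  have hf0 : f ≠ 0 := fun h => (hF (ν i)).2 (by rw [← hf, h]; exact zero_mem _)
  have hg0 : g ≠ 0 := fun h => (hF (ν j)).2 (by rw [← hg, h]; exact zero_mem _)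
  have hfI : rename φ f ∈ I (ν j) := by
    obtain ⟨σ, hσ⟩ := rename_eq_perm f φ hφ.injective
    rw [hσ]
    apply hsym
    have h1 : f ∈ I (nx (ν i)) := (hF (ν i)).1
    rw [← hν] at h1
    exact hmono (hνm (by omega : i + 1 ≤ j)) h1
  set f' := rename φ f with hf'
  have hf'0 : f' ≠ 0 := by
    rw [hf']
    intro h
    exact hf0 (rename_injective φ hφ.injective (by rw [h, map_zero]))
  have hdf' : colexOrder.degree f' = (colexOrder.degree f).mapDomain φ :=
    degree_rename hφ f hf0
  set d := colexOrder.degree g - colexOrder.degree f' with hd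
  have hdd : d + colexOrder.degree f' = colexOrder.degree g := by
    rw [hd]
    refine tsub_add_cancel_of_le ?_
    rw [hdf']; exact hle
  have hlf : colexOrder.leadingCoeff f' ≠ 0 := colexOrder.leadingCoeff_ne_zero_iff.2 hf'0
  set c := colexOrder.leadingCoeff g / colexOrder.leadingCoeff f' with hc
  have hlg : colexOrder.leadingCoeff g ≠ 0 := colexOrder.leadingCoeff_ne_zero_iff.2 hg0
  have hc0 : c ≠ 0 := div_ne_zero hlg hlf
  have hm0 : (monomial d c : MvPolynomial ℕ K) ≠ 0 := by
    rw [Ne, monomial_eq_zero]; exact hc0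
  set h := g - monomial d c * f' with hh
  have hdeg : colexOrder.degree (monomial d c * f') = colexOrder.degree g := by
    rw [MonomialOrder.degree_mul hm0 hf'0, MonomialOrder.degree_monomial, if_neg hc0, hdd]
  have hlead : colexOrder.leadingCoeff (monomial d c * f') = colexOrder.leadingCoeff g := by
    rw [MonomialOrder.leadingCoeff_mul, MonomialOrder.leadingCoeff_monomial, hc,
      div_mul_cancel₀ _ hlf]
  have hh0 : h ∉ I (ν j) := by
    intro h1
    apply (hF (ν j)).2
    have : g = h + monomial d c * f' := by rw [hh]; ring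
    rw [← hg, this]
    exact add_mem h1 (Ideal.mul_mem_left _ _ hfI)
  have hh1 : h ∈ I (nx (ν j)) := by
    rw [hh]
    exact sub_mem (hF (ν j)).1 (Ideal.mul_mem_left _ _ (hmono (hnx _) hfI))
  have hhne : h ≠ 0 := fun h1 => hh0 (by rw [h1]; exact zero_mem _)
  have hle1 := hmin (ν j) h hh1 hh0
  rw [← hg] at hle1
  have hle2 : colexOrder.toSyn (colexOrder.degree h) ≤ colexOrder.toSyn (colexOrder.degree g) := by
    rw [hh]
    refine (colexOrder.degree_sub_le).trans ?_
    rw [hdeg, sup_idem]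
  have heq : colexOrder.degree h = colexOrder.degree g :=
    colexOrder.toSyn.injective (le_antisymm hle2 hle1)
  have hcoef : coeff (colexOrder.degree h) h ≠ 0 := colexOrder.coeff_degree_ne_zero_iff.2 hhne
  apply hcoef
  rw [heq, hh, coeff_sub]
  have e1 : coeff (colexOrder.degree g) g = colexOrder.leadingCoeff g := rfl
  have e2 : coeff (colexOrder.degree g) (monomial d c * f') =
      colexOrder.leadingCoeff (monomial d c * f') := by
    rw [MonomialOrder.leadingCoeff, hdeg]
  rw [e1, e2, hlead, sub_self]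

end Pool.Agent.H408.Iso
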