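import Mathlib

set_option autoImplicit false

open MvPolynomial

namespace Pool.Agent.H408.Iso

universe u

/-- extension of a permutation of `Fin n` to a permutation of `ℕ` -/
def ext (n : ℕ) (σ : Equiv.Perm (Fin n)) : Equiv.Perm ℕ :=
  σ.extendDomain Fin.equivSubtype

theorem ext_coe (n : ℕ) (σ : Equiv.Perm (Fin n)) (i : Fin n) : ext n σ i = (σ i : ℕ) := by
  have := Equiv.Perm.extendDomain_apply_image σ (Fin.equivSubtype (n := n)) i
  simpa [ext] using this

theorem ext_ge (n : ℕ) (σ : Equiv.Perm (Fin n)) {i : ℕ} (h : n ≤ i) : ext n σ i = i := by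
  unfold ext
  rw [Equiv.Perm.extendDomain_apply_not_subtype]
  omega

theorem ext_lt (n : ℕ) (σ : Equiv.Perm (Fin n)) {i : ℕ} (h : i < n) : ext n σ i < n := by
  rw [show i = ((⟨i, h⟩ : Fin n) : ℕ) from rfl, ext_coe]
  exact (σ ⟨i, h⟩).2

theorem ext_inv (n : ℕ) (σ : Equiv.Perm (Fin n)) : (ext n σ)⁻¹ = ext n σ⁻¹ :=
  Equiv.Perm.extendDomain_inv _ _

theorem ext_mul (n : ℕ) (σ τ : Equiv.Perm (Fin n)) : ext n (σ * τ) = ext n σ * ext n τ :=
  (Equiv.Perm.extendDomain_mul _ _ _).symm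

theorem ext_one (n : ℕ) : ext n 1 = 1 := Equiv.Perm.extendDomain_one _

theorem exists_ext {n : ℕ} (σ : Equiv.Perm ℕ) (h : ∀ i, n ≤ i → σ i = i) :
    ∃ τ, ext n τ = σ := by
  have h1 : ∀ i, i < n → σ i < n := by
    intro i hi
    by_contra h2
    have h3 := h (σ i) (by omega)
    have := σ.injective h3
    omega
  have h4 : ∀ i, i < n → σ.symm i < n := by
    intro i hi
    by_contra h2
    have h3 := h (σ.symm i) (by omega)
    rw [Equiv.apply_symm_apply] at h3
    omega
  refine ⟨⟨fun i => ⟨σ i, h1 i i.2⟩, fun i => ⟨σ.symm i, h4 i i.2⟩, ?_, ?_⟩, ?_⟩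
  · intro i; ext; simp
  · intro i; ext; simp
  · ext i
    rcases lt_or_ge i n with hi | hi
    · rw [show i = ((⟨i, hi⟩ : Fin n) : ℕ) from rfl, ext_coe]
      rfl
    · rw [ext_ge n _ hi, h i hi]

variable {K : Type u} [Field K]

theorem rename_congr {ι κ : Type} {s : Set ι} {u : MvPolynomial ι K} (hu : u ∈ supported K s)
    {f g : ι → κ} (h : ∀ i ∈ s, f i = g i) : rename f u = rename g u := by
  rw [supported_eq_range_rename] at hu
  obtain ⟨v, rfl⟩ := hu
  change rename f (rename _ v) = rename g (rename _ v)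
  rw [rename_rename, rename_rename]
  congr 2
  funext i
  exact h i i.2

theorem rename_self {ι : Type} {s : Set ι} {u : MvPolynomial ι K} (hu : u ∈ supported K s)
    {f : ι → ι} (h : ∀ i ∈ s, f i = i) : rename f u = u := by
  rw [rename_congr hu (g := id) h]
  simp

theorem rename_mem {ι κ : Type} {s : Set ι} {t : Set κ} {u : MvPolynomial ι K}
    (hu : u ∈ supported K s) {f : ι → κ} (h : ∀ i ∈ s, f i ∈ t) : rename f u ∈ supported K t := by
  classical
  rw [mem_supported] at hu ⊢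
  intro x hx
  have := vars_rename f u hx
  rw [Finset.mem_image] at this
  obtain ⟨i, hi, rfl⟩ := this
  exact h i (hu hi)

/-- `u` only involves the variables with index `< n` -/
noncomputable abbrev S (K : Type u) [Field K] (n : ℕ) : Subalgebra K (MvPolynomial ℕ K) := supported K (Set.Iio n)

theorem S_mono {n m : ℕ} (h : n ≤ m) : S K n ≤ S K m :=
  supported_mono (Set.Iio_subset_Iio h)

theorem exists_S (u : MvPolynomial ℕ K) : ∃ n, u ∈ S K n := by
  refine ⟨u.vars.sup id + 1, ?_⟩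
  rw [mem_supported]
  intro i hi
  have := Finset.le_sup (f := id) hi
  simp only [Set.mem_Iio, id] at *
  omega

theorem X_mem_S {n i : ℕ} (h : i < n) : (X i : MvPolynomial ℕ K) ∈ S K n :=
  X_mem_supported.2 h

/-- the action of a linear combination of permutations of `Fin n` -/
noncomputable def ap {n : ℕ} (a : Equiv.Perm (Fin n) → K) (u : MvPolynomial ℕ K) :
    MvPolynomial ℕ K :=
  ∑ σ, a σ • rename (ext n σ) u

/-- the contragredient action of a linear combination of permutations of `Fin n` -/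
noncomputable def st {n : ℕ} (a : Equiv.Perm (Fin n) → K) :
    MvPolynomial ℕ K →ₗ[K] MvPolynomial ℕ K :=
  ∑ σ, a σ • (rename (ext n σ⁻¹)).toLinearMap

theorem st_apply {n : ℕ} (a : Equiv.Perm (Fin n) → K) (u : MvPolynomial ℕ K) :
    st a u = ∑ σ, a σ • rename (ext n σ⁻¹) u := by
  simp [st]

/-- the relations at level `n` -/
noncomputable def Zn (Δ : MvPolynomial ℕ K) (n : ℕ) : Submodule K (MvPolynomial ℕ K) :=
  Submodule.span K {z | ∃ a : Equiv.Perm (Fin n) → K, ap a Δ = 0 ∧ ∃ w, z = st a w}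

theorem st_mem_Zn {Δ : MvPolynomial ℕ K} {n : ℕ} {a : Equiv.Perm (Fin n) → K} (h : ap a Δ = 0)
    (w : MvPolynomial ℕ K) : st a w ∈ Zn Δ n :=
  Submodule.subset_span ⟨a, h, w, rfl⟩

theorem Zn_mono (Δ : MvPolynomial ℕ K) {n m : ℕ} (h : n ≤ m) : Zn Δ n ≤ Zn Δ m := by
  classical
  unfold Zn
  rw [Submodule.span_le]
  rintro _ ⟨a, ha, w, rfl⟩
  have h1 : ∀ σ : Equiv.Perm (Fin n), ∃ τ : Equiv.Perm (Fin m), ext m τ = ext n σ := by
    intro σ
    apply exists_ext
    intro i hi
    exact ext_ge n σ (h.trans hi)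
  choose lf hlf using h1
  have key : ∀ F : Equiv.Perm (Fin m) → MvPolynomial ℕ K,
      ∑ τ, (∑ σ, if lf σ = τ then a σ else 0) • F τ = ∑ σ, a σ • F (lf σ) := by
    intro F
    simp_rw [Finset.sum_smul]
    rw [Finset.sum_comm]
    apply Finset.sum_congr rfl
    intro σ _
    simp only [ite_smul, zero_smul]
    rw [Finset.sum_ite_eq]
    simp
  apply Submodule.subset_span
  refine ⟨fun τ => ∑ σ, if lf σ = τ then a σ else 0, ?_, w, ?_⟩
  · unfold ap
    rw [key]
    simp_rw [hlf]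
    exact ha
  · rw [st_apply, st_apply, key]
    apply Finset.sum_congr rfl
    intro σ _
    rw [← ext_inv, ← ext_inv, hlf]

/-- all relations -/
noncomputable def Z (Δ : MvPolynomial ℕ K) : Submodule K (MvPolynomial ℕ K) := ⨆ n, Zn Δ n

theorem mem_Z {Δ z : MvPolynomial ℕ K} : z ∈ Z Δ ↔ ∃ n, z ∈ Zn Δ n := by
  unfold Z
  rw [Submodule.mem_iSup_of_directed]
  exact (monotone_nat_of_le_succ fun n => Zn_mono Δ (Nat.le_succ n)).directed_le

theorem Zn_le_Z (Δ : MvPolynomial ℕ K) (n : ℕ) : Zn Δ n ≤ Z Δ := le_iSup _ n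

end Pool.Agent.H408.Iso
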