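import Pool.Agent.H408.Iso.Stmt

set_option autoImplicit false

open MvPolynomial

/-!
Versions of the definitions of `Stmt.lean` without type synonyms, used in the proofs.
-/

namespace Pool.Agent.H408.Iso

universe u

variable {K : Type u} [Field K]

/-- the action of a permutation on `K[X_n]/I_n` -/
noncomputable def quotAct {I : Ideal (MvPolynomial ℕ K)} (hI : IsSymm I) (n : ℕ)
    (σ : Equiv.Perm (Fin n)) : Module.End K (MvPolynomial (Fin n) K ⧸ trunc I n) :=
  (Ideal.quotientMapₐ (trunc I n) (rename σ) (fun _ hf => trunc_perm hI n σ hf)).toLinearMap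

theorem quotAct_mk {I : Ideal (MvPolynomial ℕ K)} (hI : IsSymm I) (n : ℕ)
    (σ : Equiv.Perm (Fin n)) (u : MvPolynomial (Fin n) K) :
    quotAct hI n σ (Ideal.Quotient.mk _ u) = Ideal.Quotient.mk _ (rename σ u) := rfl

theorem quotAct_one {I : Ideal (MvPolynomial ℕ K)} (hI : IsSymm I) (n : ℕ) :
    quotAct hI n 1 = 1 := by
  apply LinearMap.ext
  intro x
  obtain ⟨u, rfl⟩ := Ideal.Quotient.mk_surjective x
  rw [quotAct_mk]
  simp

theorem quotAct_mul {I : Ideal (MvPolynomial ℕ K)} (hI : IsSymm I) (n : ℕ)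
    (σ τ : Equiv.Perm (Fin n)) : quotAct hI n (σ * τ) = quotAct hI n σ * quotAct hI n τ := by
  apply LinearMap.ext
  intro x
  obtain ⟨u, rfl⟩ := Ideal.Quotient.mk_surjective x
  rw [Module.End.mul_apply, quotAct_mk, quotAct_mk, quotAct_mk, rename_rename]
  rfl

/-- the representation of `Sym(n)` on `K[X_n]/I_n` -/
noncomputable def quotRep {I : Ideal (MvPolynomial ℕ K)} (hI : IsSymm I) (n : ℕ) :
    Representation K (Equiv.Perm (Fin n)) (MvPolynomial (Fin n) K ⧸ trunc I n) where
  toFun := quotAct hI n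
  map_one' := quotAct_one hI n
  map_mul' := quotAct_mul hI n

theorem quotRep_mk {I : Ideal (MvPolynomial ℕ K)} (hI : IsSymm I) (n : ℕ)
    (σ : Equiv.Perm (Fin n)) (u : MvPolynomial (Fin n) K) :
    quotRep hI n σ (Ideal.Quotient.mk _ u) = Ideal.Quotient.mk _ (rename σ u) := rfl

/-- the graded piece `[K[X_n]/I_n]_d` -/
noncomputable def piece (I : Ideal (MvPolynomial ℕ K)) (n d : ℕ) :
    Submodule K (MvPolynomial (Fin n) K ⧸ trunc I n) :=
  (homogeneousSubmodule (Fin n) K d).map (Ideal.Quotient.mkₐ K (trunc I n)).toLinearMap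

theorem quotRep_piece {I : Ideal (MvPolynomial ℕ K)} (hI : IsSymm I) (n d : ℕ)
    (σ : Equiv.Perm (Fin n)) : ∀ x ∈ piece I n d, quotRep hI n σ x ∈ piece I n d := by
  rintro _ ⟨u, hu, rfl⟩
  refine ⟨rename σ u, ?_, rfl⟩
  exact IsHomogeneous.rename_isHomogeneous hu

/-- the action of a permutation on `[K[X_n]/I_n]_d` -/
noncomputable def pieceAct {I : Ideal (MvPolynomial ℕ K)} (hI : IsSymm I) (n d : ℕ)
    (σ : Equiv.Perm (Fin n)) : Module.End K (piece I n d) :=
  (quotRep hI n σ).restrict (quotRep_piece hI n d σ)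

theorem pieceAct_one {I : Ideal (MvPolynomial ℕ K)} (hI : IsSymm I) (n d : ℕ) :
    pieceAct hI n d 1 = 1 := by
  apply LinearMap.ext
  intro x
  apply Subtype.ext
  change quotRep hI n 1 (x : MvPolynomial (Fin n) K ⧸ trunc I n) = x
  rw [map_one]
  rfl

theorem pieceAct_mul {I : Ideal (MvPolynomial ℕ K)} (hI : IsSymm I) (n d : ℕ)
    (σ τ : Equiv.Perm (Fin n)) : pieceAct hI n d (σ * τ) = pieceAct hI n d σ * pieceAct hI n d τ := by
  apply LinearMap.ext
  intro x
  apply Subtype.ext
  change quotRep hI n (σ * τ) (x : MvPolynomial (Fin n) K ⧸ trunc I n) =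
    quotRep hI n σ (quotRep hI n τ x)
  rw [map_mul]
  rfl

/-- the representation of `Sym(n)` on `[K[X_n]/I_n]_d` -/
noncomputable def pieceRep {I : Ideal (MvPolynomial ℕ K)} (hI : IsSymm I) (n d : ℕ) :
    Representation K (Equiv.Perm (Fin n)) (piece I n d) where
  toFun := pieceAct hI n d
  map_one' := pieceAct_one hI n d
  map_mul' := pieceAct_mul hI n d

/-- the action of a permutation on the Specht module -/
noncomputable def spechtAct (K : Type u) [Field K] (lam : YoungDiagram) (n : ℕ)
    (σ : Equiv.Perm (Fin n)) : Module.End K (specht K lam n) :=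
  ((rename σ).toLinearMap).restrict (rename_specht lam n σ)

theorem spechtAct_one (lam : YoungDiagram) (n : ℕ) : spechtAct K lam n 1 = 1 := by
  apply LinearMap.ext
  intro x
  apply Subtype.ext
  change rename (1 : Equiv.Perm (Fin n)) (x : MvPolynomial (Fin n) K) = x
  simp

theorem spechtAct_mul (lam : YoungDiagram) (n : ℕ) (σ τ : Equiv.Perm (Fin n)) :
    spechtAct K lam n (σ * τ) = spechtAct K lam n σ * spechtAct K lam n τ := by
  apply LinearMap.ext
  intro x
  apply Subtype.ext
  change rename (σ * τ : Equiv.Perm (Fin n)) (x : MvPolynomial (Fin n) K) =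
    rename σ (rename τ (x : MvPolynomial (Fin n) K))
  rw [rename_rename]
  rfl

/-- the representation of `Sym(n)` on the Specht module -/
noncomputable def spechtRep (K : Type u) [Field K] (lam : YoungDiagram) (n : ℕ) :
    Representation K (Equiv.Perm (Fin n)) (specht K lam n) where
  toFun := spechtAct K lam n
  map_one' := spechtAct_one lam n
  map_mul' := spechtAct_mul lam n

/-- the multiplicity of the irreducible representation `V^{μ(n)}` of `Sym(n)` in
`[K[X_n]/I_n]_d`: the dimension of the space of equivariant maps -/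
noncomputable def mult {I : Ideal (MvPolynomial ℕ K)} (hI : IsSymm I) (μ : YoungDiagram)
    (n d : ℕ) : ℕ :=
  Module.finrank K (Representation.IntertwiningMap (spechtRep K (pad μ n) n) (pieceRep hI n d))

theorem multT_eq {I : Ideal (MvPolynomial ℕ K)} (hI : IsSymm I) (μ : YoungDiagram) (n d : ℕ) :
    multT hI μ n d = mult hI μ n d := rfl

end Pool.Agent.H408.Iso
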