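import Pool.Agent.H408.Iso.Basic

set_option autoImplicit false

open MvPolynomial

namespace Pool.Agent.H408.Iso

universe u

variable {K : Type u} [Field K]

/-- the Vandermonde product in the variables `x_k, ..., x_{k+l-1}` -/
noncomputable def Vd (K : Type u) [Field K] (k l : ℕ) : MvPolynomial ℕ K :=
  ∏ b ∈ Finset.range l, ∏ a ∈ Finset.range b, (X (k + b) - X (k + a))

theorem Vd_eq_det (k l : ℕ) : (Matrix.vandermonde
    (fun a : Fin l => (X (k + a) : MvPolynomial ℕ K))).det = Vd K k l := by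
  classical
  rw [Matrix.det_vandermonde]
  have h1 : ∀ i : Fin l, ∏ j ∈ Finset.Ioi i, ((X (k + j) : MvPolynomial ℕ K) - X (k + i)) =
      ∏ j : Fin l, if (i : ℕ) < j then ((X (k + j) : MvPolynomial ℕ K) - X (k + i)) else 1 := by
    intro i
    rw [Finset.prod_ite]
    simp only [Finset.prod_const_one, mul_one]
    apply Finset.prod_congr _ (fun _ _ => rfl)
    ext j
    simp only [Finset.mem_Ioi, Finset.mem_filter, Finset.mem_univ, true_and, Fin.lt_def]
  simp only [h1]
  rw [Finset.prod_comm]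
  unfold Vd
  rw [Finset.prod_range]
  apply Finset.prod_congr rfl
  intro b _
  rw [← Finset.prod_range (fun a => if a < (b : ℕ) then
    ((X (k + b) : MvPolynomial ℕ K) - X (k + a)) else 1), Finset.prod_ite]
  simp only [Finset.prod_const_one, mul_one]
  apply Finset.prod_congr _ (fun _ _ => rfl)
  ext a
  simp only [Finset.mem_filter, Finset.mem_range]
  have := b.2
  omega

theorem Vd_succ (k l : ℕ) : Vd K k (l + 1) =
    Vd K k l * ∏ a ∈ Finset.range l, (X (k + l) - X (k + a)) := by
  unfold Vd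
  rw [Finset.prod_range_succ]

theorem Vd_mem (k l : ℕ) : Vd K k l ∈ S K (k + l) := by
  unfold Vd
  apply prod_mem
  intro b hb
  apply prod_mem
  intro a ha
  rw [Finset.mem_range] at ha hb
  exact sub_mem (X_mem_S (by omega)) (X_mem_S (by omega))

theorem Vd_homog (k l : ℕ) : ∃ e, (Vd K k l).IsHomogeneous e := by
  unfold Vd
  refine ⟨_, IsHomogeneous.prod _ _ (fun b => ∑ a ∈ Finset.range b, 1) ?_⟩
  intro b _
  apply IsHomogeneous.prod _ _ (fun _ => 1)
  intro a _
  exact (isHomogeneous_X K _).sub (isHomogeneous_X K _)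

theorem mul_Vd_mem (I : Ideal (MvPolynomial ℕ K)) (k s : ℕ) (g : ℕ → MvPolynomial ℕ K)
    (h : ∀ j, k ≤ j → ∑ i ∈ Finset.range s, g i * X j ^ i ∈ I) (i : ℕ) (hi : i < s) :
    g i * Vd K k s ∈ I := by
  set M := Matrix.vandermonde (fun a : Fin s => (X (k + a) : MvPolynomial ℕ K)) with hM
  let g' : Fin s → MvPolynomial ℕ K := fun a => g a
  have h1 : ∀ a, (M.mulVec g') a ∈ I := by
    intro a
    have : (M.mulVec g') a = ∑ i ∈ Finset.range s, g i * X (k + a) ^ i := by
      rw [Finset.sum_range]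
      simp only [Matrix.mulVec, dotProduct, hM, Matrix.vandermonde_apply, g']
      apply Finset.sum_congr rfl
      intro b _
      ring
    rw [this]
    exact h _ (by omega)
  have h2 : M.adjugate.mulVec (M.mulVec g') = M.det • g' := by
    rw [Matrix.mulVec_mulVec, Matrix.adjugate_mul, Matrix.smul_mulVec, Matrix.one_mulVec]
  have h3 := congrFun h2 ⟨i, hi⟩
  rw [← Vd_eq_det]
  have h4 : g i * M.det = (M.adjugate.mulVec (M.mulVec g')) ⟨i, hi⟩ := by
    rw [h3]
    simp only [Pi.smul_apply, smul_eq_mul, g']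
    ring
  rw [← hM, h4]
  simp only [Matrix.mulVec, dotProduct]
  apply Ideal.sum_mem
  intro b _
  apply Ideal.mul_mem_left
  exact h1 b

/-- condition for the length `l` -/
def Bad (I : Ideal (MvPolynomial ℕ K)) (l : ℕ) : Prop :=
  ∃ (k : ℕ) (v : MvPolynomial ℕ K) (e : ℕ), v ∈ S K k ∧ v.IsHomogeneous e ∧ v ∉ I ∧
    v * Vd K k (l + 1) ∈ I

theorem hc_mem_S {n : ℕ} {v : MvPolynomial ℕ K} (hv : v ∈ S K n) (e : ℕ) :
    homogeneousComponent e v ∈ S K n := by
  classical
  rw [mem_supported] at hv ⊢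
  intro x hx
  apply hv
  rw [Finset.mem_coe, mem_vars_iff_mem_support] at hx ⊢
  obtain ⟨d, hd, hxd⟩ := hx
  rw [support_homogeneousComponent, Finset.mem_filter] at hd
  exact ⟨d, hd.1, hxd⟩

theorem hc_mul_right {q u : MvPolynomial ℕ K} {i : ℕ} (hq : q.IsHomogeneous i) (d : ℕ) :
    homogeneousComponent (d + i) (u * q) = homogeneousComponent d u * q := by
  have h := sum_homogeneousComponent u
  conv_lhs => rw [← h]
  rw [Finset.sum_mul, map_sum]
  by_cases hd : d ≤ u.totalDegree
  · rw [Finset.sum_eq_single d]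
    · exact homogeneousComponent_eq_self ((homogeneousComponent_isHomogeneous d u).mul hq)
    · intro b _ hb
      have h1 := (homogeneousComponent_isHomogeneous b u).mul hq
      rw [homogeneousComponent_of_mem ((mem_homogeneousSubmodule _ _).2 h1), if_neg]
      omega
    · intro h2
      exact absurd (Finset.mem_range.2 (by omega)) h2
  · rw [homogeneousComponent_eq_zero d u (by omega), zero_mul]
    apply Finset.sum_eq_zero
    intro b hb
    have h1 := (homogeneousComponent_isHomogeneous b u).mul hq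
    rw [homogeneousComponent_of_mem ((mem_homogeneousSubmodule _ _).2 h1), if_neg]
    rw [Finset.mem_range] at hb
    omega

theorem bad_of {I : Ideal (MvPolynomial ℕ K)}
    (hhom : ∀ f ∈ I, ∀ d, homogeneousComponent d f ∈ I) (s J : ℕ)
    (g : ℕ → MvPolynomial ℕ K)
    (h : ∀ j, J ≤ j → ∑ i ∈ Finset.range (s + 1), g i * X j ^ i ∈ I) (i : ℕ) (hi : i < s + 1)
    (hgi : g i ∉ I) : Bad I s := by
  obtain ⟨n, hn⟩ := exists_S (g i)
  let k := max J n
  have h1 := mul_Vd_mem I k (s + 1) g (fun j hj => h j (le_trans (le_max_left _ _) hj)) i hi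
  obtain ⟨e0, he0⟩ := Vd_homog (K := K) k (s + 1)
  have h2 : ∃ e, homogeneousComponent e (g i) ∉ I := by
    by_contra h3
    push Not at h3
    apply hgi
    rw [← sum_homogeneousComponent (g i)]
    exact Ideal.sum_mem _ fun e _ => h3 e
  obtain ⟨e, he⟩ := h2
  refine ⟨k, homogeneousComponent e (g i), e, ?_, homogeneousComponent_isHomogeneous _ _, he, ?_⟩
  · exact hc_mem_S (S_mono (le_max_right _ _) hn) e
  · rw [← hc_mul_right he0]
    exact hhom _ h1 _

/-- the product of `y - x_{k+a}` -/
noncomputable def Fp (K : Type u) [Field K] (k r : ℕ) : Polynomial (MvPolynomial ℕ K) :=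
  ∏ a ∈ Finset.range r, (Polynomial.X - Polynomial.C (X (k + a)))

theorem Fp_succ (k r : ℕ) : Fp K k (r + 1) = Fp K k r * (Polynomial.X - Polynomial.C (X (k + r))) := by
  unfold Fp
  rw [Finset.prod_range_succ]

theorem Fp_monic (k r : ℕ) : (Fp K k r).Monic :=
  Polynomial.monic_prod_of_monic _ _ fun _ _ => Polynomial.monic_X_sub_C _

theorem Fp_natDegree (k r : ℕ) : (Fp K k r).natDegree = r := by
  unfold Fp
  rw [Polynomial.natDegree_prod_of_monic _ _ fun _ _ => Polynomial.monic_X_sub_C _]
  simp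

theorem Fp_coeff_homog (k r : ℕ) : ∀ i, i ≤ r → ((Fp K k r).coeff i).IsHomogeneous (r - i) := by
  induction r with
  | zero =>
    intro i hi
    obtain rfl : i = 0 := by omega
    simp [Fp, isHomogeneous_one]
  | succ r ih =>
    intro i hi
    rw [Fp_succ]
    rcases i with _ | i
    · rw [Polynomial.mul_coeff_zero]
      simp only [Polynomial.coeff_sub, Polynomial.coeff_X_zero, Polynomial.coeff_C_zero, zero_sub]
      have := (ih 0 (by omega)).mul ((isHomogeneous_X K (k + r)).neg)
      simpa using this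
    · rw [Polynomial.coeff_mul_X_sub_C]
      apply IsHomogeneous.sub
      · have := ih i (by omega)
        rwa [show r + 1 - (i + 1) = r - i by omega]
      · rcases Nat.lt_or_ge r (i + 1) with h | h
        · rw [Polynomial.coeff_eq_zero_of_natDegree_lt (by rw [Fp_natDegree]; omega), zero_mul]
          exact isHomogeneous_zero _ _ _
        · have := (ih (i + 1) h).mul (isHomogeneous_X K (k + r))
          rwa [show r + 1 - (i + 1) = r - (i + 1) + 1 by omega]

theorem Fp_coeff_mem (k r : ℕ) : ∀ i, (Fp K k r).coeff i ∈ S K (k + r) := by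
  induction r with
  | zero =>
    intro i
    simp only [Fp, Finset.range_zero, Finset.prod_empty, Polynomial.coeff_one]
    split_ifs
    · exact one_mem _
    · exact zero_mem _
  | succ r ih =>
    intro i
    rw [Fp_succ]
    rcases i with _ | i
    · rw [Polynomial.mul_coeff_zero]
      simp only [Polynomial.coeff_sub, Polynomial.coeff_X_zero, Polynomial.coeff_C_zero, zero_sub]
      exact mul_mem (S_mono (by omega) (ih 0)) (neg_mem (X_mem_S (by omega)))
    · rw [Polynomial.coeff_mul_X_sub_C]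
      exact sub_mem (S_mono (by omega) (ih i))
        (mul_mem (S_mono (by omega) (ih (i + 1))) (X_mem_S (by omega)))

theorem Fp_eval (k r : ℕ) (y : MvPolynomial ℕ K) :
    ∏ a ∈ Finset.range r, (y - X (k + a)) =
      y ^ r + ∑ i ∈ Finset.range r, (Fp K k r).coeff i * y ^ i := by
  have h1 : (Fp K k r).eval y = ∏ a ∈ Finset.range r, (y - X (k + a)) := by
    unfold Fp
    rw [Polynomial.eval_prod]
    simp
  rw [← h1, Polynomial.eval_eq_sum_range, Fp_natDegree, Finset.sum_range_succ]
  have h2 : (Fp K k r).coeff r = 1 := by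
    have := Fp_monic (K := K) k r
    rw [Polynomial.Monic, Polynomial.leadingCoeff, Fp_natDegree] at this
    exact this
  rw [h2, one_mul, add_comm]

theorem exists_bad {I : Ideal (MvPolynomial ℕ K)}
    (hsym : ∀ σ : Equiv.Perm ℕ, ∀ f ∈ I, rename σ f ∈ I)
    (hhom : ∀ f ∈ I, ∀ d, homogeneousComponent d f ∈ I) (hbot : I ≠ ⊥) (htop : I ≠ ⊤) :
    ∃ l, Bad I l := by
  classical
  -- a nonzero element in the least number of variables
  have h1 : ∃ n, ∃ g ∈ I, g ≠ 0 ∧ g ∈ S K n := by
    obtain ⟨g, hg, hg0⟩ := Submodule.exists_mem_ne_zero_of_ne_bot hbot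
    obtain ⟨n, hn⟩ := exists_S g
    exact ⟨n, g, hg, hg0, hn⟩
  obtain ⟨g, hg, hg0, hgn⟩ := Nat.find_spec h1
  have hmin := fun m (hm : m < Nat.find h1) => Nat.find_min h1 hm
  set n := Nat.find h1 with hn
  have hn0 : n ≠ 0 := by
    intro h0
    rw [h0] at hgn
    have h2 : (Set.Iio 0 : Set ℕ) = ∅ := by
      ext; simp
    have h3 : g ∈ supported K (∅ : Set ℕ) := by
      rw [← h2]; exact hgn
    rw [supported_empty, Algebra.mem_bot] at h3
    obtain ⟨c, rfl⟩ := h3
    apply htop
    rw [Ideal.eq_top_iff_one]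
    have hc : c ≠ 0 := by
      rintro rfl
      exact hg0 (map_zero _)
    have := I.mul_mem_left (C c⁻¹) hg
    rw [MvPolynomial.algebraMap_eq, ← C_mul, inv_mul_cancel₀ hc, C_1] at this
    exact this
  obtain ⟨n', hn'⟩ : ∃ n', n = n' + 1 := ⟨n - 1, by omega⟩
  -- expand in the last variable
  have hexp : ∀ g : MvPolynomial ℕ K, g ∈ S K (n' + 1) → ∃ (c : ℕ → MvPolynomial ℕ K) (s : ℕ),
      (∀ i, c i ∈ S K n') ∧ g = ∑ i ∈ Finset.range (s + 1), c i * X n' ^ i := by
    intro g hg
    have hg' : g ∈ Algebra.adjoin K (X '' (Set.Iio (n' + 1)) : Set (MvPolynomial ℕ K)) := hg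
    have key : ∀ (c1 c2 : ℕ → MvPolynomial ℕ K) (s1 s2 : ℕ),
        (∀ i, c1 i ∈ S K n') → (∀ i, c2 i ∈ S K n') → ∃ (c : ℕ → MvPolynomial ℕ K) (s : ℕ),
        (∀ i, c i ∈ S K n') ∧ (∑ i ∈ Finset.range (s1 + 1), c1 i * X n' ^ i) *
          (∑ i ∈ Finset.range (s2 + 1), c2 i * X n' ^ i) =
            ∑ i ∈ Finset.range (s + 1), c i * X n' ^ i := by
      intro c1 c2 s1 s2 h1 h2
      let p1 : Polynomial (S K n') := ∑ i ∈ Finset.range (s1 + 1),
        Polynomial.C ⟨c1 i, h1 i⟩ * Polynomial.X ^ i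
      let p2 : Polynomial (S K n') := ∑ i ∈ Finset.range (s2 + 1),
        Polynomial.C ⟨c2 i, h2 i⟩ * Polynomial.X ^ i
      let ev := Polynomial.eval₂ (S K n').val.toRingHom (X n' : MvPolynomial ℕ K)
      refine ⟨fun i => ((p1 * p2).coeff i : S K n'), (p1 * p2).natDegree,
        fun i => ((p1 * p2).coeff i).2, ?_⟩
      have e1 : ev p1 = ∑ i ∈ Finset.range (s1 + 1), c1 i * X n' ^ i := by
        simp only [ev, p1, Polynomial.eval₂_finsetSum, Polynomial.eval₂_mul, Polynomial.eval₂_C,
          Polynomial.eval₂_pow, Polynomial.eval₂_X]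
        rfl
      have e2 : ev p2 = ∑ i ∈ Finset.range (s2 + 1), c2 i * X n' ^ i := by
        simp only [ev, p2, Polynomial.eval₂_finsetSum, Polynomial.eval₂_mul, Polynomial.eval₂_C,
          Polynomial.eval₂_pow, Polynomial.eval₂_X]
        rfl
      rw [← e1, ← e2]
      simp only [ev]
      rw [← Polynomial.eval₂_mul, Polynomial.eval₂_eq_sum_range]
      rfl
    induction hg' using Algebra.adjoin_induction with
    | mem x hx =>
      obtain ⟨i, hi, rfl⟩ := hx
      rw [Set.mem_Iio] at hi
      rcases Nat.lt_or_ge i n' with h | h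
      · refine ⟨fun j => if j = 0 then X i else 0, 0, ?_, ?_⟩
        · intro j
          dsimp only
          split_ifs
          · exact X_mem_S h
          · exact zero_mem _
        · simp
      · obtain rfl : i = n' := by omega
        refine ⟨fun j => if j = 1 then 1 else 0, 1, ?_, ?_⟩
        · intro j
          dsimp only
          split_ifs
          · exact one_mem _
          · exact zero_mem _
        · simp
    | algebraMap r =>
      refine ⟨fun j => if j = 0 then algebraMap K _ r else 0, 0, ?_, ?_⟩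
      · intro j
        dsimp only
        split_ifs
        · exact Subalgebra.algebraMap_mem _ _
        · exact zero_mem _
      · simp
    | add x y hx' hy' hx hy =>
      obtain ⟨c1, s1, h1, e1⟩ := hx hx'
      obtain ⟨c2, s2, h2, e2⟩ := hy hy'
      refine ⟨fun i => (if i ∈ Finset.range (s1 + 1) then c1 i else 0) +
        (if i ∈ Finset.range (s2 + 1) then c2 i else 0), max s1 s2, ?_, ?_⟩
      · intro i
        apply add_mem
        · split_ifs
          · exact h1 i
          · exact zero_mem _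
        · split_ifs
          · exact h2 i
          · exact zero_mem _
      · simp only [add_mul, Finset.sum_add_distrib, ite_mul, zero_mul]
        rw [← Finset.sum_filter, ← Finset.sum_filter, e1, e2]
        congr 1
        · apply Finset.sum_congr _ (fun _ _ => rfl)
          ext i
          simp only [Finset.mem_filter, Finset.mem_range]
          omega
        · apply Finset.sum_congr _ (fun _ _ => rfl)
          ext i
          simp only [Finset.mem_filter, Finset.mem_range]
          omega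
    | mul x y hx' hy' hx hy =>
      obtain ⟨c1, s1, h1, e1⟩ := hx hx'
      obtain ⟨c2, s2, h2, e2⟩ := hy hy'
      obtain ⟨c, s, hc, e⟩ := key c1 c2 s1 s2 h1 h2
      exact ⟨c, s, hc, by rw [e1, e2, e]⟩
  rw [hn'] at hgn
  obtain ⟨c, s, hc, hgc⟩ := hexp g hgn
  -- a nonzero coefficient
  obtain ⟨i, hi, hci⟩ : ∃ i, i < s + 1 ∧ c i ≠ 0 := by
    by_contra h
    push Not at h
    apply hg0
    rw [hgc]
    apply Finset.sum_eq_zero
    intro i hi
    rw [h i (Finset.mem_range.1 hi), zero_mul]
  have hcI : c i ∉ I := by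
    intro h
    exact hmin n' (by omega) ⟨c i, h, hci, hc i⟩
  refine ⟨s, bad_of hhom s n' c ?_ i hi hcI⟩
  intro j hj
  have h5 := hsym (Equiv.swap n' j) g hg
  rw [hgc, map_sum] at h5
  convert h5 using 1
  apply Finset.sum_congr rfl
  intro l _
  rw [map_mul, map_pow, rename_X, Equiv.swap_apply_left, rename_self (hc l)]
  intro k hk
  rw [Set.mem_Iio] at hk
  apply Equiv.swap_apply_of_ne_of_ne <;> omega

/-- the main data attached to a proper nonzero symmetric homogeneous ideal -/
theorem exists_data {I : Ideal (MvPolynomial ℕ K)}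
    (hsym : ∀ σ : Equiv.Perm ℕ, ∀ f ∈ I, rename σ f ∈ I)
    (hhom : ∀ f ∈ I, ∀ d, homogeneousComponent d f ∈ I) (hbot : I ≠ ⊥) (htop : I ≠ ⊤) :
    ∃ (r k : ℕ) (f : MvPolynomial ℕ K) (e : ℕ) (c : ℕ → MvPolynomial ℕ K),
      1 ≤ r ∧ f ∈ S K k ∧ f.IsHomogeneous e ∧ f ∉ I ∧
      (∀ i, i < r → c i ∈ S K k ∧ (c i).IsHomogeneous (r - i)) ∧
      (∀ j, k ≤ j → (X j ^ r + ∑ i ∈ Finset.range r, c i * X j ^ i) * f ∈ I) ∧
      (∀ (g : ℕ → MvPolynomial ℕ K) (J : ℕ),
        (∀ j, J ≤ j → ∑ i ∈ Finset.range r, g i * X j ^ i ∈ I) → ∀ i, i < r → g i ∈ I) := by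
  classical
  have h1 := exists_bad hsym hhom hbot htop
  obtain ⟨k, v, e, hv, hve, hvI, hvV⟩ := Nat.find_spec h1
  have hmin := fun m (hm : m < Nat.find h1) => Nat.find_min h1 hm
  set r := Nat.find h1 with hr
  have hr1 : 1 ≤ r := by
    by_contra h
    have h0 : r = 0 := by omega
    rw [h0] at hvV
    apply hvI
    simpa [Vd] using hvV
  obtain ⟨e0, he0⟩ := Vd_homog (K := K) k r
  refine ⟨r, k + r, v * Vd K k r, e + e0, fun i => (Fp K k r).coeff i, hr1, ?_, hve.mul he0,
    ?_, ?_, ?_, ?_⟩
  · exact mul_mem (S_mono (by omega) hv) (Vd_mem k r)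
  · intro h
    apply hmin (r - 1) (by omega)
    refine ⟨k, v, e, hv, hve, hvI, ?_⟩
    rwa [show r - 1 + 1 = r by omega]
  · intro i hi
    exact ⟨Fp_coeff_mem k r i, Fp_coeff_homog k r i hi.le⟩
  · intro j hj
    rw [← Fp_eval]
    have h2 := hsym (Equiv.swap (k + r) j) _ hvV
    rw [Vd_succ, map_mul, map_mul, map_prod] at h2
    have h3 : rename (Equiv.swap (k + r) j) v = v := by
      apply rename_self hv
      intro l hl
      rw [Set.mem_Iio] at hl
      apply Equiv.swap_apply_of_ne_of_ne <;> omega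
    have h4 : rename (Equiv.swap (k + r) j) (Vd K k r) = Vd K k r := by
      apply rename_self (Vd_mem k r)
      intro l hl
      rw [Set.mem_Iio] at hl
      apply Equiv.swap_apply_of_ne_of_ne <;> omega
    have h5 : ∏ a ∈ Finset.range r, (rename (Equiv.swap (k + r) j))
        ((X (k + r) : MvPolynomial ℕ K) - X (k + a)) = ∏ a ∈ Finset.range r, (X j - X (k + a)) := by
      apply Finset.prod_congr rfl
      intro a ha
      rw [Finset.mem_range] at ha
      rw [map_sub, rename_X, rename_X, Equiv.swap_apply_left, Equiv.swap_apply_of_ne_of_ne]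
      · omega
      · omega
    rw [h3, h4, h5] at h2
    convert h2 using 1
    ring
  · intro g J hg i hi
    by_contra h
    apply hmin (r - 1) (by omega)
    apply bad_of hhom (r - 1) J g _ i (by omega) h
    rwa [show r - 1 + 1 = r by omega]

end Pool.Agent.H408.Iso
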