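import Pool.Agent.H408.Iso.POps
import Pool.Agent.H408.Iso.Vand

set_option autoImplicit false

open MvPolynomial

namespace Pool.Agent.H408.Iso

universe u

variable {K : Type u} [Field K]

/-- formal combinations of translates -/
abbrev FF (K : Type u) [Field K] := Equiv.Perm ℕ →₀ MvPolynomial ℕ K

/-- `h ↦ ∑ h_σ σ(c f)` -/
noncomputable def Phi (f c : MvPolynomial ℕ K) : FF K →ₗ[MvPolynomial ℕ K] MvPolynomial ℕ K :=
  Finsupp.linearCombination (MvPolynomial ℕ K) (fun σ : Equiv.Perm ℕ => rename σ (c * f))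

theorem Phi_apply (f c : MvPolynomial ℕ K) (h : FF K) :
    Phi f c h = h.sum fun σ x => x * rename σ (c * f) := by
  unfold Phi
  rw [Finsupp.linearCombination_apply]
  rfl

theorem Phi_single (f c : MvPolynomial ℕ K) (σ : Equiv.Perm ℕ) (x : MvPolynomial ℕ K) :
    Phi f c (Finsupp.single σ x) = x * rename σ (c * f) := by
  unfold Phi
  rw [Finsupp.linearCombination_single]
  rfl

/-- translation by a permutation -/
noncomputable def TT (τ : Equiv.Perm ℕ) : FF K →ₗ[K] FF K :=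
  Finsupp.lsum K (fun σ => (Finsupp.lsingle (τ * σ)).comp (rename τ).toLinearMap)

theorem Phi_TT (f c : MvPolynomial ℕ K) (τ : Equiv.Perm ℕ) (h : FF K) :
    Phi f c (TT τ h) = rename τ (Phi f c h) := by
  induction h using Finsupp.induction_linear with
  | zero => simp
  | add x y hx hy => rw [map_add, map_add, map_add, map_add, hx, hy]
  | single σ x =>
    have : TT τ (Finsupp.single σ x) = Finsupp.single (τ * σ) (rename τ x) := by
      unfold TT
      rw [Finsupp.lsum_single]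
      rfl
    rw [this, Phi_single, Phi_single, map_mul (rename τ), rename_rename]
    rfl

/-- multiplication by the translates of `c` -/
noncomputable def EE (c : MvPolynomial ℕ K) : FF K →ₗ[MvPolynomial ℕ K] FF K :=
  Finsupp.lsum (MvPolynomial ℕ K) (fun σ => (Finsupp.lsingle σ).comp
    (LinearMap.mulLeft (MvPolynomial ℕ K) (rename σ c)))

theorem EE_single (c : MvPolynomial ℕ K) (σ : Equiv.Perm ℕ) (x : MvPolynomial ℕ K) :
    EE c (Finsupp.single σ x) = Finsupp.single σ (rename σ c * x) := by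
  unfold EE
  rw [Finsupp.lsum_single]
  rfl

theorem Phi_EE (f c c' : MvPolynomial ℕ K) (h : FF K) :
    Phi f c (EE c' h) = Phi f (c * c') h := by
  induction h using Finsupp.induction_linear with
  | zero => simp
  | add x y hx hy => rw [map_add, map_add, map_add, hx, hy]
  | single σ x =>
    rw [EE_single, Phi_single, Phi_single, map_mul, map_mul, map_mul]
    ring

/-- the graded pieces on the level of formal combinations -/
noncomputable def GG (e d : ℕ) : FF K →ₗ[K] FF K :=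
  Finsupp.mapRange.linearMap (if e ≤ d then homogeneousComponent (d - e) else 0)

theorem Phi_GG {f c : MvPolynomial ℕ K} {e w : ℕ} (hf : f.IsHomogeneous e)
    (hc : c.IsHomogeneous w) (d : ℕ) (h : FF K) :
    Phi f c (GG e d h) = homogeneousComponent (d + w) (Phi f c h) := by
  induction h using Finsupp.induction_linear with
  | zero => simp
  | add x y hx hy => rw [map_add, map_add, map_add, map_add, hx, hy]
  | single σ x =>
    have h1 : GG e d (Finsupp.single σ x) = Finsupp.single σ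
        ((if e ≤ d then homogeneousComponent (d - e) else 0) x) := by
      unfold GG
      rw [Finsupp.mapRange.linearMap_apply, Finsupp.mapRange_single]
    have h2 : (rename σ (c * f)).IsHomogeneous (w + e) := (hc.mul hf).rename_isHomogeneous
    rw [h1, Phi_single, Phi_single]
    split_ifs with hed
    · rw [← hc_mul_right h2, show d - e + (w + e) = d + w by omega]
    · rw [LinearMap.zero_apply, zero_mul, mul_comm x, hc_mul_lt h2 (by omega)]

section

variable {I : Ideal (MvPolynomial ℕ K)} {f : MvPolynomial ℕ K} {k r : ℕ}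
  {c : ℕ → MvPolynomial ℕ K}

theorem Phi_c_mem (hsym : ∀ σ : Equiv.Perm ℕ, ∀ f ∈ I, rename σ f ∈ I)
    (hrel : ∀ j, k ≤ j → (X j ^ r + ∑ i ∈ Finset.range r, c i * X j ^ i) * f ∈ I)
    (hmin : ∀ (g : ℕ → MvPolynomial ℕ K) (J : ℕ),
        (∀ j, J ≤ j → ∑ i ∈ Finset.range r, g i * X j ^ i ∈ I) → ∀ i, i < r → g i ∈ I)
    {h : FF K} (hh : Phi f 1 h ∈ I) : ∀ i, i < r → Phi f (c i) h ∈ I := by
  classical
  obtain ⟨J, hJ⟩ : ∃ J, ∀ σ ∈ h.support, ∀ l, l < k → σ l < J := by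
    refine ⟨(h.support ×ˢ Finset.range k).sup (fun p => p.1 p.2) + 1, ?_⟩
    intro σ hσ l hl
    have := Finset.le_sup (f := fun p : Equiv.Perm ℕ × ℕ => p.1 p.2)
      (Finset.mem_product.2 ⟨hσ, Finset.mem_range.2 hl⟩ :
        (σ, l) ∈ h.support ×ˢ Finset.range k)
    simp only at this
    omega
  refine hmin (fun i => Phi f (c i) h) J ?_
  intro j hj
  have h1 : ∑ i ∈ Finset.range r, Phi f (c i) h * X j ^ i =
      (h.sum fun σ x => x * rename σ ((X (σ.symm j) ^ r +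
        ∑ i ∈ Finset.range r, c i * X (σ.symm j) ^ i) * f)) - X j ^ r * Phi f 1 h := by
    simp only [Phi_apply, Finsupp.sum, Finset.mul_sum, Finset.sum_mul]
    rw [Finset.sum_comm, ← Finset.sum_sub_distrib]
    apply Finset.sum_congr rfl
    intro σ _
    simp only [map_mul, map_add, map_pow, rename_X, Equiv.apply_symm_apply, map_sum, one_mul, add_mul, mul_add, Finset.sum_mul, Finset.mul_sum]
    have : X j ^ r * (h σ * (rename σ) f) = h σ * (X j ^ r * (rename σ) f) := by ring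
    rw [this, add_sub_cancel_left]
    apply Finset.sum_congr rfl
    intro i _
    ring
  rw [h1]
  apply Ideal.sub_mem
  · apply Ideal.sum_mem
    intro σ hσ
    apply Ideal.mul_mem_left
    apply hsym
    apply hrel
    by_contra h2
    push Not at h2
    have := hJ σ hσ _ h2
    rw [Equiv.apply_symm_apply] at this
    omega
  · exact I.mul_mem_left _ hh

theorem Phi_c_mem_SI [CharZero K] (Δ : MvPolynomial ℕ K)
    (hsym : ∀ σ : Equiv.Perm ℕ, ∀ f ∈ I, rename σ f ∈ I)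
    (hrel : ∀ j, k ≤ j → (X j ^ r + ∑ i ∈ Finset.range r, c i * X j ^ i) * f ∈ I)
    (hmin : ∀ (g : ℕ → MvPolynomial ℕ K) (J : ℕ),
        (∀ j, J ≤ j → ∑ i ∈ Finset.range r, g i * X j ^ i ∈ I) → ∀ i, i < r → g i ∈ I)
    {h : FF K} (hh : Phi f 1 h ∈ SI I Δ) : ∀ i, i < r → Phi f (c i) h ∈ SI I Δ := by
  intro i hi
  obtain ⟨g, hg, z, hz, hgz⟩ := mem_SI.1 hh
  obtain ⟨n, hn⟩ := mem_Z.1 hz
  obtain ⟨η, hη, hηz⟩ := exists_eta_Zn Δ n
  have hstI : ∀ u ∈ I, st η u ∈ I := by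
    intro u hu
    rw [st_apply]
    apply Ideal.sum_mem
    intro σ _
    rw [MvPolynomial.smul_eq_C_mul]
    exact I.mul_mem_left _ (hsym _ _ hu)
  let h' : FF K := h - ∑ σ, η σ • TT (ext n σ⁻¹) h
  have h1 : ∀ c', Phi f c' h' = Phi f c' h - st η (Phi f c' h) := by
    intro c'
    simp only [h']
    rw [map_sub, st_apply]
    congr 1
    rw [map_sum]
    apply Finset.sum_congr rfl
    intro σ _
    rw [← Phi_TT]
    exact (((Phi f c').restrictScalars K).map_smul _ _)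
  have h2 : Phi f 1 h' ∈ I := by
    rw [h1, ← hgz, map_add, hηz z hn]
    have : g + z - (st η g + z) = g - st η g := by ring
    rw [this]
    exact I.sub_mem hg (hstI g hg)
  have h3 := Phi_c_mem hsym hrel hmin h2 i hi
  rw [h1] at h3
  have h4 : Phi f (c i) h = (Phi f (c i) h - st η (Phi f (c i) h)) + st η (Phi f (c i) h) := by ring
  rw [h4]
  exact add_mem (I_le_SI I Δ h3) (Z_le_SI I Δ (Zn_le_Z Δ n (st_mem_Zn hη _)))

end

/-- the class of `∑ h_σ σ(c f)` -/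
noncomputable def PhiQ (I : Ideal (MvPolynomial ℕ K)) (Δ f c : MvPolynomial ℕ K) :
    FF K →ₗ[K] (MvPolynomial ℕ K ⧸ SI I Δ) :=
  (SI I Δ).mkQ.comp ((Phi f c).restrictScalars K)

theorem PhiQ_apply (I : Ideal (MvPolynomial ℕ K)) (Δ f c : MvPolynomial ℕ K) (h : FF K) :
    PhiQ I Δ f c h = Submodule.Quotient.mk (Phi f c h) := rfl

/-- the image of the ideal generated by `I` and the orbit of `f` -/
noncomputable abbrev CC (I : Ideal (MvPolynomial ℕ K)) (Δ f : MvPolynomial ℕ K) :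
    Submodule K (MvPolynomial ℕ K ⧸ SI I Δ) := LinearMap.range (PhiQ I Δ f 1)

theorem PhiQ_mem (I : Ideal (MvPolynomial ℕ K)) (Δ f c : MvPolynomial ℕ K) (h : FF K) :
    PhiQ I Δ f c h ∈ CC I Δ f := by
  refine ⟨EE c h, ?_⟩
  rw [PhiQ_apply, PhiQ_apply, Phi_EE, one_mul]

/-- the operator `e_c`, when it is well defined -/
noncomputable def eop {I : Ideal (MvPolynomial ℕ K)} {Δ f c : MvPolynomial ℕ K}
    (hc : ∀ h, Phi f 1 h ∈ SI I Δ → Phi f c h ∈ SI I Δ) : Module.End K (CC I Δ f) :=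
  (Submodule.liftQ (LinearMap.ker (PhiQ I Δ f 1))
    ((PhiQ I Δ f c).codRestrict (CC I Δ f) (PhiQ_mem I Δ f c)) (by
      intro h hh
      rw [LinearMap.mem_ker] at hh ⊢
      apply Subtype.ext
      change PhiQ I Δ f c h = 0
      rw [PhiQ_apply, Submodule.Quotient.mk_eq_zero] at hh ⊢
      exact hc h hh)).comp (PhiQ I Δ f 1).quotKerEquivRange.symm.toLinearMap

theorem eop_apply {I : Ideal (MvPolynomial ℕ K)} {Δ f c : MvPolynomial ℕ K}
    (hc : ∀ h, Phi f 1 h ∈ SI I Δ → Phi f c h ∈ SI I Δ) (h : FF K) :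
    eop hc ⟨PhiQ I Δ f 1 h, PhiQ_mem I Δ f 1 h⟩ = ⟨PhiQ I Δ f c h, PhiQ_mem I Δ f c h⟩ := by
  unfold eop
  rw [LinearMap.comp_apply]
  have : (PhiQ I Δ f 1).quotKerEquivRange.symm.toLinearMap
      ⟨PhiQ I Δ f 1 h, PhiQ_mem I Δ f 1 h⟩ = Submodule.Quotient.mk h := by
    change (PhiQ I Δ f 1).quotKerEquivRange.symm _ = _
    rw [LinearEquiv.symm_apply_eq]
    rfl
  rw [this]
  rfl

theorem CC_ind {I : Ideal (MvPolynomial ℕ K)} {Δ f : MvPolynomial ℕ K} (x : CC I Δ f) :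
    ∃ h, x = ⟨PhiQ I Δ f 1 h, PhiQ_mem I Δ f 1 h⟩ := by
  obtain ⟨x, h, rfl⟩ := x
  exact ⟨h, rfl⟩

theorem eop_comm {I : Ideal (MvPolynomial ℕ K)} {Δ f c c' : MvPolynomial ℕ K}
    (hc : ∀ h, Phi f 1 h ∈ SI I Δ → Phi f c h ∈ SI I Δ)
    (hc' : ∀ h, Phi f 1 h ∈ SI I Δ → Phi f c' h ∈ SI I Δ) :
    eop hc * eop hc' = eop hc' * eop hc := by
  apply LinearMap.ext
  intro x
  obtain ⟨h, rfl⟩ := CC_ind x
  rw [Module.End.mul_apply, Module.End.mul_apply, eop_apply, eop_apply]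
  have h1 : ∀ c, (⟨PhiQ I Δ f c h, PhiQ_mem I Δ f c h⟩ : CC I Δ f) =
      ⟨PhiQ I Δ f 1 (EE c h), PhiQ_mem I Δ f 1 (EE c h)⟩ := by
    intro c
    apply Subtype.ext
    change PhiQ I Δ f c h = PhiQ I Δ f 1 (EE c h)
    rw [PhiQ_apply, PhiQ_apply, Phi_EE, one_mul]
  rw [h1 c, h1 c', eop_apply, eop_apply]
  apply Subtype.ext
  change PhiQ I Δ f c (EE c' h) = PhiQ I Δ f c' (EE c h)
  rw [PhiQ_apply, PhiQ_apply, Phi_EE, Phi_EE, mul_comm]

theorem pop_PhiQ (I : Ideal (MvPolynomial ℕ K)) {Δ : MvPolynomial ℕ K} {m : ℕ}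
    (hΔ : Δ ∈ S K m) (f c : MvPolynomial ℕ K) (i : ℕ) (h : FF K) {n : ℕ} (hn : m ≤ n)
    (h' : Phi f c h ∈ S K n) :
    pop I hΔ i (PhiQ I Δ f c h) = PhiQ I Δ f c (qq K i n • h) := by
  rw [PhiQ_apply, pop_mk I hΔ i hn h', PhiQ_apply, map_smul]
  rfl

theorem pop_mem_CC (I : Ideal (MvPolynomial ℕ K)) {Δ : MvPolynomial ℕ K} {m : ℕ}
    (hΔ : Δ ∈ S K m) (f : MvPolynomial ℕ K) (i : ℕ) :
    ∀ x ∈ CC I Δ f, pop I hΔ i x ∈ CC I Δ f := by
  rintro _ ⟨h, rfl⟩
  rw [pop_PhiQ I hΔ f 1 i h (le_bd m _) (mem_S_bd m _)]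
  exact PhiQ_mem _ _ _ _ _

/-- the operator `p_i` on `C` -/
noncomputable def popC (I : Ideal (MvPolynomial ℕ K)) {Δ : MvPolynomial ℕ K} {m : ℕ}
    (hΔ : Δ ∈ S K m) (f : MvPolynomial ℕ K) (i : ℕ) : Module.End K (CC I Δ f) :=
  (pop I hΔ i).restrict (pop_mem_CC I hΔ f i)

theorem popC_coe (I : Ideal (MvPolynomial ℕ K)) {Δ : MvPolynomial ℕ K} {m : ℕ}
    (hΔ : Δ ∈ S K m) (f : MvPolynomial ℕ K) (i : ℕ) (x : CC I Δ f) :
    (popC I hΔ f i x : MvPolynomial ℕ K ⧸ SI I Δ) = pop I hΔ i x := rfl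

theorem popC_comm (I : Ideal (MvPolynomial ℕ K)) {Δ : MvPolynomial ℕ K} {m : ℕ}
    (hΔ : Δ ∈ S K m) (f : MvPolynomial ℕ K) (i j : ℕ) :
    popC I hΔ f i * popC I hΔ f j = popC I hΔ f j * popC I hΔ f i := by
  apply LinearMap.ext
  intro x
  apply Subtype.ext
  exact LinearMap.congr_fun (pop_comm I hΔ i j) (x : MvPolynomial ℕ K ⧸ SI I Δ)

theorem eop_popC_comm {I : Ideal (MvPolynomial ℕ K)} {Δ f c : MvPolynomial ℕ K}
    (hc : ∀ h, Phi f 1 h ∈ SI I Δ → Phi f c h ∈ SI I Δ) {m : ℕ} (hΔ : Δ ∈ S K m) (i : ℕ) :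
    eop hc * popC I hΔ f i = popC I hΔ f i * eop hc := by
  apply LinearMap.ext
  intro x
  obtain ⟨h, rfl⟩ := CC_ind x
  rw [Module.End.mul_apply, Module.End.mul_apply, eop_apply]
  let n := max (bd m (Phi f 1 h)) (bd m (Phi f c h))
  have h1 : bd m (Phi f 1 h) ≤ n := le_max_left _ _
  have h2 : bd m (Phi f c h) ≤ n := le_max_right _ _
  have h3 : popC I hΔ f i ⟨PhiQ I Δ f 1 h, PhiQ_mem I Δ f 1 h⟩ =
      ⟨PhiQ I Δ f 1 (qq K i n • h), PhiQ_mem I Δ f 1 _⟩ := by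
    apply Subtype.ext
    rw [popC_coe]
    exact pop_PhiQ I hΔ f 1 i h ((le_bd m _).trans h1) (S_mono h1 (mem_S_bd m _))
  have h4 : popC I hΔ f i ⟨PhiQ I Δ f c h, PhiQ_mem I Δ f c h⟩ =
      ⟨PhiQ I Δ f c (qq K i n • h), PhiQ_mem I Δ f c _⟩ := by
    apply Subtype.ext
    rw [popC_coe]
    exact pop_PhiQ I hΔ f c i h ((le_bd m _).trans h2) (S_mono h2 (mem_S_bd m _))
  rw [h3, h4, eop_apply]

end Pool.Agent.H408.Iso
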