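import Pool.Agent.H408.Iso.Basic

set_option autoImplicit false

open MvPolynomial

namespace Pool.Agent.H408.Iso

universe u

variable {K : Type u} [Field K]

/-- the element of the group algebra given by a function -/
noncomputable def ofF {G : Type} [Fintype G] (a : G → K) : MonoidAlgebra K G :=
  MonoidAlgebra.ofCoeff (Finsupp.equivFunOnFinite.symm a)

theorem lift_ofF {G : Type} [Group G] [Fintype G] {A : Type u} [Semiring A] [Algebra K A]
    (F : G →* A) (a : G → K) : MonoidAlgebra.lift K A G F (ofF a) = ∑ g, a g • F g := by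
  rw [MonoidAlgebra.lift_apply]
  unfold ofF
  rw [MonoidAlgebra.coeff_ofCoeff, Finsupp.sum_fintype]
  · rfl
  · simp

theorem ofF_coeff {G : Type} [Fintype G] (a : MonoidAlgebra K G) : ofF (fun g => a.coeff g) = a := by
  unfold ofF
  have : Finsupp.equivFunOnFinite.symm (fun g => a.coeff g) = a.coeff := by
    ext g; rfl
  rw [this]

/-- the opposite homomorphism `g ↦ op (τ g⁻¹)` -/
def opHom {G : Type} [Group G] {A : Type u} [Monoid A] (τ : G →* A) : G →* Aᵐᵒᵖ where
  toFun g := MulOpposite.op (τ g⁻¹)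
  map_one' := by simp
  map_mul' g h := by
    rw [mul_inv_rev, map_mul, MulOpposite.op_mul]

theorem exists_eta [CharZero K] {G : Type} [Group G] [Fintype G] {V : Type u} [AddCommGroup V]
    [Module K V] (ρ : G →* Module.End K V) (Δ : V) :
    ∃ η : G → K, ∑ g, η g • ρ g Δ = 0 ∧
      ∀ (W : Type u) [AddCommGroup W] [Module K W] (τ : G →* Module.End K W) (a : G → K),
        ∑ g, a g • ρ g Δ = 0 → ∀ w, ∑ g, η g • τ g⁻¹ (∑ h, a h • τ h⁻¹ w) =
          ∑ h, a h • τ h⁻¹ w := by
  classical
  let L := MonoidAlgebra.lift K (Module.End K V) G ρ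
  let p : Submodule (MonoidAlgebra K G) (MonoidAlgebra K G) :=
    { carrier := {a | L a Δ = 0}
      add_mem' := by
        intro a b ha hb
        simp only [Set.mem_ofPred_eq] at *
        rw [map_add, LinearMap.add_apply, ha, hb, add_zero]
      zero_mem' := by simp
      smul_mem' := by
        intro c a ha
        simp only [Set.mem_ofPred_eq, smul_eq_mul] at *
        rw [map_mul, Module.End.mul_apply, ha, map_zero] }
  have hmem : ∀ a, a ∈ p ↔ L a Δ = 0 := fun a => Iff.rfl
  have : NeZero (Nat.card G : K) := ⟨by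
    rw [Nat.cast_ne_zero]
    exact Nat.card_pos.ne'⟩
  obtain ⟨q, hq⟩ := MonoidAlgebra.Submodule.exists_isCompl p
  have h1 : (1 : MonoidAlgebra K G) ∈ p ⊔ q := by rw [hq.sup_eq_top]; trivial
  obtain ⟨η, hη, η', hη', h2⟩ := Submodule.mem_sup.1 h1
  have key : ∀ a ∈ p, a * η = a := by
    intro a ha
    have h3 : a - a * η = a * η' := by
      rw [sub_eq_iff_eq_add, ← mul_add, add_comm, h2, mul_one]
    have h4 : a - a * η ∈ p := p.sub_mem ha (p.smul_mem a hη)
    have h5 : a - a * η ∈ q := by
      rw [h3]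
      exact q.smul_mem a hη'
    have h6 : a - a * η ∈ p ⊓ q := ⟨h4, h5⟩
    rw [hq.inf_eq_bot, Submodule.mem_bot] at h6
    exact (sub_eq_zero.1 h6).symm
  refine ⟨fun g => η.coeff g, ?_, ?_⟩
  · have := (hmem η).1 hη
    rw [← ofF_coeff η] at this
    simp only [L] at this
    rw [lift_ofF] at this
    simpa using this
  · intro W _ _ τ a ha w
    let Θ := MonoidAlgebra.lift K (Module.End K W)ᵐᵒᵖ G (opHom τ)
    have hΘ : ∀ b : G → K, ∀ x, (Θ (ofF b)).unop x = ∑ g, b g • τ g⁻¹ x := by
      intro b x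
      simp only [Θ]
      rw [lift_ofF]
      simp [opHom]
    have ha' : ofF a ∈ p := by
      rw [hmem]
      simp only [L]
      rw [lift_ofF]
      simpa using ha
    have h7 := key _ ha'
    have h8 : Θ (ofF a * η) = Θ (ofF a) := by rw [h7]
    rw [map_mul] at h8
    have h9 := congrArg (fun t : (Module.End K W)ᵐᵒᵖ => (MulOpposite.unop t) w) h8
    simp only [MulOpposite.unop_mul, Module.End.mul_apply] at h9
    rw [hΘ] at h9
    rw [← hΘ (fun g => η.coeff g), ofF_coeff]
    exact h9

/-- the representation of `Perm (Fin n)` on polynomials -/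
noncomputable def rep (K : Type u) [Field K] (n : ℕ) :
    Equiv.Perm (Fin n) →* Module.End K (MvPolynomial ℕ K) where
  toFun σ := (rename (ext n σ)).toLinearMap
  map_one' := by
    apply LinearMap.ext
    intro u
    simp only [AlgHom.toLinearMap_apply, ext_one, Equiv.Perm.coe_one, rename_id, AlgHom.id_apply,
      Module.End.one_apply]
  map_mul' σ τ := by
    apply LinearMap.ext
    intro u
    simp only [AlgHom.toLinearMap_apply, Module.End.mul_apply, ext_mul, rename_rename,
      Equiv.Perm.coe_mul]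

theorem rep_apply (n : ℕ) (σ : Equiv.Perm (Fin n)) (u : MvPolynomial ℕ K) :
    rep K n σ u = rename (ext n σ) u := rfl

theorem exists_eta_Zn [CharZero K] (Δ : MvPolynomial ℕ K) (n : ℕ) :
    ∃ η : Equiv.Perm (Fin n) → K, ap η Δ = 0 ∧ ∀ z ∈ Zn Δ n, st η z = z := by
  obtain ⟨η, h1, h2⟩ := exists_eta (rep K n) Δ
  refine ⟨η, h1, ?_⟩
  intro z hz
  induction hz using Submodule.span_induction with
  | mem x hx =>
    obtain ⟨a, ha, w, rfl⟩ := hx
    have := h2 _ (rep K n) a ha w
    rw [st_apply, st_apply]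
    exact this
  | zero => simp
  | add x y _ _ hx hy => rw [map_add, hx, hy]
  | smul c x _ hx => rw [map_smul, hx]

end Pool.Agent.H408.Iso
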