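import Pool.Agent.H408.Iso.Ops

set_option autoImplicit false

open MvPolynomial

namespace Pool.Agent.H408.Iso

universe u

variable {K : Type u} [Field K]

theorem esymm_mem_span [CharZero K] (k : ℕ) : ∀ j, 1 ≤ j → j ≤ k → esymm (Fin k) K j ∈
    Ideal.span (Set.range fun t : Fin k => psum (Fin k) K (t + 1)) := by
  intro j
  induction j using Nat.strong_induction_on with
  | _ j ih =>
    intro h1 h2
    have h := mul_esymm_eq_sum (Fin k) K j
    have h3 : (j : MvPolynomial (Fin k) K) * esymm (Fin k) K j ∈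
        Ideal.span (Set.range fun t : Fin k => psum (Fin k) K (t + 1)) := by
      rw [h]
      apply Ideal.mul_mem_left
      apply Ideal.sum_mem
      intro a ha
      rw [Finset.mem_filter, Finset.HasAntidiagonal.mem_antidiagonal] at ha
      apply Ideal.mul_mem_left
      apply Ideal.subset_span
      refine ⟨⟨a.2 - 1, by omega⟩, ?_⟩
      simp only
      congr 1
      omega
    have h4 : (j : K) ≠ 0 := by
      rw [Nat.cast_ne_zero]; omega
    have h5 := Ideal.mul_mem_left _ (C ((j : K)⁻¹)) h3
    rw [← mul_assoc, ← map_natCast (C : K →+* MvPolynomial (Fin k) K) j, ← C_mul,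
      inv_mul_cancel₀ h4, C_1, one_mul] at h5
    exact h5

theorem X_pow_mem_span [CharZero K] (k : ℕ) (s : Fin k) : (X s : MvPolynomial (Fin k) K) ^ k ∈
    Ideal.span (Set.range fun t : Fin k => psum (Fin k) K (t + 1)) := by
  have h := congrArg (Polynomial.eval (-X s : MvPolynomial (Fin k) K))
    (prod_C_add_X_eq_sum_esymm (R := K) (σ := Fin k))
  rw [Polynomial.eval_prod, Finset.prod_eq_zero (Finset.mem_univ s) (by simp),
    Polynomial.eval_finsetSum, Fintype.card_fin, Finset.sum_range_succ'] at h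
  simp only [Polynomial.eval_mul, Polynomial.eval_C, Polynomial.eval_pow, Polynomial.eval_X,
    esymm_zero, one_mul, Nat.sub_zero] at h
  have h1 : (-X s : MvPolynomial (Fin k) K) ^ k = -∑ i ∈ Finset.range k,
      esymm (Fin k) K (i + 1) * (-X s) ^ (k - (i + 1)) := by
    rw [eq_neg_iff_add_eq_zero, add_comm]
    exact h.symm
  have h2 : (X s : MvPolynomial (Fin k) K) ^ k = (-1) ^ k * (-X s) ^ k := by
    rw [← mul_pow, neg_one_mul, neg_neg]
  rw [h2, h1]
  apply Ideal.mul_mem_left
  apply Submodule.neg_mem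
  apply Ideal.sum_mem
  intro i hi
  rw [Finset.mem_range] at hi
  apply Ideal.mul_mem_right
  exact esymm_mem_span k (i + 1) (by omega) (by omega)

theorem psum_homog (k t : ℕ) : (psum (Fin k) K t).IsHomogeneous t := by
  unfold psum
  apply IsHomogeneous.sum
  intro i _
  exact isHomogeneous_X_pow i t

/-- a high power of a variable is a combination of the power sums `p_r, p_{2r}, ..., p_{kr}` -/
theorem newton_mem [CharZero K] (k r : ℕ) (s : ℕ) (hs : s < k) :
    ∃ h : Fin k → MvPolynomial ℕ K,
      (∀ t, h t ∈ S K k ∧ (h t).IsHomogeneous (r * (k - (t + 1)))) ∧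
      (X s : MvPolynomial ℕ K) ^ (r * k) =
        ∑ t, h t * ∑ j ∈ Finset.range k, X j ^ (r * (t + 1)) := by
  have h1 := X_pow_mem_span (K := K) k ⟨s, hs⟩
  rw [Ideal.mem_span_range_iff_exists_fun] at h1
  obtain ⟨c, hc⟩ := h1
  have h2 : ∑ t : Fin k, homogeneousComponent (k - (t + 1)) (c t) * psum (Fin k) K (t + 1) =
      X ⟨s, hs⟩ ^ k := by
    have h3 := congrArg (homogeneousComponent k) hc
    rw [map_sum, homogeneousComponent_eq_self (isHomogeneous_X_pow _ k)] at h3
    rw [← h3]
    apply Finset.sum_congr rfl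
    intro t _
    have h4 : (t : ℕ) + 1 ≤ k := t.2
    have h5 := hc_mul (psum_homog (K := K) k (t + 1)) (k - (t + 1)) (c t)
    rw [Nat.sub_add_cancel h4] at h5
    rw [mul_comm (c t), h5, mul_comm]
  let φ : MvPolynomial (Fin k) K →ₐ[K] MvPolynomial ℕ K := aeval (fun i : Fin k => X (i : ℕ) ^ r)
  refine ⟨fun t => φ (homogeneousComponent (k - (t + 1)) (c t)), ?_, ?_⟩
  · intro t
    constructor
    · have h6 : φ (homogeneousComponent (k - (t + 1)) (c t)) ∈ φ.range := ⟨_, rfl⟩
      have h7 : φ.range ≤ S K k := by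
        simp only [φ]
        rw [← Algebra.adjoin_range_eq_range_aeval, Algebra.adjoin_le_iff]
        rintro _ ⟨i, rfl⟩
        exact pow_mem (X_mem_S i.2) _
      exact h7 h6
    · exact (homogeneousComponent_isHomogeneous _ (c t)).aeval _ (fun i => isHomogeneous_X_pow _ r)
  · have h8 := congrArg φ h2
    rw [map_sum, map_pow, aeval_X, ← pow_mul] at h8
    rw [← h8]
    apply Finset.sum_congr rfl
    intro t _
    rw [map_mul]
    congr 1
    unfold psum
    rw [map_sum, Finset.sum_range]
    apply Finset.sum_congr rfl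
    intro i _
    rw [map_pow, aeval_X, ← pow_mul]

end Pool.Agent.H408.Iso
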