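import Pool.Agent.H408.Iso.EOps
import Pool.Agent.H408.Iso.Newton

set_option autoImplicit false

open MvPolynomial

namespace Pool.Agent.H408.Iso

universe u

variable {K : Type u} [Field K]

/-- the class of `u · σ(f)` -/
noncomputable def cl (I : Ideal (MvPolynomial ℕ K)) (Δ f : MvPolynomial ℕ K)
    (σ : Equiv.Perm ℕ) : MvPolynomial ℕ K →ₗ[K] CC I Δ f :=
  ((PhiQ I Δ f 1).codRestrict (CC I Δ f) (PhiQ_mem I Δ f 1)).comp
    (Finsupp.lsingle (R := K) σ)

theorem cl_coe (I : Ideal (MvPolynomial ℕ K)) (Δ f : MvPolynomial ℕ K)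
    (σ : Equiv.Perm ℕ) (u : MvPolynomial ℕ K) :
    ((cl I Δ f σ u : CC I Δ f) : MvPolynomial ℕ K ⧸ SI I Δ) =
      Submodule.Quotient.mk (u * rename σ f) := by
  change PhiQ I Δ f 1 (Finsupp.single σ u) = _
  rw [PhiQ_apply, Phi_single, one_mul]

theorem cl_eq (I : Ideal (MvPolynomial ℕ K)) (Δ f : MvPolynomial ℕ K)
    (σ : Equiv.Perm ℕ) (u : MvPolynomial ℕ K) :
    cl I Δ f σ u = ⟨PhiQ I Δ f 1 (Finsupp.single σ u), PhiQ_mem I Δ f 1 _⟩ := rfl

theorem eop_cl {I : Ideal (MvPolynomial ℕ K)} {Δ f c : MvPolynomial ℕ K}
    (hc : ∀ h, Phi f 1 h ∈ SI I Δ → Phi f c h ∈ SI I Δ) (σ : Equiv.Perm ℕ)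
    (u : MvPolynomial ℕ K) :
    ((eop hc (cl I Δ f σ u) : CC I Δ f) : MvPolynomial ℕ K ⧸ SI I Δ) =
      Submodule.Quotient.mk (u * rename σ (c * f)) := by
  rw [cl_eq, eop_apply]
  change PhiQ I Δ f c _ = _
  rw [PhiQ_apply, Phi_single]

section

variable {I : Ideal (MvPolynomial ℕ K)} {Δ f : MvPolynomial ℕ K} {m k r : ℕ}
  {c : ℕ → MvPolynomial ℕ K}

/-- the monic relation in terms of the operators -/
theorem cl_rel
    (hsym : ∀ σ : Equiv.Perm ℕ, ∀ f ∈ I, rename σ f ∈ I)
    (hrel : ∀ j, k ≤ j → (X j ^ r + ∑ i ∈ Finset.range r, c i * X j ^ i) * f ∈ I)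
    (hc : ∀ i, i < r → ∀ h, Phi f 1 h ∈ SI I Δ → Phi f (c i) h ∈ SI I Δ)
    (σ : Equiv.Perm ℕ) {j : ℕ} (hj : ∀ l, l < k → σ l ≠ j) (u : MvPolynomial ℕ K) :
    cl I Δ f σ (u * X j ^ r) =
      - ∑ i : Fin r, eop (hc i i.2) (cl I Δ f σ (u * X j ^ (i : ℕ))) := by
  apply Subtype.ext
  rw [cl_coe, Submodule.coe_neg, Submodule.coe_sum]
  have h1 : ∀ i : Fin r, ((eop (hc i i.2) (cl I Δ f σ (u * X j ^ (i : ℕ))) : CC I Δ f) :
      MvPolynomial ℕ K ⧸ SI I Δ) =
      (SI I Δ).mkQ (u * X j ^ (i : ℕ) * rename σ (c i * f)) := by
    intro i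
    rw [eop_cl]
    rfl
  simp only [h1]
  rw [← map_sum, ← map_neg, Submodule.mkQ_apply, Submodule.Quotient.eq]
  apply I_le_SI
  have h2 : k ≤ σ.symm j := by
    by_contra h
    push Not at h
    exact hj _ h (Equiv.apply_symm_apply _ _)
  have h3 := I.mul_mem_left u (hsym σ _ (hrel _ h2))
  convert h3 using 1
  simp only [map_mul, map_add, map_pow, rename_X, Equiv.apply_symm_apply, map_sum]
  rw [sub_neg_eq_add, add_mul, mul_add, Finset.sum_mul, Finset.mul_sum,
    Finset.sum_range (fun i => u * (rename σ (c i) * X j ^ i * rename σ f))]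
  congr 1
  · ring
  · apply Finset.sum_congr rfl
    intro i _
    ring

/-- the formula for `p_i` on classes -/
theorem popC_cl (hΔ : Δ ∈ S K m) (hf : f ∈ S K k) (i : ℕ) {A : Finset ℕ}
    (hA : ∀ l, l < m → l ∈ A) {σ : Equiv.Perm ℕ} (hσ : ∀ l, l < k → σ l ∈ A)
    {u : MvPolynomial ℕ K} (hu : u ∈ supported K (A : Set ℕ)) {b : ℕ} (hb : b ∉ A) :
    popC I hΔ f i (cl I Δ f σ u) =
      (∑ j ∈ A, cl I Δ f σ (X j ^ i * u)) - ((A.card : K) + 1) • cl I Δ f σ (X b ^ i * u) := by
  apply Subtype.ext
  rw [popC_coe, cl_coe]
  have h1 : u * rename σ f ∈ supported K (A : Set ℕ) :=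
    mul_mem hu (rename_mem hf hσ)
  rw [pop_mk_finset I hΔ i hA h1 hb, Submodule.coe_sub, Submodule.coe_sum, Submodule.coe_smul,
    cl_coe]
  simp only [cl_coe]
  simp only [mul_assoc]

theorem cl_move (hΔ : Δ ∈ S K m) {τ : Equiv.Perm ℕ} (h1 : ∀ l, l < m → τ l = l) {n : ℕ}
    (h2 : ∀ l, n ≤ l → τ l = l) (σ : Equiv.Perm ℕ) (u : MvPolynomial ℕ K) :
    cl I Δ f σ u = cl I Δ f (τ * σ) (rename τ u) := by
  apply Subtype.ext
  rw [cl_coe, cl_coe]
  symm
  rw [Submodule.Quotient.eq]
  apply Z_le_SI
  have := rename_sub_mem_Z hΔ τ h1 h2 (u * rename σ f)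
  rwa [map_mul, rename_rename] at this

theorem homog_ind {n : ℕ} {u : MvPolynomial ℕ K} (hu : u.IsHomogeneous n)
    (T : Submodule K (MvPolynomial ℕ K))
    (h : ∀ β : ℕ →₀ ℕ, β.degree = n → monomial β (1 : K) ∈ T) : u ∈ T := by
  rw [u.as_sum]
  apply Submodule.sum_mem
  intro β hβ
  have : monomial β (coeff β u) = coeff β u • (monomial β (1 : K) : MvPolynomial ℕ K) := by
    rw [MvPolynomial.smul_monomial, smul_eq_mul, mul_one]
  rw [this]
  apply Submodule.smul_mem
  apply h
  by_contra h1
  exact (mem_support_iff.1 hβ) (hu.coeff_eq_zero h1)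

theorem fg_main [CharZero K] (hΔ : Δ ∈ S K m) (hf : f ∈ S K k) (hr : 1 ≤ r)
    (hsym : ∀ σ : Equiv.Perm ℕ, ∀ f ∈ I, rename σ f ∈ I)
    (hrel : ∀ j, k ≤ j → (X j ^ r + ∑ i ∈ Finset.range r, c i * X j ^ i) * f ∈ I)
    (hc : ∀ i, i < r → ∀ h, Phi f 1 h ∈ SI I Δ → Phi f (c i) h ∈ SI I Δ)
    (T : Submodule K (CC I Δ f))
    (hT1 : ∀ i (hi : i < r), ∀ x ∈ T, eop (hc i hi) x ∈ T)
    (hT2 : ∀ i, 1 ≤ i → i ≤ r * (m + k + 1) → ∀ x ∈ T, popC I hΔ f i x ∈ T)
    (hT3 : ∀ (β : ℕ →₀ ℕ) (σ : Equiv.Perm ℕ), (∀ s, β s < r * (m + k + 1)) →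
      (∀ s, m + k + 1 ≤ s → β s = 0) → (∀ l, l < k → σ l < m + k + 1) →
      cl I Δ f σ (monomial β 1) ∈ T) :
    ∀ (n : ℕ) (u : MvPolynomial ℕ K), u.IsHomogeneous n → ∀ σ : Equiv.Perm ℕ,
      (∀ l, l < k → σ l < m + k + 1) → cl I Δ f σ u ∈ T := by
  classical
  intro n
  induction n using Nat.strong_induction_on with
  | _ n ih =>
  intro u hu σ hσ
  set k' := m + k + 1 with hk'
  -- the relation with all lower terms in `T`
  have hrelT : ∀ (v : MvPolynomial ℕ K) (a j : ℕ), v.IsHomogeneous a → a + r ≤ n →
      (∀ l, l < k → σ l ≠ j) → cl I Δ f σ (v * X j ^ r) ∈ T := by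
    intro v a j hv han hj
    rw [cl_rel hsym hrel hc σ hj]
    apply T.neg_mem
    apply T.sum_mem
    intro i _
    have hi := i.2
    refine hT1 _ i.2 _ ?_
    exact ih (a + i) (by omega) _ (hv.mul (isHomogeneous_X_pow j i)) σ hσ
  refine homog_ind hu (T.comap (cl I Δ f σ)) ?_
  -- number of outer variables
  have main : ∀ (l : ℕ) (β : ℕ →₀ ℕ), β.degree = n →
      (β.support.filter (fun s => k' ≤ s)).card = l → cl I Δ f σ (monomial β 1) ∈ T := by
    intro l
    induction l with
    | zero =>
      intro β hβ hl
      rw [Finset.card_eq_zero, Finset.filter_eq_empty_iff] at hl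
      have hout : ∀ s, k' ≤ s → β s = 0 := by
        intro s hs
        by_contra h
        exact hl (Finsupp.mem_support_iff.2 h) hs
      by_cases hsm : ∀ s, β s < r * k'
      · exact hT3 β σ hsm hout hσ
      · push Not at hsm
        obtain ⟨s, hs⟩ := hsm
        have hrk : 1 ≤ r * k' := Nat.mul_pos hr (by omega)
        have hsk : s < k' := by
          by_contra h
          have := hout s (by omega)
          omega
        obtain ⟨h, hh, hX⟩ := newton_mem (K := K) k' r s hsk
        -- split off the power
        let β' : ℕ →₀ ℕ := β - Finsupp.single s (r * k')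
        have hββ' : β = β' + Finsupp.single s (r * k') := by
          ext x
          simp only [β', Finsupp.add_apply, Finsupp.tsub_apply, Finsupp.single_apply]
          split_ifs with hx
          · subst hx; omega
          · omega
        have hdeg : β'.degree + r * k' = n := by
          rw [← hβ, hββ', map_add, Finsupp.degree_single]
        have hmon : (monomial β (1 : K)) = monomial β' (1 : K) * X s ^ (r * k') := by
          rw [X_pow_eq_monomial, monomial_mul, mul_one, ← hββ']
        rw [hmon, hX, Finset.mul_sum, map_sum]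
        apply T.sum_mem
        intro t _
        have ht : (t : ℕ) + 1 ≤ k' := t.2
        set w : MvPolynomial ℕ K := monomial β' (1 : K) * h t with hw
        have hrt : r * ((t : ℕ) + 1) + r * (k' - (t + 1)) = r * k' := by
          rw [← mul_add]
          congr 1
          omega
        have hr1 : r ≤ r * ((t : ℕ) + 1) := Nat.le_mul_of_pos_right r (by omega)
        have hwdeg : w.IsHomogeneous (β'.degree + r * (k' - (t + 1))) :=
          (isHomogeneous_monomial _ rfl).mul (hh t).2
        have hwS : w ∈ supported K ((Finset.range k' : Finset ℕ) : Set ℕ) := by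
          have e : ((Finset.range k' : Finset ℕ) : Set ℕ) = Set.Iio k' := by
            ext; simp
          rw [e]
          apply mul_mem _ (hh t).1
          rw [mem_supported]
          intro x hx
          rw [Finset.mem_coe, mem_vars_iff_mem_support] at hx
          obtain ⟨d, hd, hxd⟩ := hx
          have hd' := support_monomial_subset hd
          rw [Finset.mem_singleton] at hd'
          subst hd'
          rw [Finsupp.mem_support_iff] at hxd
          rw [Set.mem_Iio]
          by_contra h
          have h0 := hout x (by omega)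
          apply hxd
          have : β x = β' x + (Finsupp.single s (r * k')) x := by
            conv_lhs => rw [hββ']
            rfl
          omega
        have hp := popC_cl (I := I) hΔ hf (r * ((t : ℕ) + 1)) (A := Finset.range k')
          (fun l hl => Finset.mem_range.2 (by omega)) (σ := σ)
          (fun l hl => Finset.mem_range.2 (hσ l hl)) hwS (b := k') (by simp)
        have e1 : cl I Δ f σ (monomial β' (1 : K) *
            (h t * ∑ j ∈ Finset.range k', X j ^ (r * ((t : ℕ) + 1)))) =
            ∑ j ∈ Finset.range k', cl I Δ f σ (X j ^ (r * ((t : ℕ) + 1)) * w) := by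
          rw [← map_sum]
          congr 1
          rw [hw, ← Finset.sum_mul]
          ring
        rw [e1]
        have e2 : ∑ j ∈ Finset.range k', cl I Δ f σ (X j ^ (r * ((t : ℕ) + 1)) * w) =
            popC I hΔ f (r * ((t : ℕ) + 1)) (cl I Δ f σ w) +
            (((Finset.range k').card : K) + 1) • cl I Δ f σ (X k' ^ (r * ((t : ℕ) + 1)) * w) := by
          rw [hp, sub_add_cancel]
        rw [e2]
        apply T.add_mem
        · apply hT2 _ (by omega) (by rw [← hrt]; omega)
          exact ih _ (by omega) _ hwdeg σ hσ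
        · apply T.smul_mem
          have e3 : (X k' : MvPolynomial ℕ K) ^ (r * ((t : ℕ) + 1)) * w =
              (w * X k' ^ (r * ((t : ℕ) + 1) - r)) * X k' ^ r := by
            rw [mul_assoc, ← pow_add, Nat.sub_add_cancel hr1, mul_comm]
          rw [e3]
          refine hrelT _ (β'.degree + r * (k' - (t + 1)) + (r * ((t : ℕ) + 1) - r)) k'
            (hwdeg.mul (isHomogeneous_X_pow _ _)) (by omega) ?_
          intro l hl h0
          have := hσ l hl
          omega
    | succ l ihl =>
      intro β hβ hl
      obtain ⟨j, hj⟩ := Finset.card_pos.1 (by omega : 0 < (β.support.filter (fun s => k' ≤ s)).card)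
      rw [Finset.mem_filter, Finsupp.mem_support_iff] at hj
      by_cases hjr : r ≤ β j
      · let β' : ℕ →₀ ℕ := β - Finsupp.single j r
        have hββ' : β = β' + Finsupp.single j r := by
          ext x
          simp only [β', Finsupp.add_apply, Finsupp.tsub_apply, Finsupp.single_apply]
          split_ifs with hx
          · subst hx; omega
          · omega
        have hdeg : β'.degree + r = n := by
          rw [← hβ, hββ', map_add, Finsupp.degree_single]
        have hmon : (monomial β (1 : K)) = monomial β' (1 : K) * X j ^ r := by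
          rw [X_pow_eq_monomial, monomial_mul, mul_one, ← hββ']
        rw [hmon]
        refine hrelT _ β'.degree j (isHomogeneous_monomial _ rfl) (by omega) ?_
        intro l hl h0
        have := hσ l hl
        omega
      · push Not at hjr
        let β' : ℕ →₀ ℕ := β.erase j
        have hββ' : β = β' + Finsupp.single j (β j) := by
          simp only [β']
          rw [Finsupp.erase_add_single]
        have hβ'j : β' j = 0 := Finsupp.erase_same
        have hdeg : β'.degree + β j = n := by
          rw [← hβ]
          conv_rhs => rw [hββ', map_add, Finsupp.degree_single]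
        let A : Finset ℕ := Finset.range k' ∪ β'.support
        have hjA : j ∉ A := by
          simp only [A, Finset.mem_union, Finset.mem_range, Finsupp.mem_support_iff, not_or]
          exact ⟨by omega, by simp [hβ'j]⟩
        have huA : (monomial β' (1 : K)) ∈ supported K (A : Set ℕ) := by
          rw [mem_supported]
          intro x hx
          rw [Finset.mem_coe, mem_vars_iff_mem_support] at hx
          obtain ⟨d, hd, hxd⟩ := hx
          have hd' := support_monomial_subset hd
          rw [Finset.mem_singleton] at hd'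
          subst hd'
          exact Finset.mem_coe.2 (Finset.mem_union_right _ hxd)
        have hp := popC_cl (I := I) hΔ hf (β j) (A := A)
          (fun l hl => Finset.mem_union_left _ (Finset.mem_range.2 (by omega))) (σ := σ)
          (fun l hl => Finset.mem_union_left _ (Finset.mem_range.2 (hσ l hl))) huA (b := j) hjA
        have hmon : (monomial β (1 : K)) = X j ^ (β j) * monomial β' (1 : K) := by
          rw [X_pow_eq_monomial, monomial_mul, mul_one, add_comm, ← hββ']
        have hne : ((A.card : K) + 1) ≠ 0 := by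
          exact_mod_cast Nat.succ_ne_zero A.card
        have e1 : cl I Δ f σ (monomial β 1) = ((A.card : K) + 1)⁻¹ •
            ((∑ a ∈ A, cl I Δ f σ (X a ^ (β j) * monomial β' 1)) -
              popC I hΔ f (β j) (cl I Δ f σ (monomial β' 1))) := by
          rw [hp, sub_sub_cancel, ← hmon, smul_smul, inv_mul_cancel₀ hne, one_smul]
        rw [e1]
        apply T.smul_mem
        apply T.sub_mem
        · apply T.sum_mem
          intro a ha
          have e2 : X a ^ (β j) * monomial β' (1 : K) =
              monomial (Finsupp.single a (β j) + β') 1 := by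
            rw [X_pow_eq_monomial, monomial_mul, mul_one]
          rw [e2]
          apply ihl
          · rw [map_add, Finsupp.degree_single]
            omega
          · have e3 : (Finsupp.single a (β j) + β').support.filter (fun s => k' ≤ s) =
                (β.support.filter (fun s => k' ≤ s)).erase j := by
              ext x
              simp only [Finset.mem_filter, Finsupp.mem_support_iff, Finsupp.add_apply,
                Finsupp.single_apply, Finset.mem_erase, β']
              by_cases hxj : x = j
              · subst hxj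
                have hax : a ≠ x := by
                  rintro rfl; exact hjA ha
                simp [hax]
              · rw [Finsupp.erase_ne hxj]
                by_cases hxa : a = x
                · subst hxa
                  rw [if_pos rfl]
                  rw [Finset.mem_union, Finset.mem_range, Finsupp.mem_support_iff] at ha
                  constructor
                  · rintro ⟨_, h2⟩
                    refine ⟨hxj, ?_, h2⟩
                    rcases ha with ha | ha
                    · omega
                    · simpa [β', Finsupp.erase_ne hxj] using ha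
                  · rintro ⟨_, h1, h2⟩
                    exact ⟨by omega, h2⟩
                · rw [if_neg hxa, zero_add]
                  tauto
            rw [e3, Finset.card_erase_of_mem, hl]
            · rfl
            · rw [Finset.mem_filter, Finsupp.mem_support_iff]
              exact hj
        · apply hT2 (β j) (by omega)
          · have : r ≤ r * k' := Nat.le_mul_of_pos_right r (by omega)
            omega
          · exact ih β'.degree (by omega) _ (isHomogeneous_monomial _ rfl) σ hσ
  intro β hβ
  exact main _ β hβ rfl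

end

end Pool.Agent.H408.Iso
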