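import Pool.Agent.H408.Iso.Link

set_option autoImplicit false

open MvPolynomial

namespace Pool.Agent.H408.Iso

universe u

variable {K : Type u} [Field K]

open Representation in
theorem finrank_intertwining [CharZero K] (n : ℕ)
    {V : Type u} [AddCommGroup V] [Module K V] [Module.Finite K V]
    {W : Type u} [AddCommGroup W] [Module K W] [Module.Finite K W]
    (ρ : Representation K (Equiv.Perm (Fin n)) V) (τ : Representation K (Equiv.Perm (Fin n)) W)
    (Δ : V) (hΔ : Submodule.span K (Set.range fun σ => ρ σ Δ) = ⊤)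
    (Z : Submodule K W)
    (hZ : Z = Submodule.span K {z | ∃ a : Equiv.Perm (Fin n) → K, (∑ σ, a σ • ρ σ Δ) = 0 ∧
      ∃ x : W, z = ∑ σ, a σ • τ σ⁻¹ x}) :
    Module.finrank K (IntertwiningMap ρ τ) = Module.finrank K (W ⧸ Z) := by
  let H : Submodule K (V →ₗ[K] W) :=
    { carrier := {φ | ∀ σ v, φ (ρ σ v) = τ σ (φ v)}
      add_mem' := by
        intro φ ψ hφ hψ σ v
        rw [LinearMap.add_apply, LinearMap.add_apply, hφ, hψ, map_add]
      zero_mem' := by
        intro σ v
        simp
      smul_mem' := by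
        intro c φ hφ σ v
        rw [LinearMap.smul_apply, LinearMap.smul_apply, hφ, map_smul] }
  have hH : ∀ φ, φ ∈ H ↔ ∀ σ v, φ (ρ σ v) = τ σ (φ v) := fun φ => Iff.rfl
  rw [← finrank_hom_eq K n V W ρ τ Δ hΔ H hH Z hZ]
  symm
  refine LinearEquiv.finrank_eq
    { toFun := fun φ => φ.1.intertwiningMap_of_isIntertwiningMap ρ τ ((hH φ.1).1 φ.2)
      map_add' := fun _ _ => rfl
      map_smul' := fun _ _ => rfl
      invFun := fun f => ⟨f.toLinearMap, (hH _).2 fun σ v => f.isIntertwining ρ τ σ v⟩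
      left_inv := fun _ => rfl
      right_inv := fun _ => rfl }

/-- the cells in the columns of length at least two -/
def core (μ : YoungDiagram) : Finset (ℕ × ℕ) := μ.cells.filter (fun c => c.2 < μ.rowLen 1)

open Classical in
/-- a labelling of the core -/
noncomputable def lab (μ : YoungDiagram) (c : ℕ × ℕ) : ℕ :=
  if h : c ∈ core μ then ((core μ).equivFin ⟨c, h⟩ : ℕ) else 0

theorem lab_lt (μ : YoungDiagram) {c : ℕ × ℕ} (h : c ∈ core μ) : lab μ c < (core μ).card := by
  unfold lab
  rw [dif_pos h]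
  exact ((core μ).equivFin ⟨c, h⟩).2

theorem lab_inj (μ : YoungDiagram) {c c' : ℕ × ℕ} (h : c ∈ core μ) (h' : c' ∈ core μ)
    (he : lab μ c = lab μ c') : c = c' := by
  unfold lab at he
  rw [dif_pos h, dif_pos h'] at he
  have := (core μ).equivFin.injective (Fin.ext he)
  exact congrArg Subtype.val this

/-- one factor of the stable Specht polynomial -/
noncomputable def fct (K : Type u) [Field K] (μ : YoungDiagram) (a b : ℕ × ℕ) : MvPolynomial ℕ K :=
  if a.2 = b.2 ∧ a.1 < b.1 then X (lab μ a) - X (lab μ b) else 1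

/-- the stable Specht polynomial -/
noncomputable def DD (K : Type u) [Field K] (μ : YoungDiagram) : MvPolynomial ℕ K :=
  ∏ a ∈ core μ, ∏ b ∈ core μ, fct K μ a b

theorem DD_mem (μ : YoungDiagram) : DD K μ ∈ S K (core μ).card := by
  unfold DD
  apply prod_mem
  intro a ha
  apply prod_mem
  intro b hb
  unfold fct
  split_ifs
  · exact sub_mem (X_mem_S (lab_lt μ ha)) (X_mem_S (lab_lt μ hb))
  · exact one_mem _

theorem mem_pad {μ : YoungDiagram} {n : ℕ} {c : ℕ × ℕ} : c ∈ (pad μ n).cells ↔
    c ∈ μ.cells ∨ (c.1 = 0 ∧ c.2 < n - μ.card + μ.rowLen 0) := by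
  unfold pad padCells
  simp only [Finset.mem_union, Finset.mem_image, Finset.mem_range]
  constructor
  · rintro (h | ⟨j, hj, rfl⟩)
    · exact Or.inl h
    · exact Or.inr ⟨rfl, hj⟩
  · rintro (h | ⟨h1, h2⟩)
    · exact Or.inl h
    · exact Or.inr ⟨c.2, h2, by rw [← h1]⟩

theorem core_subset_pad (μ : YoungDiagram) (n : ℕ) : core μ ⊆ (pad μ n).cells := by
  intro c hc
  rw [mem_pad]
  exact Or.inl (Finset.mem_filter.1 hc).1

/-- two different cells of a column of the padded diagram are in the core -/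
theorem mem_core {μ : YoungDiagram} {n : ℕ} {a b : ℕ × ℕ} (_ : a ∈ (pad μ n).cells)
    (hb : b ∈ (pad μ n).cells) (h : a.2 = b.2 ∧ a.1 < b.1) : a ∈ core μ ∧ b ∈ core μ := by
  have hb' : b ∈ μ.cells := by
    rcases mem_pad.1 hb with h1 | h1
    · exact h1
    · omega
  have hcol : b.2 < μ.rowLen 1 := by
    rw [← YoungDiagram.mem_iff_lt_rowLen]
    have h1 : ((1, b.2) : ℕ × ℕ) ≤ b := by
      rw [← Prod.mk.eta (p := b), Prod.mk_le_mk]
      exact ⟨by omega, le_rfl⟩
    exact μ.isLowerSet h1 hb'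
  have ha' : a ∈ μ.cells := by
    have h1 : a ≤ b := by
      rw [← Prod.mk.eta (p := b), ← Prod.mk.eta (p := a), Prod.mk_le_mk]
      exact ⟨h.2.le, h.1.le⟩
    exact μ.isLowerSet h1 hb'
  refine ⟨Finset.mem_filter.2 ⟨ha', ?_⟩, Finset.mem_filter.2 ⟨hb', hcol⟩⟩
  rw [h.1]; exact hcol

theorem rename_spechtPoly_eq_DD (μ : YoungDiagram) (n : ℕ) (T : (pad μ n).cells → Fin n)
    (hT : ∀ c : (pad μ n).cells, (c : ℕ × ℕ) ∈ core μ → (T c : ℕ) = lab μ c) :
    rename (Fin.val : Fin n → ℕ) (spechtPoly K (pad μ n) n T) = DD K μ := by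
  classical
  unfold spechtPoly
  rw [map_prod]
  have h1 : ∀ a b : (pad μ n).cells, rename (Fin.val : Fin n → ℕ)
      (if (a : ℕ × ℕ).2 = (b : ℕ × ℕ).2 ∧ (a : ℕ × ℕ).1 < (b : ℕ × ℕ).1 then
        (X (T a) - X (T b) : MvPolynomial (Fin n) K) else 1) = fct K μ a b := by
    intro a b
    unfold fct
    split_ifs with h
    · obtain ⟨ha, hb⟩ := mem_core a.2 b.2 h
      rw [map_sub, rename_X, rename_X, hT a ha, hT b hb]
    · rw [map_one]
  simp only [map_prod, h1]
  have h2 : ∏ a : (pad μ n).cells, ∏ b : (pad μ n).cells, fct K μ a b =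
      ∏ a ∈ (pad μ n).cells, ∏ b ∈ (pad μ n).cells, fct K μ a b := by
    rw [← Finset.prod_coe_sort (pad μ n).cells (fun a => ∏ b ∈ (pad μ n).cells, fct K μ a b)]
    apply Finset.prod_congr rfl
    intro a _
    rw [← Finset.prod_coe_sort (pad μ n).cells (fun b => fct K μ a b)]
  rw [h2]
  unfold DD
  symm
  apply Finset.prod_subset_one_on_sdiff (core_subset_pad μ n)
  · intro a ha
    apply Finset.prod_eq_one
    intro b hb
    rw [Finset.mem_sdiff] at ha
    unfold fct
    rw [if_neg]
    intro h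
    exact ha.2 (mem_core ha.1 hb h).1
  · intro a ha
    apply Finset.prod_subset_one_on_sdiff (core_subset_pad μ n)
    · intro b hb
      rw [Finset.mem_sdiff] at hb
      unfold fct
      rw [if_neg]
      intro h
      exact hb.2 (mem_core (core_subset_pad μ n ha) hb.1 h).2
    · intro b _
      rfl

theorem card_pad {μ : YoungDiagram} {n : ℕ} (hn : μ.card ≤ n) : (pad μ n).cells.card = n := by
  classical
  have h1 : (pad μ n).cells = μ.cells ∪
      (Finset.Ico (μ.rowLen 0) (n - μ.card + μ.rowLen 0)).image (fun j => ((0, j) : ℕ × ℕ)) := by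
    ext c
    rw [mem_pad, Finset.mem_union, Finset.mem_image]
    constructor
    · rintro (h | ⟨h1, h2⟩)
      · exact Or.inl h
      · by_cases h3 : c.2 < μ.rowLen 0
        · left
          have := YoungDiagram.mem_iff_lt_rowLen.2 h3
          rw [← h1] at this
          exact this
        · right
          refine ⟨c.2, Finset.mem_Ico.2 ⟨by omega, h2⟩, ?_⟩
          rw [← h1]
    · rintro (h | ⟨j, hj, rfl⟩)
      · exact Or.inl h
      · exact Or.inr ⟨rfl, (Finset.mem_Ico.1 hj).2⟩
  rw [h1, Finset.card_union_of_disjoint, Finset.card_image_of_injective, Nat.card_Ico]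
  · have : μ.cells.card = μ.card := rfl
    omega
  · intro i j h
    exact (Prod.mk.inj h).2
  · rw [Finset.disjoint_left]
    intro c hc hc'
    rw [Finset.mem_image] at hc'
    obtain ⟨j, hj, rfl⟩ := hc'
    have := YoungDiagram.mem_iff_lt_rowLen.1 (show ((0, j) : ℕ × ℕ) ∈ μ from hc)
    have := (Finset.mem_Ico.1 hj).1
    omega

theorem exists_T {μ : YoungDiagram} {n : ℕ} (hn : μ.card ≤ n) :
    ∃ T : (pad μ n).cells ≃ Fin n,
      ∀ c : (pad μ n).cells, (c : ℕ × ℕ) ∈ core μ → (T c : ℕ) = lab μ c := by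
  classical
  have hcore : (core μ).card ≤ n := (Finset.card_filter_le _ _).trans hn
  obtain ⟨g, hg⟩ := Finset.exists_equiv_extend_of_card_eq (α := (pad μ n).cells) (β := ℕ)
    (t := Finset.range n) (by rw [Fintype.card_coe, card_pad hn, Finset.card_range])
    (s := Finset.univ.filter (fun c : (pad μ n).cells => (c : ℕ × ℕ) ∈ core μ))
    (f := fun c => lab μ c) (by
      intro x hx
      rw [Finset.mem_image] at hx
      obtain ⟨c, hc, rfl⟩ := hx
      have := lab_lt μ (Finset.mem_filter.1 hc).2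
      exact Finset.mem_range.2 (by omega))
    (by
      intro a ha b hb h
      apply Subtype.ext
      exact lab_inj μ (Finset.mem_filter.1 ha).2 (Finset.mem_filter.1 hb).2 h)
  let e : (Finset.range n) ≃ Fin n :=
    ⟨fun x => ⟨x, Finset.mem_range.1 x.2⟩, fun i => ⟨i, Finset.mem_range.2 i.2⟩,
      fun _ => rfl, fun _ => rfl⟩
  refine ⟨g.trans e, ?_⟩
  intro c hc
  exact hg c (Finset.mem_filter.2 ⟨Finset.mem_univ _, hc⟩)

instance (lam : YoungDiagram) (n : ℕ) : Module.Finite K (specht K lam n) :=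
  Module.Finite.iff_fg.2 (Submodule.fg_span (Set.finite_range _))

instance (I : Ideal (MvPolynomial ℕ K)) (n d : ℕ) : Module.Finite K (piece I n d) :=
  Module.Finite.iff_fg.2 ((homogeneousSubmodule_fg (σ := Fin n) (R := K) d).map _)

/-- the Specht module is generated by any of the Specht polynomials -/
theorem specht_span (lam : YoungDiagram) (n : ℕ) (T : lam.cells ≃ Fin n) :
    Submodule.span K (Set.range fun σ => spechtRep K lam n σ
      ⟨spechtPoly K lam n T, Submodule.subset_span ⟨T, rfl⟩⟩) = ⊤ := by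
  apply Submodule.map_injective_of_injective (Submodule.injective_subtype (specht K lam n))
  rw [Submodule.map_span, Submodule.map_top, Submodule.range_subtype]
  unfold specht
  congr 1
  ext u
  constructor
  · rintro ⟨_, ⟨σ, rfl⟩, rfl⟩
    refine ⟨T.trans σ, ?_⟩
    change _ = rename σ (spechtPoly K lam n T)
    rw [rename_spechtPoly]
    rfl
  · rintro ⟨T', rfl⟩
    refine ⟨_, ⟨T.symm.trans T', rfl⟩, ?_⟩
    change rename (T.symm.trans T') (spechtPoly K lam n T) = _
    rw [rename_spechtPoly]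
    congr 1
    funext c
    simp

/-- the map from `K[X_n]/I_n` to `P/(I+Z)` -/
noncomputable def toQ (I : Ideal (MvPolynomial ℕ K)) (Δ : MvPolynomial ℕ K) (n : ℕ) :
    (MvPolynomial (Fin n) K ⧸ trunc I n) →ₗ[K] (MvPolynomial ℕ K ⧸ SI I Δ) :=
  (Submodule.mapQ ((trunc I n).restrictScalars K) (SI I Δ)
    (rename (Fin.val : Fin n → ℕ)).toLinearMap (fun _ hu => I_le_SI I Δ hu)).comp
    (Submodule.Quotient.restrictScalarsEquiv K (trunc I n)).symm.toLinearMap

theorem toQ_mk (I : Ideal (MvPolynomial ℕ K)) (Δ : MvPolynomial ℕ K) (n : ℕ)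
    (u : MvPolynomial (Fin n) K) :
    toQ I Δ n (Ideal.Quotient.mk _ u) = Submodule.Quotient.mk (rename (Fin.val : Fin n → ℕ) u) :=
  rfl

theorem rename_val_inj {n : ℕ} {u v : MvPolynomial (Fin n) K}
    (h : rename (Fin.val : Fin n → ℕ) u = rename (Fin.val : Fin n → ℕ) v) : u = v :=
  rename_injective _ Fin.val_injective h

theorem rename_ext_val {n : ℕ} (σ : Equiv.Perm (Fin n)) (u : MvPolynomial (Fin n) K) :
    rename (ext n σ) (rename (Fin.val : Fin n → ℕ) u) = rename (Fin.val : Fin n → ℕ) (rename σ u) := by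
  rw [rename_rename, rename_rename]
  congr 2
  funext i
  exact ext_coe n σ i

/-- the multiplicities stabilise, with value the Hilbert function of `P/(I+Z)` -/
theorem mult_eq [CharZero K] {I : Ideal (MvPolynomial ℕ K)} (hI : IsSymm I)
    (hhom : ∀ f ∈ I, ∀ d, homogeneousComponent d f ∈ I)
    (μ : YoungDiagram) (d : ℕ) : ∃ N, ∀ n, N ≤ n →
      mult hI μ n d = Module.finrank K (LinearMap.range (hcQ hhom (DD K μ) d)) := by
  classical
  obtain ⟨N, hN1, hN2⟩ := exists_level hhom (DD_mem (K := K) μ) d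
  refine ⟨max N μ.card, ?_⟩
  intro n hn
  have hnN : N ≤ n := (le_max_left _ _).trans hn
  have hnμ : μ.card ≤ n := (le_max_right _ _).trans hn
  obtain ⟨T, hT⟩ := exists_T hnμ
  have hDD := rename_spechtPoly_eq_DD (K := K) μ n T hT
  let Δn : specht K (pad μ n) n :=
    ⟨spechtPoly K (pad μ n) n T, Submodule.subset_span ⟨T, rfl⟩⟩
  have hspan : Submodule.span K (Set.range fun σ => spechtRep K (pad μ n) n σ Δn) = ⊤ :=
    specht_span (pad μ n) n T
  let Θ : piece I n d →ₗ[K] (MvPolynomial ℕ K ⧸ SI I (DD K μ)) :=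
    (toQ I (DD K μ) n).domRestrict (piece I n d)
  -- the annihilator at level `n`
  have hann : ∀ a : Equiv.Perm (Fin n) → K,
      (∑ σ, a σ • spechtRep K (pad μ n) n σ Δn) = 0 ↔ ap a (DD K μ) = 0 := by
    intro a
    have h1 : ap a (DD K μ) = rename (Fin.val : Fin n → ℕ)
        ((∑ σ, a σ • spechtRep K (pad μ n) n σ Δn : specht K (pad μ n) n) :
          MvPolynomial (Fin n) K) := by
      rw [Submodule.coe_sum, map_sum]
      unfold ap
      apply Finset.sum_congr rfl
      intro σ _
      rw [Submodule.coe_smul, map_smul, ← hDD, rename_ext_val]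
      rfl
    constructor
    · intro h
      rw [h1, h]
      simp
    · intro h
      rw [h1] at h
      apply Subtype.ext
      apply rename_val_inj
      rw [h]
      simp
  have hker : LinearMap.ker Θ = Submodule.span K {z | ∃ a : Equiv.Perm (Fin n) → K,
      (∑ σ, a σ • spechtRep K (pad μ n) n σ Δn) = 0 ∧
      ∃ x : piece I n d, z = ∑ σ, a σ • pieceRep hI n d σ⁻¹ x} := by
    apply le_antisymm
    · rintro ⟨x, hx⟩ hx0
      obtain ⟨u, hu, rfl⟩ := hx
      have h1 : rename (Fin.val : Fin n → ℕ) u ∈ SI I (DD K μ) := by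
        rw [LinearMap.mem_ker] at hx0
        have h2 : toQ I (DD K μ) n (Ideal.Quotient.mk _ u) = 0 := hx0
        rwa [toQ_mk, Submodule.Quotient.mk_eq_zero] at h2
      have h2 : rename (Fin.val : Fin n → ℕ) u ∈ BB K n d := by
        rw [BB_eq]
        exact ⟨u, hu, rfl⟩
      obtain ⟨g, hg, z, hz, hgz⟩ := Submodule.mem_sup.1 (hN2 n hnN _ h2 h1)
      -- `g` comes from `I_n`
      obtain ⟨g', hg', rfl⟩ : ∃ g', g' ∈ trunc I n ∧ rename (Fin.val : Fin n → ℕ) g' = g := by
        have h3 := hg.2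
        rw [BB_eq] at h3
        obtain ⟨g', _, rfl⟩ := h3
        exact ⟨g', hg.1, rfl⟩
      -- `z` comes from a relation
      have h4 : ∀ z ∈ ZB (DD K μ) n d, ∃ z' : MvPolynomial (Fin n) K,
          ∃ hz' : z' ∈ homogeneousSubmodule (Fin n) K d, rename (Fin.val : Fin n → ℕ) z' = z ∧
          (⟨Ideal.Quotient.mk _ z', z', hz', rfl⟩ : piece I n d) ∈
            Submodule.span K {z | ∃ a : Equiv.Perm (Fin n) → K,
              (∑ σ, a σ • spechtRep K (pad μ n) n σ Δn) = 0 ∧
              ∃ x : piece I n d, z = ∑ σ, a σ • pieceRep hI n d σ⁻¹ x} := by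
        intro z hz
        induction hz using Submodule.span_induction with
        | mem z hz =>
          obtain ⟨a, ha, w, hw, rfl⟩ := hz
          rw [BB_eq] at hw
          obtain ⟨w', hw', rfl⟩ := hw
          have h5 : ∑ σ, a σ • rename (σ⁻¹ : Equiv.Perm (Fin n)) w' ∈
              homogeneousSubmodule (Fin n) K d := by
            apply Submodule.sum_mem
            intro σ _
            exact Submodule.smul_mem _ _ (IsHomogeneous.rename_isHomogeneous hw')
          refine ⟨∑ σ, a σ • rename (σ⁻¹ : Equiv.Perm (Fin n)) w', h5, ?_, ?_⟩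
          · rw [st_apply, map_sum]
            apply Finset.sum_congr rfl
            intro σ _
            rw [map_smul]
            exact congrArg _ (rename_ext_val σ⁻¹ w').symm
          · apply Submodule.subset_span
            refine ⟨a, (hann a).2 ha, ⟨Ideal.Quotient.mk _ w', w', hw', rfl⟩, ?_⟩
            apply Subtype.ext
            rw [Submodule.coe_sum]
            change (Ideal.Quotient.mkₐ K (trunc I n)) _ = _
            rw [map_sum]
            apply Finset.sum_congr rfl
            intro σ _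
            rw [map_smul, Submodule.coe_smul]
            rfl
        | zero =>
          have h0 : (⟨Ideal.Quotient.mk _ 0, 0, Submodule.zero_mem _, rfl⟩ : piece I n d) = 0 :=
            Subtype.ext (map_zero _)
          refine ⟨0, Submodule.zero_mem _, by simp, ?_⟩
          rw [h0]
          exact Submodule.zero_mem _
        | add x y _ _ hx hy =>
          obtain ⟨x', hx', rfl, hx''⟩ := hx
          obtain ⟨y', hy', rfl, hy''⟩ := hy
          refine ⟨x' + y', Submodule.add_mem _ hx' hy', map_add _ _ _, ?_⟩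
          exact Submodule.add_mem _ hx'' hy''
        | smul c x _ hx =>
          obtain ⟨x', hx', rfl, hx''⟩ := hx
          refine ⟨c • x', Submodule.smul_mem _ _ hx', map_smul _ _ _, ?_⟩
          exact Submodule.smul_mem _ c hx''
      obtain ⟨z', hz', rfl, hz''⟩ := h4 z hz
      have h6 : u = g' + z' := by
        apply rename_val_inj
        rw [map_add, hgz]
      convert hz'' using 1
      apply Subtype.ext
      change Ideal.Quotient.mk _ u = Ideal.Quotient.mk _ z'
      rw [Ideal.Quotient.eq, h6, add_sub_cancel_right]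
      exact hg'
    · rw [Submodule.span_le]
      rintro _ ⟨a, ha, ⟨x, u, hu, rfl⟩, rfl⟩
      rw [SetLike.mem_coe, LinearMap.mem_ker]
      have h1 : Θ (∑ σ, a σ • pieceRep hI n d σ⁻¹ ⟨_, u, hu, rfl⟩) =
          Submodule.Quotient.mk (st a (rename (Fin.val : Fin n → ℕ) u)) := by
        rw [map_sum, st_apply, ← Submodule.mkQ_apply, map_sum]
        apply Finset.sum_congr rfl
        intro σ _
        rw [map_smul, map_smul, rename_ext_val]
        rfl
      rw [h1, Submodule.Quotient.mk_eq_zero]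
      exact Z_le_SI I _ (Zn_le_Z _ n (st_mem_Zn ((hann a).1 ha) _))
  have hrange : LinearMap.range Θ = LinearMap.range (hcQ hhom (DD K μ) d) := by
    ext y
    constructor
    · rintro ⟨⟨x, u, hu, rfl⟩, rfl⟩
      refine ⟨Submodule.Quotient.mk (rename (Fin.val : Fin n → ℕ) u), ?_⟩
      rw [hcQ_mk, homogeneousComponent_eq_self (IsHomogeneous.rename_isHomogeneous hu)]
      rfl
    · rintro ⟨x, rfl⟩
      obtain ⟨u, rfl⟩ := Submodule.Quotient.mk_surjective _ x
      rw [hcQ_mk]
      -- reduce to few variables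
      obtain ⟨k, hk⟩ := exists_S u
      have h1 : homogeneousComponent d u ∈ BB K (max k n) d :=
        ⟨hc_mem_S (S_mono (le_max_left k n) hk) d, homogeneousComponent_isHomogeneous _ _⟩
      obtain ⟨u', hu', hz⟩ := exists_reduce (DD_mem (K := K) μ)
        ((hN1.trans hnN).trans (le_max_right k n)) h1
      have hu'' : u' ∈ BB K n d := BB_mono (hN1.trans hnN) d hu'
      rw [BB_eq] at hu''
      obtain ⟨v, hv, rfl⟩ := hu''
      refine ⟨⟨Ideal.Quotient.mk _ v, v, hv, rfl⟩, ?_⟩
      change Submodule.Quotient.mk (rename (Fin.val : Fin n → ℕ) v) = _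
      symm
      rw [Submodule.Quotient.eq]
      exact Z_le_SI I _ (Zn_le_Z _ _ (ZB_le_Zn _ _ _ hz))
  unfold mult
  rw [finrank_intertwining n (spechtRep K (pad μ n) n) (pieceRep hI n d) Δn hspan
    (LinearMap.ker Θ) hker, ← hrange]
  exact Θ.quotKerEquivRange.finrank_eq

/-- **Rationality of the isotypic Hilbert series of symmetric ideals.** -/
theorem main [CharZero K] {I : Ideal (MvPolynomial ℕ K)} (hI : IsSymm I)
    (hhom : ∀ f ∈ I, ∀ d, homogeneousComponent d f ∈ I)
    (hne : I ≠ ⊥) (μ : YoungDiagram) :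
    ∃ c : ℕ → ℕ, (∀ d, ∀ᶠ n in Filter.atTop, mult hI μ n d = c d) ∧
      ∃ (A : Multiset ℕ) (p : Polynomial ℤ), (∀ a ∈ A, 0 < a) ∧
        (den A : PowerSeries ℤ) * PowerSeries.mk (fun d => (c d : ℤ)) = (p : PowerSeries ℤ) := by
  refine ⟨fun d => Module.finrank K (LinearMap.range (hcQ hhom (DD K μ) d)), ?_, ?_⟩
  · intro d
    obtain ⟨N, hN⟩ := mult_eq hI hhom μ d
    exact Filter.eventually_atTop.2 ⟨N, hN⟩
  · exact (rat_all hI hhom hne (DD_mem (K := K) μ)).2

end Pool.Agent.H408.Iso
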