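import Mathlib

set_option autoImplicit false
set_option linter.style.haveILetI false

namespace Pool.Agent.H408.Iso

universe u

/-- Noetherian property of the lattice of `T`-stable subspaces. -/
def NoethT (K : Type u) [Field K] {s : ℕ} {C : Type u} [AddCommGroup C] [Module K C]
    (T : Fin s → Module.End K C) : Prop :=
  ∀ S : Submodule K C, (∀ i, ∀ x ∈ S, T i x ∈ S) →
    ∃ G : Finset C, (↑G ⊆ (S : Set C)) ∧ ∀ S' : Submodule K C, (↑G ⊆ (S' : Set C)) →
      (∀ i, ∀ x ∈ S', T i x ∈ S') → S ≤ S'

theorem noethT_of_fg (K : Type u) [Field K] (s : ℕ) (C : Type u) [AddCommGroup C] [Module K C]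
    (T : Fin s → Module.End K C) (hT : ∀ i j, T i * T j = T j * T i)
    (hfg : ∃ G : Finset C, ∀ S : Submodule K C, (↑G ⊆ (S : Set C)) →
      (∀ i, ∀ x ∈ S, T i x ∈ S) → S = ⊤) : NoethT K T := by
  classical
  have hcomm : ∀ a ∈ Set.range T, ∀ b ∈ Set.range T, a * b = b * a := by
    rintro _ ⟨i, rfl⟩ _ ⟨j, rfl⟩
    exact hT i j
  haveI : IsMulCommutative (Algebra.adjoin K (Set.range T)) :=
    Algebra.isMulCommutative_adjoin K hcomm
  letI : CommRing (Algebra.adjoin K (Set.range T)) :=
    { (inferInstance : Ring (Algebra.adjoin K (Set.range T))) with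
      mul_comm := fun a b => IsMulCommutative.is_comm.comm a b }
  haveI : Algebra.FiniteType K (Algebra.adjoin K (Set.range T)) := by
    rw [← Subalgebra.fg_iff_finiteType]
    exact ⟨(Set.finite_range T).toFinset, by simp⟩
  haveI hn : IsNoetherianRing (Algebra.adjoin K (Set.range T)) :=
    Algebra.FiniteType.isNoetherianRing K _
  -- a stable subspace is an A-submodule
  have key : ∀ S : Submodule K C, (∀ i, ∀ x ∈ S, T i x ∈ S) →
      ∀ a ∈ Algebra.adjoin K (Set.range T), ∀ x ∈ S, a x ∈ S := by
    intro S hS a ha
    induction ha using Algebra.adjoin_induction with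
    | mem x hx =>
      obtain ⟨i, rfl⟩ := hx
      exact hS i
    | algebraMap r =>
      intro x hx
      rw [Module.algebraMap_end_apply]
      exact S.smul_mem r hx
    | add x y _ _ hx hy =>
      intro z hz
      rw [LinearMap.add_apply]
      exact S.add_mem (hx z hz) (hy z hz)
    | mul x y _ _ hx hy =>
      intro z hz
      rw [Module.End.mul_apply]
      exact hx _ (hy z hz)
  let toA : ∀ S : Submodule K C, (∀ i, ∀ x ∈ S, T i x ∈ S) →
      Submodule (Algebra.adjoin K (Set.range T)) C := fun S hS =>
    { carrier := S
      add_mem' := fun ha hb => S.add_mem ha hb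
      zero_mem' := S.zero_mem
      smul_mem' := fun a x hx => key S hS a.1 a.2 x hx }
  obtain ⟨G, hG⟩ := hfg
  haveI : Module.Finite (Algebra.adjoin K (Set.range T)) C := by
    refine ⟨⟨G, ?_⟩⟩
    rw [eq_top_iff]
    let P : Submodule (Algebra.adjoin K (Set.range T)) C :=
      Submodule.span (Algebra.adjoin K (Set.range T)) (G : Set C)
    have hP : P.restrictScalars K = ⊤ := by
      apply hG
      · exact Submodule.subset_span
      · intro i x hx
        exact P.smul_mem ⟨T i, Algebra.subset_adjoin ⟨i, rfl⟩⟩ hx
    intro x _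
    have : x ∈ P.restrictScalars K := by rw [hP]; trivial
    exact this
  haveI : IsNoetherian (Algebra.adjoin K (Set.range T)) C := isNoetherian_of_isNoetherianRing_of_finite _ _
  intro S hS
  obtain ⟨G', hG'⟩ := (isNoetherian_def.mp inferInstance (toA S hS) : (toA S hS).FG)
  refine ⟨G', ?_, ?_⟩
  · intro x hx
    have : x ∈ toA S hS := by
      rw [← hG']; exact Submodule.subset_span hx
    exact this
  · intro S' hGS' hS' x hx
    have h1 : toA S hS ≤ toA S' hS' := by
      rw [← hG', Submodule.span_le]
      exact hGS'
    exact h1 (show x ∈ toA S hS from hx)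

theorem finrank_map_add {K : Type u} [Field K] {C D : Type u} [AddCommGroup C] [Module K C]
    [AddCommGroup D] [Module K D] (P : Submodule K C) [Module.Finite K P] (f : C →ₗ[K] D) :
    Module.finrank K (P.map f) + Module.finrank K (P ⊓ LinearMap.ker f : Submodule K C) =
      Module.finrank K P := by
  have h := LinearMap.finrank_range_add_finrank_ker (f.domRestrict P)
  rw [LinearMap.range_domRestrict, LinearMap.ker_domRestrict] at h
  rw [← h, ← Submodule.map_comap_subtype, Submodule.finrank_map_subtype_eq]

/-- The inductive statement. -/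
theorem hs_aux (K : Type u) [Field K] (s : ℕ) : ∀ (C : Type u) [AddCommGroup C] [Module K C]
    (T : Fin s → Module.End K C) (_hT : ∀ i j, T i * T j = T j * T i)
    (w : Fin s → ℕ) (_hw : ∀ i, 0 < w i)
    (π : ℕ → Module.End K C)
    (_h1 : ∀ d, π d * π d = π d) (_h2 : ∀ d e, d ≠ e → π d * π e = 0)
    (_h3 : ∀ x, ∃ n, x = ∑ d ∈ Finset.range n, π d x)
    (_h4 : ∀ i d, T i * π d = π (d + w i) * T i)
    (_hN : NoethT K T),
    (∀ d, Module.Finite K (LinearMap.range (π d))) ∧
    ∃ p : Polynomial ℤ, (∏ i, (1 - (PowerSeries.X : PowerSeries ℤ) ^ w i)) *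
      PowerSeries.mk (fun d => (Module.finrank K (LinearMap.range (π d)) : ℤ)) = (p : PowerSeries ℤ) := by
  classical
  induction s with
  | zero =>
    intro C _ _ T hT w hw π h1 h2 h3 h4 hN
    obtain ⟨G, hG, hG'⟩ := hN ⊤ (fun i => i.elim0)
    have hspan : Submodule.span K (G : Set C) = ⊤ := by
      rw [eq_top_iff]
      exact hG' _ Submodule.subset_span (fun i => i.elim0)
    haveI : Module.Finite K C := ⟨⟨G, hspan⟩⟩
    refine ⟨fun d => inferInstance, ?_⟩
    choose n hn using h3
    let N := G.sup n
    have hzero : ∀ d, N ≤ d → π d = 0 := by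
      intro d hd
      have h : ∀ x ∈ (⊤ : Submodule K C), π d x = 0 := by
        rw [← hspan]
        intro x hx
        induction hx using Submodule.span_induction with
        | mem x hx =>
          rw [hn x, map_sum]
          apply Finset.sum_eq_zero
          intro e he
          have hne : d ≠ e := by
            have h1 : n x ≤ N := Finset.le_sup (f := n) hx
            have h2 := Finset.mem_range.mp he
            omega
          rw [← Module.End.mul_apply, h2 d e hne, LinearMap.zero_apply]
        | zero => simp
        | add x y _ _ hx hy => rw [map_add, hx, hy, add_zero]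
        | smul a x _ hx => rw [map_smul, hx, smul_zero]
      ext x
      exact h x trivial
    refine ⟨∑ d ∈ Finset.range N, Polynomial.C ((Module.finrank K (LinearMap.range (π d)) : ℤ)) * Polynomial.X ^ d, ?_⟩
    rw [Finset.univ_eq_empty, Finset.prod_empty, one_mul]
    ext d
    rw [PowerSeries.coeff_mk, Polynomial.coeff_coe, Polynomial.finsetSum_coeff]
    simp only [Polynomial.coeff_C_mul, Polynomial.coeff_X_pow]
    by_cases hd : d < N
    · rw [Finset.sum_eq_single d]
      · simp
      · intro b _ hb
        simp [hb.symm]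
      · intro h
        exact absurd (Finset.mem_range.mpr hd) h
    · rw [Finset.sum_eq_zero]
      · rw [hzero d (by omega)]
        simp
      · intro e he
        have := Finset.mem_range.mp he
        have hne : d ≠ e := by omega
        simp [hne]
  | succ s ih =>
    intro C _ _ T hT w hw π h1 h2 h3 h4 hN
    obtain ⟨t, htdef⟩ : ∃ t, t = T (Fin.last s) := ⟨_, rfl⟩
    obtain ⟨W, hWdef⟩ : ∃ W, W = w (Fin.last s) := ⟨_, rfl⟩
    have hW : 0 < W := hWdef ▸ hw _
    have h11 : ∀ d x, π d (π d x) = π d x := fun d x => by
      rw [← Module.End.mul_apply, h1]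
    have h22 : ∀ d e x, d ≠ e → π d (π e x) = 0 := fun d e x hde => by
      rw [← Module.End.mul_apply, h2 d e hde, LinearMap.zero_apply]
    have hTπ : ∀ i d x, T i (π d x) = π (d + w i) (T i x) := fun i d x => by
      rw [← Module.End.mul_apply, h4, Module.End.mul_apply]
    have ht : ∀ d x, t (π d x) = π (d + W) (t x) := fun d x => by
      rw [htdef, hWdef]; exact hTπ _ d x
    have ht' : ∀ d x, d < W → π d (t x) = 0 := by
      intro d x hd
      obtain ⟨n, hn⟩ := h3 x
      rw [hn, map_sum, map_sum]
      apply Finset.sum_eq_zero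
      intro e _
      rw [ht, h22 _ _ _ (by omega)]
    have ht'' : ∀ d x, W ≤ d → π d (t x) = t (π (d - W) x) := by
      intro d x hd
      rw [ht, Nat.sub_add_cancel hd]
    have hcom : ∀ i x, T i (t x) = t (T i x) := by
      intro i x
      rw [htdef, ← Module.End.mul_apply, hT, Module.End.mul_apply]
    have hTT : ∀ i j x, T i (T j x) = T j (T i x) := by
      intro i j x
      rw [← Module.End.mul_apply, hT, Module.End.mul_apply]
    -- kernel
    have hKπ : ∀ d, ∀ x ∈ LinearMap.ker t, π d x ∈ LinearMap.ker t := by
      intro d x hx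
      rw [LinearMap.mem_ker] at hx ⊢
      rw [ht, hx, map_zero]
    have hKT : ∀ i, ∀ x ∈ LinearMap.ker t, T i x ∈ LinearMap.ker t := by
      intro i x hx
      rw [LinearMap.mem_ker] at hx ⊢
      rw [← hcom, hx, map_zero]
    have hRπ : ∀ d, ∀ x ∈ LinearMap.range t, π d x ∈ LinearMap.range t := by
      rintro d _ ⟨y, rfl⟩
      rcases lt_or_ge d W with h | h
      · rw [ht' d y h]; exact Submodule.zero_mem _
      · rw [ht'' d y h]; exact ⟨_, rfl⟩
    have hRT : ∀ i, ∀ x ∈ LinearMap.range t, T i x ∈ LinearMap.range t := by
      rintro i _ ⟨y, rfl⟩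
      rw [hcom]; exact ⟨_, rfl⟩
    obtain ⟨fK, pK, hpK⟩ := ih (LinearMap.ker t)
      (fun i => (T i.castSucc).restrict (hKT i.castSucc))
      (by intro i j; ext x; exact hTT _ _ _)
      (fun i => w i.castSucc) (fun i => hw _)
      (fun d => (π d).restrict (hKπ d))
      (by intro d; ext x; exact h11 _ _)
      (by intro d e hde; ext x; exact h22 _ _ _ hde)
      (by
        intro x
        obtain ⟨n, hn⟩ := h3 x
        refine ⟨n, Subtype.ext ?_⟩
        rw [hn]
        simp)
      (by intro i d; ext x; exact hTπ _ _ _)
      (by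
        intro S hS
        obtain ⟨G, hG, hG'⟩ := hN (S.map (LinearMap.ker t).subtype) (by
          intro i x hx
          obtain ⟨y, hy, rfl⟩ := Submodule.mem_map.mp hx
          refine Fin.lastCases ?_ (fun j => ?_) i
          · have : T (Fin.last s) ((LinearMap.ker t).subtype y) = 0 := by
              rw [← htdef]; exact y.2
            rw [this]; exact Submodule.zero_mem _
          · exact ⟨_, hS j y hy, rfl⟩)
        refine ⟨G.preimage _ (Subtype.val_injective.injOn), ?_, ?_⟩
        · intro x hx
          have hx' : (x : C) ∈ (G : Set C) := by simpa using hx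
          obtain ⟨y, hy, hyx⟩ := hG hx'
          have : y = x := Subtype.ext hyx
          rwa [← this]
        · intro S' hGS' hS' x hx
          have hle := hG' (S'.map (LinearMap.ker t).subtype) (by
            intro y hy
            obtain ⟨z, hz, rfl⟩ := hG hy
            refine ⟨z, hGS' ?_, rfl⟩
            simpa using hy) (by
            intro i x hx
            obtain ⟨y, hy, rfl⟩ := Submodule.mem_map.mp hx
            refine Fin.lastCases ?_ (fun j => ?_) i
            · have : T (Fin.last s) ((LinearMap.ker t).subtype y) = 0 := by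
                rw [← htdef]; exact y.2
              rw [this]; exact Submodule.zero_mem _
            · exact ⟨_, hS' j y hy, rfl⟩)
          obtain ⟨z, hz, hzx⟩ := hle ⟨x, hx, rfl⟩
          have : z = x := Subtype.ext hzx
          rwa [← this])
    obtain ⟨fQ, pQ, hpQ⟩ := ih (C ⧸ LinearMap.range t)
      (fun i => (LinearMap.range t).mapQ (LinearMap.range t) (T i.castSucc) (hRT i.castSucc))
      (by
        intro i j
        ext x
        simp only [LinearMap.comp_apply, Module.End.mul_apply, Submodule.mkQ_apply,
          Submodule.mapQ_apply, hTT i.castSucc j.castSucc x])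
      (fun i => w i.castSucc) (fun i => hw _)
      (fun d => (LinearMap.range t).mapQ (LinearMap.range t) (π d) (hRπ d))
      (by
        intro d
        ext x
        simp only [LinearMap.comp_apply, Module.End.mul_apply, Submodule.mkQ_apply,
          Submodule.mapQ_apply, h11])
      (by
        intro d e hde
        ext x
        simp only [LinearMap.comp_apply, Module.End.mul_apply, Submodule.mkQ_apply,
          Submodule.mapQ_apply, h22 d e x hde]
        simp)
      (by
        intro x
        obtain ⟨x, rfl⟩ := Submodule.mkQ_surjective _ x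
        obtain ⟨n, hn⟩ := h3 x
        refine ⟨n, ?_⟩
        conv_lhs => rw [hn]
        simp only [map_sum, Submodule.mkQ_apply, Submodule.mapQ_apply])
      (by
        intro i d
        ext x
        simp only [LinearMap.comp_apply, Module.End.mul_apply, Submodule.mkQ_apply,
          Submodule.mapQ_apply, hTπ])
      (by
        intro S hS
        obtain ⟨G, hG, hG'⟩ := hN (S.comap (LinearMap.range t).mkQ) (by
          intro i x hx
          rw [Submodule.mem_comap] at hx ⊢
          refine Fin.lastCases ?_ (fun j => ?_) i
          · have : (LinearMap.range t).mkQ (T (Fin.last s) x) = 0 := by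
              rw [← htdef, Submodule.mkQ_apply, Submodule.Quotient.mk_eq_zero]
              exact ⟨x, rfl⟩
            rw [this]; exact Submodule.zero_mem _
          · exact hS j _ hx)
        refine ⟨G.image (LinearMap.range t).mkQ, ?_, ?_⟩
        · intro x hx
          rw [Finset.coe_image] at hx
          obtain ⟨y, hy, rfl⟩ := hx
          exact hG hy
        · intro S' hGS' hS' x hx
          have hle := hG' (S'.comap (LinearMap.range t).mkQ) (by
            intro y hy
            apply hGS'
            rw [Finset.coe_image]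
            exact ⟨y, hy, rfl⟩) (by
            intro i x hx
            rw [Submodule.mem_comap] at hx ⊢
            refine Fin.lastCases ?_ (fun j => ?_) i
            · have : (LinearMap.range t).mkQ (T (Fin.last s) x) = 0 := by
                rw [← htdef, Submodule.mkQ_apply, Submodule.Quotient.mk_eq_zero]
                exact ⟨x, rfl⟩
              rw [this]; exact Submodule.zero_mem _
            · exact hS' j _ hx)
          obtain ⟨x, rfl⟩ := Submodule.mkQ_surjective _ x
          exact hle hx)
    -- the pieces
    have hmemπ : ∀ d x, x ∈ LinearMap.range (π d) ↔ π d x = x := by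
      intro d x
      constructor
      · rintro ⟨y, rfl⟩; exact h11 _ _
      · intro h; exact ⟨x, h⟩
    have hKer : ∀ d, (LinearMap.range ((π d).restrict (hKπ d))).map (LinearMap.ker t).subtype =
        LinearMap.range (π d) ⊓ LinearMap.ker t := by
      intro d
      ext x
      constructor
      · rintro ⟨y, ⟨z, rfl⟩, rfl⟩
        exact ⟨⟨z.1, rfl⟩, ((π d).restrict (hKπ d) z).2⟩
      · rintro ⟨hx1, hx2⟩
        rw [SetLike.mem_coe, hmemπ] at hx1
        exact ⟨⟨x, hx2⟩, ⟨⟨x, hx2⟩, Subtype.ext hx1⟩, rfl⟩
    have hQuo : ∀ d, LinearMap.range ((LinearMap.range t).mapQ (LinearMap.range t) (π d) (hRπ d)) =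
        (LinearMap.range (π d)).map (LinearMap.range t).mkQ := by
      intro d
      ext x
      constructor
      · rintro ⟨y, rfl⟩
        obtain ⟨y, rfl⟩ := Submodule.mkQ_surjective _ y
        exact ⟨π d y, ⟨y, rfl⟩, rfl⟩
      · rintro ⟨y, ⟨z, rfl⟩, rfl⟩
        exact ⟨(LinearMap.range t).mkQ z, rfl⟩
    have hmapt : ∀ d, (LinearMap.range (π d)).map t = LinearMap.range (π (d + W)) ⊓ LinearMap.range t := by
      intro d
      ext x
      constructor
      · rintro ⟨y, ⟨z, rfl⟩, rfl⟩
        exact ⟨⟨t z, (ht d z).symm⟩, ⟨_, rfl⟩⟩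
      · rintro ⟨hx1, ⟨u, rfl⟩⟩
        rw [SetLike.mem_coe, hmemπ] at hx1
        exact ⟨π d u, ⟨u, rfl⟩, by rw [ht, hx1]⟩
    have hbot : ∀ d, d < W → LinearMap.range (π d) ⊓ LinearMap.range t = ⊥ := by
      intro d hd
      rw [eq_bot_iff]
      rintro x ⟨hx1, ⟨u, rfl⟩⟩
      rw [SetLike.mem_coe, hmemπ, ht' d u hd] at hx1
      rw [← hx1]
      exact Submodule.zero_mem _
    have hfin : ∀ d, Module.Finite K (LinearMap.range (π d)) := by
      intro d
      induction d using Nat.strong_induction_on with
      | _ d ihd =>
        rw [Module.Finite.iff_fg]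
        apply Submodule.fg_of_fg_map_of_fg_inf_ker (LinearMap.range t).mkQ
        · rw [← hQuo]
          have := fQ d
          rwa [Module.Finite.iff_fg] at this
        · rw [Submodule.ker_mkQ]
          rcases lt_or_ge d W with h | h
          · rw [hbot d h]; exact Submodule.fg_bot
          · have h5 := hmapt (d - W)
            rw [Nat.sub_add_cancel h] at h5
            rw [← h5]
            have := ihd (d - W) (by omega)
            rw [Module.Finite.iff_fg] at this
            exact this.map t
    refine ⟨hfin, ?_⟩
    have hd1 : ∀ d, Module.finrank K (LinearMap.range ((LinearMap.range t).mapQ (LinearMap.range t) (π d) (hRπ d))) +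
        Module.finrank K (LinearMap.range (π d) ⊓ LinearMap.range t : Submodule K C) =
        Module.finrank K (LinearMap.range (π d)) := by
      intro d
      haveI := hfin d
      have := finrank_map_add (LinearMap.range (π d)) (LinearMap.range t).mkQ
      rw [Submodule.ker_mkQ, ← hQuo] at this
      exact this
    have hd2 : ∀ d, Module.finrank K (LinearMap.range (π (d + W)) ⊓ LinearMap.range t : Submodule K C) +
        Module.finrank K (LinearMap.range ((π d).restrict (hKπ d))) =
        Module.finrank K (LinearMap.range (π d)) := by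
      intro d
      haveI := hfin d
      have := finrank_map_add (LinearMap.range (π d)) t
      rw [hmapt, ← hKer, Submodule.finrank_map_subtype_eq] at this
      exact this
    have hser : (1 - (PowerSeries.X : PowerSeries ℤ) ^ W) *
        PowerSeries.mk (fun d => (Module.finrank K (LinearMap.range (π d)) : ℤ)) =
        PowerSeries.mk (fun d => (Module.finrank K (LinearMap.range ((LinearMap.range t).mapQ (LinearMap.range t) (π d) (hRπ d))) : ℤ)) -
        (PowerSeries.X : PowerSeries ℤ) ^ W *
        PowerSeries.mk (fun d => (Module.finrank K (LinearMap.range ((π d).restrict (hKπ d))) : ℤ)) := by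
      ext e
      rw [sub_mul, one_mul, map_sub, map_sub, PowerSeries.coeff_X_pow_mul', PowerSeries.coeff_X_pow_mul',
        PowerSeries.coeff_mk, PowerSeries.coeff_mk]
      by_cases he : W ≤ e
      · rw [if_pos he, if_pos he, PowerSeries.coeff_mk, PowerSeries.coeff_mk]
        have e1 := hd1 e
        have e2 := hd2 (e - W)
        rw [Nat.sub_add_cancel he] at e2
        omega
      · rw [if_neg he, if_neg he]
        have e1 := hd1 e
        rw [hbot e (by omega), finrank_bot] at e1
        simp only [PowerSeries.coeff_mk]
        omega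
    refine ⟨pQ - Polynomial.X ^ W * pK, ?_⟩
    rw [Fin.prod_univ_castSucc, mul_assoc, ← hWdef, hser, mul_sub, hpQ, mul_left_comm, hpK]
    simp

theorem hilbert_serre (K : Type u) [Field K] (s : ℕ) (C : Type u) [AddCommGroup C] [Module K C]
    (T : Fin s → Module.End K C) (hT : ∀ i j, T i * T j = T j * T i)
    (w : Fin s → ℕ) (hw : ∀ i, 0 < w i)
    (π : ℕ → Module.End K C)
    (h1 : ∀ d, π d * π d = π d) (h2 : ∀ d e, d ≠ e → π d * π e = 0)
    (h3 : ∀ x, ∃ n, x = ∑ d ∈ Finset.range n, π d x)
    (h4 : ∀ i d, T i * π d = π (d + w i) * T i)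
    (hfg : ∃ G : Finset C, ∀ S : Submodule K C, (↑G ⊆ (S : Set C)) →
      (∀ i, ∀ x ∈ S, T i x ∈ S) → S = ⊤) :
    (∀ d, Module.Finite K (LinearMap.range (π d))) ∧
    ∃ p : Polynomial ℤ, (∏ i, (1 - (PowerSeries.X : PowerSeries ℤ) ^ w i)) *
      PowerSeries.mk (fun d => (Module.finrank K (LinearMap.range (π d)) : ℤ)) = (p : PowerSeries ℤ) :=
  hs_aux K s C T hT w hw π h1 h2 h3 h4 (noethT_of_fg K s C T hT hfg)

end Pool.Agent.H408.Iso
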