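import Pool.Agent.H408.Iso.Move
import Pool.Agent.H408.Iso.HS

set_option autoImplicit false

open MvPolynomial

namespace Pool.Agent.H408.Iso

universe u

variable {K : Type u} [Field K]

theorem hc_mem_SI {I : Ideal (MvPolynomial ℕ K)} (hI : ∀ f ∈ I, ∀ d, homogeneousComponent d f ∈ I)
    (Δ : MvPolynomial ℕ K) (d : ℕ) {u : MvPolynomial ℕ K} (hu : u ∈ SI I Δ) :
    homogeneousComponent d u ∈ SI I Δ := by
  obtain ⟨g, hg, z, hz, rfl⟩ := mem_SI.1 hu
  rw [map_add]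
  exact add_mem (I_le_SI I Δ (hI g hg d)) (Z_le_SI I Δ (hc_mem_Z d hz))

/-- the projection to the homogeneous component of degree `d` of `P/(I+Z)` -/
noncomputable def hcQ {I : Ideal (MvPolynomial ℕ K)}
    (hI : ∀ f ∈ I, ∀ d, homogeneousComponent d f ∈ I) (Δ : MvPolynomial ℕ K) (d : ℕ) :
    Module.End K (MvPolynomial ℕ K ⧸ SI I Δ) :=
  Submodule.mapQ _ _ (homogeneousComponent d) (fun _ hu => hc_mem_SI hI Δ d hu)

theorem hcQ_mk {I : Ideal (MvPolynomial ℕ K)}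
    (hI : ∀ f ∈ I, ∀ d, homogeneousComponent d f ∈ I) (Δ : MvPolynomial ℕ K) (d : ℕ)
    (u : MvPolynomial ℕ K) : hcQ hI Δ d (Submodule.Quotient.mk u) =
      Submodule.Quotient.mk (homogeneousComponent d u) := rfl

theorem hc_hc (d e : ℕ) (u : MvPolynomial ℕ K) :
    homogeneousComponent d (homogeneousComponent e u) =
      if d = e then homogeneousComponent e u else 0 :=
  homogeneousComponent_of_mem (homogeneousComponent_mem e u)

theorem hcQ_idem {I : Ideal (MvPolynomial ℕ K)}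
    (hI : ∀ f ∈ I, ∀ d, homogeneousComponent d f ∈ I) (Δ : MvPolynomial ℕ K) (d : ℕ) :
    hcQ hI Δ d * hcQ hI Δ d = hcQ hI Δ d := by
  apply LinearMap.ext
  intro x
  obtain ⟨u, rfl⟩ := Submodule.Quotient.mk_surjective _ x
  rw [Module.End.mul_apply, hcQ_mk, hcQ_mk, hc_hc, if_pos rfl]

theorem hcQ_ne {I : Ideal (MvPolynomial ℕ K)}
    (hI : ∀ f ∈ I, ∀ d, homogeneousComponent d f ∈ I) (Δ : MvPolynomial ℕ K) (d e : ℕ)
    (hde : d ≠ e) : hcQ hI Δ d * hcQ hI Δ e = 0 := by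
  apply LinearMap.ext
  intro x
  obtain ⟨u, rfl⟩ := Submodule.Quotient.mk_surjective _ x
  rw [Module.End.mul_apply, hcQ_mk, hcQ_mk, hc_hc, if_neg hde]
  rfl

theorem hcQ_sum {I : Ideal (MvPolynomial ℕ K)}
    (hI : ∀ f ∈ I, ∀ d, homogeneousComponent d f ∈ I) (Δ : MvPolynomial ℕ K)
    (x : MvPolynomial ℕ K ⧸ SI I Δ) : ∃ n, x = ∑ d ∈ Finset.range n, hcQ hI Δ d x := by
  obtain ⟨u, rfl⟩ := Submodule.Quotient.mk_surjective _ x
  refine ⟨u.totalDegree + 1, ?_⟩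
  simp only [hcQ_mk]
  conv_lhs => rw [← sum_homogeneousComponent u]
  rw [← Submodule.mkQ_apply, map_sum]
  rfl

theorem pop_hcQ {I : Ideal (MvPolynomial ℕ K)}
    (hI : ∀ f ∈ I, ∀ d, homogeneousComponent d f ∈ I) {Δ : MvPolynomial ℕ K} {m : ℕ}
    (hΔ : Δ ∈ S K m) (i d : ℕ) :
    pop I hΔ i * hcQ hI Δ d = hcQ hI Δ (d + i) * pop I hΔ i := by
  apply LinearMap.ext
  intro x
  obtain ⟨u, rfl⟩ := Submodule.Quotient.mk_surjective _ x
  rw [Module.End.mul_apply, Module.End.mul_apply, hcQ_mk,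
    pop_mk I hΔ i (le_bd m u) (hc_mem_S (mem_S_bd m u) d),
    pop_mk I hΔ i (le_bd m u) (mem_S_bd m u), hcQ_mk, hc_mul (qq_homog i _)]

theorem hcQ_mem_CC {I : Ideal (MvPolynomial ℕ K)}
    (hI : ∀ f ∈ I, ∀ d, homogeneousComponent d f ∈ I) (Δ : MvPolynomial ℕ K)
    {f : MvPolynomial ℕ K} {e : ℕ} (hf : f.IsHomogeneous e) (d : ℕ) :
    ∀ x ∈ CC I Δ f, hcQ hI Δ d x ∈ CC I Δ f := by
  rintro _ ⟨h, rfl⟩
  rw [PhiQ_apply, hcQ_mk]
  refine ⟨GG e d h, ?_⟩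
  rw [PhiQ_apply, Phi_GG hf (isHomogeneous_one ℕ K) d h, add_zero]

/-- the projection to the homogeneous component of degree `d` of `C` -/
noncomputable def hcC {I : Ideal (MvPolynomial ℕ K)}
    (hI : ∀ f ∈ I, ∀ d, homogeneousComponent d f ∈ I) (Δ : MvPolynomial ℕ K)
    {f : MvPolynomial ℕ K} {e : ℕ} (hf : f.IsHomogeneous e) (d : ℕ) :
    Module.End K (CC I Δ f) :=
  (hcQ hI Δ d).restrict (hcQ_mem_CC hI Δ hf d)

theorem hcC_coe {I : Ideal (MvPolynomial ℕ K)}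
    (hI : ∀ f ∈ I, ∀ d, homogeneousComponent d f ∈ I) (Δ : MvPolynomial ℕ K)
    {f : MvPolynomial ℕ K} {e : ℕ} (hf : f.IsHomogeneous e) (d : ℕ) (x : CC I Δ f) :
    (hcC hI Δ hf d x : MvPolynomial ℕ K ⧸ SI I Δ) = hcQ hI Δ d x := rfl

theorem eop_hcC {I : Ideal (MvPolynomial ℕ K)}
    (hI : ∀ f ∈ I, ∀ d, homogeneousComponent d f ∈ I) {Δ : MvPolynomial ℕ K}
    {f : MvPolynomial ℕ K} {e : ℕ} (hf : f.IsHomogeneous e) {c : MvPolynomial ℕ K} {w : ℕ}
    (hw : c.IsHomogeneous w) (hc : ∀ h, Phi f 1 h ∈ SI I Δ → Phi f c h ∈ SI I Δ) (d : ℕ) :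
    eop hc * hcC hI Δ hf d = hcC hI Δ hf (d + w) * eop hc := by
  apply LinearMap.ext
  intro x
  obtain ⟨h, rfl⟩ := CC_ind x
  rw [Module.End.mul_apply, Module.End.mul_apply, eop_apply]
  have h1 : hcC hI Δ hf d ⟨PhiQ I Δ f 1 h, PhiQ_mem I Δ f 1 h⟩ =
      ⟨PhiQ I Δ f 1 (GG e d h), PhiQ_mem I Δ f 1 _⟩ := by
    apply Subtype.ext
    rw [hcC_coe]
    change hcQ hI Δ d (PhiQ I Δ f 1 h) = PhiQ I Δ f 1 (GG e d h)
    rw [PhiQ_apply, PhiQ_apply, hcQ_mk, Phi_GG hf (isHomogeneous_one ℕ K) d h, add_zero]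
  rw [h1, eop_apply]
  apply Subtype.ext
  rw [hcC_coe]
  change PhiQ I Δ f c (GG e d h) = hcQ hI Δ (d + w) (PhiQ I Δ f c h)
  rw [PhiQ_apply, PhiQ_apply, hcQ_mk, Phi_GG hf hw d h]

theorem popC_hcC {I : Ideal (MvPolynomial ℕ K)}
    (hI : ∀ f ∈ I, ∀ d, homogeneousComponent d f ∈ I) {Δ : MvPolynomial ℕ K} {m : ℕ}
    (hΔ : Δ ∈ S K m) {f : MvPolynomial ℕ K} {e : ℕ} (hf : f.IsHomogeneous e) (i d : ℕ) :
    popC I hΔ f i * hcC hI Δ hf d = hcC hI Δ hf (d + i) * popC I hΔ f i := by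
  apply LinearMap.ext
  intro x
  apply Subtype.ext
  exact LinearMap.congr_fun (pop_hcQ hI hΔ i d) (x : MvPolynomial ℕ K ⧸ SI I Δ)

/-- the product of the polynomials `1 - t^a`, `a ∈ A` -/
noncomputable def den (A : Multiset ℕ) : Polynomial ℤ :=
  (A.map fun a => (1 - Polynomial.X ^ a : Polynomial ℤ)).prod

theorem den_add (A B : Multiset ℕ) : den (A + B) = den A * den B := by
  unfold den
  rw [Multiset.map_add, Multiset.prod_add]

theorem den_coeff_zero {A : Multiset ℕ} (hA : ∀ a ∈ A, 0 < a) : (den A).coeff 0 = 1 := by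
  unfold den
  rw [← Polynomial.constantCoeff_apply, map_multiset_prod, Multiset.map_map]
  apply Multiset.prod_eq_one
  intro x hx
  obtain ⟨a, ha, rfl⟩ := Multiset.mem_map.1 hx
  have := hA a ha
  simp only [Function.comp_apply, Polynomial.constantCoeff_apply, Polynomial.coeff_sub,
    Polynomial.coeff_one_zero, Polynomial.coeff_X_pow]
  rw [if_neg (by omega), sub_zero]

/-- the Hilbert series of `C` is rational -/
theorem rat_C [CharZero K] {I : Ideal (MvPolynomial ℕ K)}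
    (hsym : ∀ σ : Equiv.Perm ℕ, ∀ f ∈ I, rename σ f ∈ I)
    (hI : ∀ f ∈ I, ∀ d, homogeneousComponent d f ∈ I) {Δ : MvPolynomial ℕ K} {m : ℕ}
    (hΔ : Δ ∈ S K m) {r k e : ℕ} {f : MvPolynomial ℕ K} {c : ℕ → MvPolynomial ℕ K}
    (hr : 1 ≤ r) (hfk : f ∈ S K k) (hf : f.IsHomogeneous e)
    (hc : ∀ i, i < r → c i ∈ S K k ∧ (c i).IsHomogeneous (r - i))
    (hrel : ∀ j, k ≤ j → (X j ^ r + ∑ i ∈ Finset.range r, c i * X j ^ i) * f ∈ I)
    (hmin : ∀ (g : ℕ → MvPolynomial ℕ K) (J : ℕ),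
        (∀ j, J ≤ j → ∑ i ∈ Finset.range r, g i * X j ^ i ∈ I) → ∀ i, i < r → g i ∈ I) :
    (∀ d, Module.Finite K (LinearMap.range (hcC hI Δ hf d))) ∧
    ∃ (A : Multiset ℕ) (p : Polynomial ℤ), (∀ a ∈ A, 0 < a) ∧ (den A : PowerSeries ℤ) *
      PowerSeries.mk (fun d => (Module.finrank K (LinearMap.range (hcC hI Δ hf d)) : ℤ)) =
        (p : PowerSeries ℤ) := by
  have hcS : ∀ i, i < r → ∀ h, Phi f 1 h ∈ SI I Δ → Phi f (c i) h ∈ SI I Δ :=
    fun i hi h hh => Phi_c_mem_SI Δ hsym hrel hmin hh i hi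
  let M := r * (m + k + 1)
  let T : Fin (r + M) → Module.End K (CC I Δ f) :=
    Fin.addCases (fun i => eop (hcS i i.2)) (fun j => popC I hΔ f (j + 1))
  let w : Fin (r + M) → ℕ := Fin.addCases (fun i => r - i) (fun j => j + 1)
  have hT1 : ∀ i : Fin r, T (Fin.castAdd M i) = eop (hcS i i.2) := fun i => Fin.addCases_left i
  have hT2 : ∀ j : Fin M, T (Fin.natAdd r j) = popC I hΔ f (j + 1) := fun j => Fin.addCases_right j
  have hw1 : ∀ i : Fin r, w (Fin.castAdd M i) = r - i := fun i => Fin.addCases_left i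
  have hw2 : ∀ j : Fin M, w (Fin.natAdd r j) = j + 1 := fun j => Fin.addCases_right j
  have a1 : ∀ i j, T i * T j = T j * T i := by
    intro i j
    refine Fin.addCases (fun i => ?_) (fun i => ?_) i <;>
      refine Fin.addCases (fun j => ?_) (fun j => ?_) j
    · rw [hT1, hT1]; exact eop_comm _ _
    · rw [hT1, hT2]; exact eop_popC_comm _ hΔ _
    · rw [hT1, hT2]; exact (eop_popC_comm _ hΔ _).symm
    · rw [hT2, hT2]; exact popC_comm I hΔ f _ _
  have a2 : ∀ i, 0 < w i := by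
    intro i
    refine Fin.addCases (fun i => ?_) (fun j => ?_) i
    · rw [hw1]; omega
    · rw [hw2]; omega
  have a3 : ∀ d, hcC hI Δ hf d * hcC hI Δ hf d = hcC hI Δ hf d := by
    intro d
    apply LinearMap.ext
    intro x
    apply Subtype.ext
    exact LinearMap.congr_fun (hcQ_idem hI Δ d) (x : MvPolynomial ℕ K ⧸ SI I Δ)
  have a4 : ∀ d e', d ≠ e' → hcC hI Δ hf d * hcC hI Δ hf e' = 0 := by
    intro d e' hde
    apply LinearMap.ext
    intro x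
    apply Subtype.ext
    exact LinearMap.congr_fun (hcQ_ne hI Δ d e' hde) (x : MvPolynomial ℕ K ⧸ SI I Δ)
  have a5 : ∀ x, ∃ n, x = ∑ d ∈ Finset.range n, hcC hI Δ hf d x := by
    intro x
    obtain ⟨n, hn⟩ := hcQ_sum hI Δ (x : MvPolynomial ℕ K ⧸ SI I Δ)
    refine ⟨n, ?_⟩
    apply Subtype.ext
    rw [Submodule.coe_sum]
    exact hn
  have a6 : ∀ i d, T i * hcC hI Δ hf d = hcC hI Δ hf (d + w i) * T i := by
    intro i d
    refine Fin.addCases (fun i => ?_) (fun j => ?_) i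
    · rw [hT1, hw1]
      exact eop_hcC hI hf (hc i i.2).2 _ d
    · rw [hT2, hw2]
      exact popC_hcC hI hΔ hf _ d
  have a7 : ∃ G : Finset (CC I Δ f), ∀ S : Submodule K (CC I Δ f),
      (↑G ⊆ (S : Set (CC I Δ f))) → (∀ i, ∀ x ∈ S, T i x ∈ S) → S = ⊤ := by
    obtain ⟨G, hG⟩ := fg_finset hΔ hfk hr hsym hrel hcS
    refine ⟨G, fun T' hT' hT'' => hG T' hT' ?_ ?_⟩
    · intro i hi x hx
      have := hT'' (Fin.castAdd M ⟨i, hi⟩) x hx
      rwa [hT1] at this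
    · intro i h1 h2 x hx
      have := hT'' (Fin.natAdd r ⟨i - 1, by omega⟩) x hx
      rw [hT2] at this
      simp only at this
      rwa [Nat.sub_add_cancel h1] at this
  obtain ⟨hfin, p, hp⟩ := hilbert_serre K (r + M) (CC I Δ f) T a1 w a2
    (fun d => hcC hI Δ hf d) a3 a4 a5 a6 a7
  refine ⟨hfin, (Finset.univ : Finset (Fin (r + M))).val.map w, p, ?_, ?_⟩
  · intro a ha
    obtain ⟨i, _, rfl⟩ := Multiset.mem_map.1 ha
    exact a2 i
  · rw [← hp]
    congr 1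
    have h1 : den ((Finset.univ : Finset (Fin (r + M))).val.map w) =
        ∏ i, (1 - Polynomial.X ^ w i) := by
      unfold den
      rw [Multiset.map_map]
      rfl
    rw [h1, ← Polynomial.coeToPowerSeries.ringHom_apply, map_prod]
    apply Finset.prod_congr rfl
    intro i _
    rw [map_sub, map_one, map_pow, Polynomial.coeToPowerSeries.ringHom_apply, Polynomial.coe_X]

end Pool.Agent.H408.Iso
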