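import Mathlib

set_option autoImplicit false

namespace Pool.Agent.H408.Iso

universe u

open Module Representation

section

variable {K : Type u} [Field K] [CharZero K] {n : ℕ}
    {V : Type u} [AddCommGroup V] [Module K V] [Module.Finite K V]
    {W : Type u} [AddCommGroup W] [Module K W] [Module.Finite K W]
    (ρ : Representation K (Equiv.Perm (Fin n)) V) (τ : Representation K (Equiv.Perm (Fin n)) W)

theorem finrank_intertwining_dual :
    finrank K (IntertwiningMap ρ τ) = finrank K (IntertwiningMap ρ τ.dual) := by
  have : Invertible (Nat.card (Equiv.Perm (Fin n)) : K) :=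
    invertibleOfNonzero (by rw [Nat.cast_ne_zero]; exact Nat.card_pos.ne')
  have h1 := card_inv_mul_sum_char_mul_char_eq_finrank ρ τ
  have h2 := card_inv_mul_sum_char_mul_char_eq_finrank ρ τ.dual
  have h3 : ∀ g, τ.dual.character g = τ.character g := by
    intro g
    rw [char_dual]
    have h4 : IsConj g g⁻¹ := by
      rw [Equiv.Perm.isConj_iff_cycleType_eq, Equiv.Perm.cycleType_inv]
    obtain ⟨c, hc⟩ := isConj_iff.1 h4
    rw [← hc, char_conj]
  simp only [h3] at h2
  rw [h1] at h2
  exact_mod_cast h2

end

/-- Let `V` be a finite dimensional representation of a symmetric group generated by `Δ`, and `W`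
another one.  The dimension of the space of equivariant maps `V → W` is the dimension of the
quotient of `W` by the span of all `a^* w`, where `a` runs through the annihilator of `Δ` in the
group algebra and `*` is inversion. -/
theorem finrank_hom_eq (K : Type u) [Field K] [CharZero K] (n : ℕ)
    (V : Type u) [AddCommGroup V] [Module K V] [Module.Finite K V]
    (W : Type u) [AddCommGroup W] [Module K W] [Module.Finite K W]
    (ρ : Representation K (Equiv.Perm (Fin n)) V) (τ : Representation K (Equiv.Perm (Fin n)) W)
    (Δ : V) (hΔ : Submodule.span K (Set.range fun σ => ρ σ Δ) = ⊤)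
    (H : Submodule K (V →ₗ[K] W))
    (hH : ∀ φ, φ ∈ H ↔ ∀ σ v, φ (ρ σ v) = τ σ (φ v))
    (Z : Submodule K W)
    (hZ : Z = Submodule.span K {z | ∃ a : Equiv.Perm (Fin n) → K, (∑ σ, a σ • ρ σ Δ) = 0 ∧
      ∃ x : W, z = ∑ σ, a σ • τ σ⁻¹ x}) :
    Module.finrank K H = Module.finrank K (W ⧸ Z) := by
  -- step 1
  have e1 : finrank K H = finrank K (IntertwiningMap ρ τ) := by
    refine LinearEquiv.finrank_eq
      { toFun := fun φ => φ.1.intertwiningMap_of_isIntertwiningMap ρ τ ((hH φ.1).1 φ.2)
        map_add' := fun _ _ => rfl
        map_smul' := fun _ _ => rfl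
        invFun := fun f => ⟨f.toLinearMap, (hH _).2 fun σ v => f.isIntertwining ρ τ σ v⟩
        left_inv := fun _ => rfl
        right_inv := fun _ => rfl }
  rw [e1, finrank_intertwining_dual]
  -- step 3
  let p : (Equiv.Perm (Fin n) → K) →ₗ[K] V := Fintype.linearCombination K fun σ => ρ σ Δ
  have hp : ∀ a, p a = ∑ σ, a σ • ρ σ Δ := fun a => rfl
  have hps : Function.Surjective p := by
    rw [← LinearMap.range_eq_top, Fintype.range_linearCombination, hΔ]
  have key : ∀ (φ : Dual K W), φ ∈ Z.dualAnnihilator →
      ∀ a : Equiv.Perm (Fin n) → K, p a = 0 → ∑ σ, a σ • τ.dual σ φ = 0 := by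
    intro φ hφ a ha
    rw [Submodule.mem_dualAnnihilator] at hφ
    refine LinearMap.ext fun x => ?_
    have h1 := hφ (∑ σ, a σ • τ σ⁻¹ x) (by
      rw [hZ]
      exact Submodule.subset_span ⟨a, ha, x, rfl⟩)
    rw [map_sum] at h1
    simp only [LinearMap.coe_sum, Finset.sum_apply, LinearMap.smul_apply, LinearMap.zero_apply]
    rw [← h1]
    refine Finset.sum_congr rfl fun σ _ => ?_
    rw [map_smul]
    rfl
  have e3 : finrank K (IntertwiningMap ρ τ.dual) = finrank K Z.dualAnnihilator := by
    let F : IntertwiningMap ρ τ.dual →ₗ[K] Z.dualAnnihilator :=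
      { toFun := fun f => ⟨f Δ, by
          rw [Submodule.mem_dualAnnihilator]
          intro w hw
          rw [hZ] at hw
          refine Submodule.span_induction (p := fun w _ => (f Δ) w = 0) ?_ ?_ ?_ ?_ hw
          · rintro w ⟨a, ha, x, rfl⟩
            have h1 := congrArg (fun v => f v) ha
            simp only [map_sum, map_smul, map_zero] at h1
            have h2 := congrArg (fun g : Dual K W => g x) h1
            simp only [LinearMap.coe_sum, Finset.sum_apply, LinearMap.smul_apply,
              LinearMap.zero_apply] at h2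
            rw [map_sum, ← h2]
            refine Finset.sum_congr rfl fun σ _ => ?_
            rw [map_smul, f.isIntertwining ρ τ.dual]
            rfl
          · exact map_zero _
          · intro u v _ _ hu hv
            rw [map_add, hu, hv, add_zero]
          · intro c u _ hu
            rw [map_smul, hu, smul_zero]⟩
        map_add' := fun _ _ => rfl
        map_smul' := fun _ _ => rfl }
    refine LinearEquiv.finrank_eq (LinearEquiv.ofBijective F ⟨?_, ?_⟩)
    · -- injective
      rw [injective_iff_map_eq_zero]
      intro f hf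
      have hf' : f Δ = 0 := congrArg Subtype.val hf
      refine IntertwiningMap.ext (LinearMap.ext fun v => ?_)
      obtain ⟨a, rfl⟩ := hps v
      show f (p a) = 0
      rw [hp, map_sum]
      refine Finset.sum_eq_zero fun σ _ => ?_
      rw [map_smul, f.isIntertwining ρ τ.dual, hf', map_zero, smul_zero]
    · rintro ⟨φ, hφ⟩
      let q : (Equiv.Perm (Fin n) → K) →ₗ[K] Dual K W :=
        Fintype.linearCombination K fun σ => τ.dual σ φ
      have hq : ∀ a, q a = ∑ σ, a σ • τ.dual σ φ := fun a => rfl
      have hpq : LinearMap.ker p ≤ LinearMap.ker q := by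
        intro a ha
        rw [LinearMap.mem_ker] at ha ⊢
        exact key φ hφ a ha
      let f : V →ₗ[K] Dual K W :=
        ((LinearMap.ker p).liftQ q hpq) ∘ₗ (p.quotKerEquivOfSurjective hps).symm.toLinearMap
      have hf : ∀ a, f (p a) = q a := by
        intro a
        show ((LinearMap.ker p).liftQ q hpq) ((p.quotKerEquivOfSurjective hps).symm (p a)) = q a
        have : (p.quotKerEquivOfSurjective hps).symm (p a) = Submodule.Quotient.mk a := by
          rw [LinearEquiv.symm_apply_eq]
          rfl
        rw [this, Submodule.liftQ_apply]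
      have hfe : ∀ g v, f (ρ g v) = τ.dual g (f v) := by
        intro g v
        obtain ⟨a, rfl⟩ := hps v
        have h1 : ρ g (p a) = p (fun σ => a (g⁻¹ * σ)) := by
          rw [hp, hp, map_sum]
          refine Fintype.sum_equiv (Equiv.mulLeft g) _ _ fun σ => ?_
          rw [map_smul, Equiv.coe_mulLeft, inv_mul_cancel_left, map_mul]
          rfl
        rw [h1, hf, hf, hq, hq, map_sum]
        symm
        refine Fintype.sum_equiv (Equiv.mulLeft g) _ _ fun σ => ?_
        rw [map_smul, Equiv.coe_mulLeft, inv_mul_cancel_left, map_mul]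
        rfl
      refine ⟨f.intertwiningMap_of_isIntertwiningMap ρ τ.dual hfe, Subtype.ext ?_⟩
      show f Δ = φ
      have h1 : p (Pi.single 1 1) = Δ := by
        rw [hp, Finset.sum_eq_single 1]
        · simp
        · intro σ _ hσ
          simp [hσ]
        · simp
      have h2 : q (Pi.single 1 1) = φ := by
        rw [hq, Finset.sum_eq_single 1]
        · rw [Pi.single_eq_same, one_smul, map_one]
          rfl
        · intro σ _ hσ
          simp [hσ]
        · simp
      rw [← h2, ← hf, h1]
  rw [e3]
  have h4 := (Submodule.dualQuotEquivDualAnnihilator Z).finrank_eq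
  rw [← h4, Subspace.dual_finrank_eq]

end Pool.Agent.H408.Iso
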