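import Pool.Agent.H408.Iso.Step
import Pool.Agent.H408.Iso.Defs
import Pool.Agent.H408.Iso.Mult

set_option autoImplicit false

open MvPolynomial

namespace Pool.Agent.H408.Iso

universe u

variable {K : Type u} [Field K]

/-- homogeneous polynomials of degree `d` in the variables with index `< n` -/
noncomputable def BB (K : Type u) [Field K] (n d : ℕ) : Submodule K (MvPolynomial ℕ K) :=
  (S K n).toSubmodule ⊓ homogeneousSubmodule ℕ K d

theorem mem_BB {n d : ℕ} {u : MvPolynomial ℕ K} : u ∈ BB K n d ↔ u ∈ S K n ∧ u.IsHomogeneous d :=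
  Iff.rfl

theorem BB_mono {n m : ℕ} (h : n ≤ m) (d : ℕ) : BB K n d ≤ BB K m d :=
  fun _ hu => ⟨S_mono h hu.1, hu.2⟩

theorem BB_eq (n d : ℕ) : BB K n d =
    (homogeneousSubmodule (Fin n) K d).map (rename (Fin.val : Fin n → ℕ)).toLinearMap := by
  ext u
  constructor
  · rintro ⟨h1, h2⟩
    have h3 : u ∈ supported K (Set.Iio n) := h1
    have h4 : ∃ v : MvPolynomial (Fin n) K, rename Fin.val v = u := by
      rw [supported_eq_range_rename] at h3
      obtain ⟨v, hv⟩ := h3
      refine ⟨rename (fun i : Set.Iio n => (⟨i.1, i.2⟩ : Fin n)) v, ?_⟩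
      rw [rename_rename, ← hv]
      rfl
    obtain ⟨v, rfl⟩ := h4
    refine ⟨v, ?_, rfl⟩
    exact (IsHomogeneous.rename_isHomogeneous_iff Fin.val_injective).1 h2
  · rintro ⟨v, hv, rfl⟩
    refine ⟨?_, IsHomogeneous.rename_isHomogeneous hv⟩
    have h1 : v ∈ supported K (Set.univ : Set (Fin n)) := by
      rw [supported_univ]; trivial
    exact rename_mem h1 (fun i _ => i.2)

instance (n d : ℕ) : Module.Finite K (homogeneousSubmodule (Fin n) K d) :=
  Module.Finite.iff_fg.2 (homogeneousSubmodule_fg (σ := Fin n) (R := K) d)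

theorem BB_fg (n d : ℕ) : (BB K n d).FG := by
  rw [BB_eq]
  exact (homogeneousSubmodule_fg (σ := Fin n) (R := K) d).map _

/-- the relations of degree `d` at level `n` -/
noncomputable def ZB (Δ : MvPolynomial ℕ K) (n d : ℕ) : Submodule K (MvPolynomial ℕ K) :=
  Submodule.span K {z | ∃ a : Equiv.Perm (Fin n) → K, ap a Δ = 0 ∧ ∃ w ∈ BB K n d, z = st a w}

theorem ZB_mono (Δ : MvPolynomial ℕ K) {n m : ℕ} (h : n ≤ m) (d : ℕ) : ZB Δ n d ≤ ZB Δ m d := by
  classical
  unfold ZB
  rw [Submodule.span_le]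
  rintro _ ⟨a, ha, w, hw, rfl⟩
  have h1 : ∀ σ : Equiv.Perm (Fin n), ∃ τ : Equiv.Perm (Fin m), ext m τ = ext n σ := by
    intro σ
    apply exists_ext
    intro i hi
    exact ext_ge n σ (h.trans hi)
  choose lf hlf using h1
  have key : ∀ F : Equiv.Perm (Fin m) → MvPolynomial ℕ K,
      ∑ τ, (∑ σ, if lf σ = τ then a σ else 0) • F τ = ∑ σ, a σ • F (lf σ) := by
    intro F
    simp_rw [Finset.sum_smul]
    rw [Finset.sum_comm]
    apply Finset.sum_congr rfl
    intro σ _
    simp only [ite_smul, zero_smul]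
    rw [Finset.sum_ite_eq]
    simp
  apply Submodule.subset_span
  refine ⟨fun τ => ∑ σ, if lf σ = τ then a σ else 0, ?_, w, BB_mono h d hw, ?_⟩
  · unfold ap
    rw [key]
    simp_rw [hlf]
    exact ha
  · rw [st_apply, st_apply, key]
    apply Finset.sum_congr rfl
    intro σ _
    rw [← ext_inv, ← ext_inv, hlf]

theorem ZB_le_Zn (Δ : MvPolynomial ℕ K) (n d : ℕ) : ZB Δ n d ≤ Zn Δ n := by
  apply Submodule.span_mono
  rintro _ ⟨a, ha, w, _, rfl⟩
  exact ⟨a, ha, w, rfl⟩

/-- homogeneous relations come from relations of finite level -/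
theorem hc_Z_mem_ZB {Δ z : MvPolynomial ℕ K} (hz : z ∈ Z Δ) (d : ℕ) :
    ∃ n, homogeneousComponent d z ∈ ZB Δ n d := by
  obtain ⟨n, hn⟩ := mem_Z.1 hz
  induction hn using Submodule.span_induction with
  | mem x hx =>
    obtain ⟨a, ha, w, rfl⟩ := hx
    obtain ⟨k, hk⟩ := exists_S w
    -- lift `a` to level `max n k`
    have h1 : st a (homogeneousComponent d w) ∈ Zn Δ n := st_mem_Zn ha _
    rw [hc_st]
    -- redo the monotonicity argument
    classical
    have h0 : ∀ σ : Equiv.Perm (Fin n), ∃ τ : Equiv.Perm (Fin (max n k)),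
        ext (max n k) τ = ext n σ := by
      intro σ
      apply exists_ext
      intro i hi
      exact ext_ge n σ ((le_max_left n k).trans hi)
    choose lf hlf using h0
    have key : ∀ F : Equiv.Perm (Fin (max n k)) → MvPolynomial ℕ K,
        ∑ τ, (∑ σ, if lf σ = τ then a σ else 0) • F τ = ∑ σ, a σ • F (lf σ) := by
      intro F
      simp_rw [Finset.sum_smul]
      rw [Finset.sum_comm]
      apply Finset.sum_congr rfl
      intro σ _
      simp only [ite_smul, zero_smul]
      rw [Finset.sum_ite_eq]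
      simp
    refine ⟨max n k, Submodule.subset_span ⟨fun τ => ∑ σ, if lf σ = τ then a σ else 0, ?_,
      homogeneousComponent d w, ⟨?_, homogeneousComponent_isHomogeneous _ _⟩, ?_⟩⟩
    · unfold ap
      rw [key]
      simp_rw [hlf]
      exact ha
    · exact hc_mem_S (S_mono (le_max_right n k) hk) d
    · rw [st_apply, st_apply, key]
      apply Finset.sum_congr rfl
      intro σ _
      rw [← ext_inv, ← ext_inv, hlf]
  | zero => exact ⟨0, by simp⟩
  | add x y hx' hy' hx hy =>
    obtain ⟨n1, h1⟩ := hx (Zn_le_Z Δ n hx')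
    obtain ⟨n2, h2⟩ := hy (Zn_le_Z Δ n hy')
    refine ⟨max n1 n2, ?_⟩
    rw [map_add]
    exact add_mem (ZB_mono Δ (le_max_left _ _) d h1) (ZB_mono Δ (le_max_right _ _) d h2)
  | smul c x hx' hx =>
    obtain ⟨n1, h1⟩ := hx (Zn_le_Z Δ n hx')
    refine ⟨n1, ?_⟩
    rw [map_smul]
    exact Submodule.smul_mem _ _ h1

/-- a finite set of indices `≥ m` can be moved close to `m` without leaving the indices `< n` -/
theorem exists_move' (m N n : ℕ) (hn : m + N ≤ n) (B : Finset ℕ) (hB : ∀ b ∈ B, m ≤ b)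
    (hBn : ∀ b ∈ B, b < n) (hN : B.card ≤ N) :
    ∃ τ : Equiv.Perm ℕ, (∀ l, l < m → τ l = l) ∧ (∀ l, n ≤ l → τ l = l) ∧
      (∀ b ∈ B, τ b < m + N) := by
  classical
  obtain ⟨c, hc⟩ : ∃ c, (B.filter (fun b => m + N ≤ b)).card = c := ⟨_, rfl⟩
  induction c generalizing B with
  | zero =>
    rw [Finset.card_eq_zero, Finset.filter_eq_empty_iff] at hc
    refine ⟨1, fun l _ => rfl, fun l _ => rfl, ?_⟩
    intro b hb
    have := hc hb
    simp only [Equiv.Perm.coe_one, id]
    omega
  | succ c ih =>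
    obtain ⟨b, hb⟩ := Finset.card_pos.1 (by omega : 0 < (B.filter (fun b => m + N ≤ b)).card)
    rw [Finset.mem_filter] at hb
    -- a free place
    obtain ⟨a, ha1, ha2, ha3⟩ : ∃ a, m ≤ a ∧ a < m + N ∧ a ∉ B := by
      by_contra h
      push Not at h
      have h1 : insert b (Finset.Ico m (m + N)) ⊆ B := by
        intro x hx
        rw [Finset.mem_insert, Finset.mem_Ico] at hx
        rcases hx with rfl | hx
        · exact hb.1
        · exact h x hx.1 hx.2
      have h2 := Finset.card_le_card h1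
      rw [Finset.card_insert_of_notMem, Nat.card_Ico] at h2
      · omega
      · rw [Finset.mem_Ico]; omega
    let B' := insert a (B.erase b)
    have h1 : ∀ x ∈ B', m ≤ x := by
      intro x hx
      simp only [B', Finset.mem_insert, Finset.mem_erase] at hx
      rcases hx with rfl | hx
      · exact ha1
      · exact hB x hx.2
    have h1' : ∀ x ∈ B', x < n := by
      intro x hx
      simp only [B', Finset.mem_insert, Finset.mem_erase] at hx
      rcases hx with rfl | hx
      · omega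
      · exact hBn x hx.2
    have h2 : B'.card ≤ N := by
      have : B'.card ≤ (B.erase b).card + 1 := Finset.card_insert_le _ _
      rw [Finset.card_erase_of_mem hb.1] at this
      have := Finset.card_pos.2 ⟨b, hb.1⟩
      omega
    have h3 : (B'.filter (fun b => m + N ≤ b)).card = c := by
      have : B'.filter (fun b => m + N ≤ b) = (B.filter (fun b => m + N ≤ b)).erase b := by
        ext x
        simp only [B', Finset.mem_filter, Finset.mem_insert, Finset.mem_erase]
        constructor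
        · rintro ⟨rfl | ⟨h4, h5⟩, h6⟩
          · omega
          · exact ⟨h4, h5, h6⟩
        · rintro ⟨h4, h5, h6⟩
          exact ⟨Or.inr ⟨h4, h5⟩, h6⟩
      rw [this, Finset.card_erase_of_mem, hc]
      · rfl
      · rw [Finset.mem_filter]; exact hb
    obtain ⟨τ, ht1, ht3, ht2⟩ := ih B' h1 h1' h2 h3
    have hbn := hBn b hb.1
    refine ⟨τ * Equiv.swap a b, ?_, ?_, ?_⟩
    · intro l hl
      rw [Equiv.Perm.mul_apply, Equiv.swap_apply_of_ne_of_ne (by omega) (by omega)]
      exact ht1 l hl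
    · intro l hl
      rw [Equiv.Perm.mul_apply, Equiv.swap_apply_of_ne_of_ne (by omega) (by omega)]
      exact ht3 l hl
    · intro x hx
      rw [Equiv.Perm.mul_apply]
      by_cases hxb : x = b
      · subst hxb
        rw [Equiv.swap_apply_right]
        exact ht2 a (Finset.mem_insert_self _ _)
      · have hxa : x ≠ a := by
          rintro rfl; exact ha3 hx
        rw [Equiv.swap_apply_of_ne_of_ne hxa hxb]
        exact ht2 x (Finset.mem_insert_of_mem (Finset.mem_erase.2 ⟨hxb, hx⟩))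

/-- moving by a permutation fixing the indices `< m` -/
theorem rename_sub_mem_ZB {Δ : MvPolynomial ℕ K} {m : ℕ} (hΔ : Δ ∈ S K m) (τ : Equiv.Perm ℕ)
    (h1 : ∀ i, i < m → τ i = i) {n : ℕ} (h2 : ∀ i, n ≤ i → τ i = i) {d : ℕ}
    {w : MvPolynomial ℕ K} (hw : w ∈ BB K n d) : rename τ w - w ∈ ZB Δ n d := by
  classical
  obtain ⟨σ, rfl⟩ := exists_ext τ h2
  have h3 : rename (ext n σ⁻¹) Δ = Δ := by
    apply rename_self hΔ
    intro i hi
    rw [← ext_inv, Equiv.Perm.inv_eq_iff_eq]
    exact (h1 i hi).symm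
  have key : ∀ F : Equiv.Perm (Fin n) → MvPolynomial ℕ K,
      ∑ τ, ((Pi.single σ⁻¹ 1 - Pi.single 1 1 : Equiv.Perm (Fin n) → K) τ) • F τ
        = F σ⁻¹ - F 1 := by
    intro F
    simp only [Pi.sub_apply, sub_smul, Finset.sum_sub_distrib]
    congr 1
    · rw [Finset.sum_eq_single σ⁻¹]
      · simp
      · intro b _ hb
        rw [Pi.single_eq_of_ne hb, zero_smul]
      · simp
    · rw [Finset.sum_eq_single 1]
      · simp
      · intro b _ hb
        rw [Pi.single_eq_of_ne hb, zero_smul]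
      · simp
  have h4 : st (Pi.single σ⁻¹ 1 - Pi.single 1 1 : Equiv.Perm (Fin n) → K) w =
      rename (ext n σ) w - w := by
    rw [st_apply, key]
    simp [ext_one]
  rw [← h4]
  refine Submodule.subset_span ⟨_, ?_, w, hw, rfl⟩
  unfold ap
  rw [key, h3]
  simp [ext_one]

/-- reduction to the first `m + d` variables -/
theorem exists_reduce {Δ : MvPolynomial ℕ K} {m : ℕ} (hΔ : Δ ∈ S K m) {n d : ℕ}
    (hn : m + d ≤ n) {u : MvPolynomial ℕ K} (hu : u ∈ BB K n d) :
    ∃ u' ∈ BB K (m + d) d, u - u' ∈ ZB Δ n d := by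
  classical
  have h1 : ∀ β ∈ u.support, ∃ v ∈ BB K (m + d) d, monomial β (coeff β u) - v ∈ ZB Δ n d := by
    intro β hβ
    have hdeg : β.degree = d := by
      by_contra h
      exact (mem_support_iff.1 hβ) (hu.2.coeff_eq_zero h)
    have hsupp : ∀ x ∈ β.support, x < n := by
      intro x hx
      have h2 := (mem_supported.1 hu.1)
      exact h2 (Finset.mem_coe.2 ((mem_vars_iff_mem_support _).2 ⟨β, hβ, hx⟩))
    have hcard : β.support.card ≤ d := by
      rw [← hdeg, Finsupp.degree_apply, Finset.card_eq_sum_ones]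
      apply Finset.sum_le_sum
      intro x hx
      have := Finsupp.mem_support_iff.1 hx
      omega
    obtain ⟨τ, ht1, ht2, ht3⟩ := exists_move' m d n hn (β.support.filter (fun b => m ≤ b))
      (fun b hb => (Finset.mem_filter.1 hb).2) (fun b hb => hsupp b (Finset.mem_filter.1 hb).1)
      ((Finset.card_filter_le _ _).trans hcard)
    have hmonS : ∀ s : Set ℕ, (∀ x ∈ β.support, x ∈ s) →
        monomial β (coeff β u) ∈ supported K s := by
      intro s hs
      rw [mem_supported]
      intro x hx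
      rw [Finset.mem_coe, mem_vars_iff_mem_support] at hx
      obtain ⟨e, he, hxe⟩ := hx
      have he' := support_monomial_subset he
      rw [Finset.mem_singleton] at he'
      subst he'
      exact hs x hxe
    have hmonB : monomial β (coeff β u) ∈ BB K n d :=
      ⟨hmonS _ (fun x hx => hsupp x hx), isHomogeneous_monomial _ hdeg⟩
    refine ⟨rename τ (monomial β (coeff β u)), ⟨?_, ?_⟩, ?_⟩
    · apply rename_mem (hmonS (β.support : Set ℕ) (fun x hx => Finset.mem_coe.2 hx))
      intro x hx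
      rw [Set.mem_Iio]
      by_cases hxm : m ≤ x
      · exact ht3 x (Finset.mem_filter.2 ⟨Finset.mem_coe.1 hx, hxm⟩)
      · rw [ht1 x (by omega)]; omega
    · exact (isHomogeneous_monomial _ hdeg).rename_isHomogeneous
    · have := neg_mem (rename_sub_mem_ZB hΔ τ ht1 ht2 hmonB)
      rwa [neg_sub] at this
  choose! v hv1 hv2 using h1
  refine ⟨∑ β ∈ u.support, v β, Submodule.sum_mem _ hv1, ?_⟩
  have h2 : u - ∑ β ∈ u.support, v β = ∑ β ∈ u.support, (monomial β (coeff β u) - v β) := by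
    rw [Finset.sum_sub_distrib, ← u.as_sum]
  rw [h2]
  exact Submodule.sum_mem _ hv2

theorem hc_of_BB {n d : ℕ} {u : MvPolynomial ℕ K} (hu : u ∈ BB K n d) :
    homogeneousComponent d u = u := homogeneousComponent_eq_self hu.2

theorem ZB_le_BB (Δ : MvPolynomial ℕ K) (n d : ℕ) : ZB Δ n d ≤ BB K n d := by
  unfold ZB
  rw [Submodule.span_le]
  rintro _ ⟨a, _, w, hw, rfl⟩
  rw [st_apply]
  apply Submodule.sum_mem
  intro σ _
  apply Submodule.smul_mem
  exact ⟨rename_mem hw.1 (fun i hi => ext_lt n _ hi), hw.2.rename_isHomogeneous⟩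

/-- at high levels, membership in `I + Z` is decided at that level -/
theorem exists_level {I : Ideal (MvPolynomial ℕ K)} (hI : IsHom I) {Δ : MvPolynomial ℕ K} {m : ℕ}
    (hΔ : Δ ∈ S K m) (d : ℕ) :
    ∃ N, m + d ≤ N ∧ ∀ n, N ≤ n → ∀ u ∈ BB K n d, u ∈ SI I Δ →
      u ∈ (I.restrictScalars K ⊓ BB K n d) ⊔ ZB Δ n d := by
  have hmono : Monotone (fun n => (I.restrictScalars K ⊓ BB K n d) ⊔ ZB Δ n d) := by
    intro n n' h
    exact sup_le_sup (inf_le_inf le_rfl (BB_mono h d)) (ZB_mono Δ h d)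
  -- the finite dimensional space at level `m + d`
  have h1 : (BB K (m + d) d ⊓ SI I Δ).FG := by
    have : Module.Finite K (BB K (m + d) d) := Module.Finite.iff_fg.2 (BB_fg _ _)
    exact Submodule.FG.of_le (BB_fg (m + d) d) inf_le_left
  have h2 : ∀ u ∈ BB K (m + d) d ⊓ SI I Δ,
      ∃ n, u ∈ (I.restrictScalars K ⊓ BB K n d) ⊔ ZB Δ n d := by
    rintro u ⟨hu1, hu2⟩
    obtain ⟨g, hg, z, hz, rfl⟩ := mem_SI.1 hu2
    obtain ⟨n, hn⟩ := hc_Z_mem_ZB hz d
    obtain ⟨k, hk⟩ := exists_S g
    refine ⟨max n k, ?_⟩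
    rw [← hc_of_BB hu1, map_add]
    apply Submodule.add_mem_sup
    · refine ⟨hI g hg d, ?_⟩
      exact ⟨hc_mem_S (S_mono (le_max_right n k) hk) d, homogeneousComponent_isHomogeneous _ _⟩
    · exact ZB_mono Δ (le_max_left n k) d hn
  obtain ⟨G, hG⟩ := h1
  have h3 : ∃ N, ∀ u ∈ G, u ∈ (I.restrictScalars K ⊓ BB K N d) ⊔ ZB Δ N d := by
    have h4 : ∀ u ∈ G, ∃ n, u ∈ (I.restrictScalars K ⊓ BB K n d) ⊔ ZB Δ n d := by
      intro u hu
      apply h2
      rw [← hG]
      exact Submodule.subset_span hu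
    choose! nn hnn using h4
    refine ⟨G.sup nn, fun u hu => ?_⟩
    exact hmono (Finset.le_sup hu) (hnn u hu)
  obtain ⟨N, hN⟩ := h3
  have h5 : BB K (m + d) d ⊓ SI I Δ ≤ (I.restrictScalars K ⊓ BB K N d) ⊔ ZB Δ N d := by
    rw [← hG, Submodule.span_le]
    intro u hu
    exact hN u hu
  refine ⟨max N (m + d), le_max_right _ _, ?_⟩
  intro n hn u hu1 hu2
  obtain ⟨u', hu', hz⟩ := exists_reduce hΔ ((le_max_right N (m + d)).trans hn) hu1
  have h6 : u' ∈ SI I Δ := by
    have h7 : u - u' ∈ SI I Δ := Z_le_SI I Δ (Zn_le_Z Δ n (ZB_le_Zn Δ n d hz))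
    have := sub_mem hu2 h7
    rwa [sub_sub_cancel] at this
  have h8 := hmono ((le_max_left N (m + d)).trans hn) (h5 ⟨hu', h6⟩)
  have h9 : u = u' + (u - u') := by ring
  rw [h9]
  exact add_mem h8 (Submodule.mem_sup_right hz)

end Pool.Agent.H408.Iso
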