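import Pool.Agent.H408.Iso.FG

set_option autoImplicit false

open MvPolynomial

namespace Pool.Agent.H408.Iso

universe u

variable {K : Type u} [Field K]

/-- a finite set of indices `≥ m` can be moved close to `m` by a finitary permutation fixing the
indices `< m` -/
theorem exists_move (m N : ℕ) (B : Finset ℕ) (hB : ∀ b ∈ B, m ≤ b) (hN : B.card ≤ N) :
    ∃ τ : Equiv.Perm ℕ, (∀ l, l < m → τ l = l) ∧ (∃ n, ∀ l, n ≤ l → τ l = l) ∧
      (∀ b ∈ B, τ b < m + N) := by
  classical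
  obtain ⟨c, hc⟩ : ∃ c, (B.filter (fun b => m + N ≤ b)).card = c := ⟨_, rfl⟩
  induction c generalizing B with
  | zero =>
    rw [Finset.card_eq_zero, Finset.filter_eq_empty_iff] at hc
    refine ⟨1, fun l _ => rfl, ⟨0, fun l _ => rfl⟩, ?_⟩
    intro b hb
    have := hc hb
    simp only [Equiv.Perm.coe_one, id]
    omega
  | succ c ih =>
    obtain ⟨b, hb⟩ := Finset.card_pos.1 (by omega : 0 < (B.filter (fun b => m + N ≤ b)).card)
    rw [Finset.mem_filter] at hb
    -- a free place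
    obtain ⟨a, ha1, ha2, ha3⟩ : ∃ a, m ≤ a ∧ a < m + N ∧ a ∉ B := by
      by_contra h
      push Not at h
      have h1 : insert b (Finset.Ico m (m + N)) ⊆ B := by
        intro x hx
        rw [Finset.mem_insert, Finset.mem_Ico] at hx
        rcases hx with rfl | hx
        · exact hb.1
        · exact h x hx.1 hx.2
      have h2 := Finset.card_le_card h1
      rw [Finset.card_insert_of_notMem, Nat.card_Ico] at h2
      · omega
      · rw [Finset.mem_Ico]; omega
    let B' := insert a (B.erase b)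
    have h1 : ∀ x ∈ B', m ≤ x := by
      intro x hx
      simp only [B', Finset.mem_insert, Finset.mem_erase] at hx
      rcases hx with rfl | hx
      · exact ha1
      · exact hB x hx.2
    have h2 : B'.card ≤ N := by
      have : B'.card ≤ (B.erase b).card + 1 := Finset.card_insert_le _ _
      rw [Finset.card_erase_of_mem hb.1] at this
      have := Finset.card_pos.2 ⟨b, hb.1⟩
      omega
    have h3 : (B'.filter (fun b => m + N ≤ b)).card = c := by
      have : B'.filter (fun b => m + N ≤ b) = (B.filter (fun b => m + N ≤ b)).erase b := by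
        ext x
        simp only [B', Finset.mem_filter, Finset.mem_insert, Finset.mem_erase]
        constructor
        · rintro ⟨rfl | ⟨h4, h5⟩, h6⟩
          · omega
          · exact ⟨h4, h5, h6⟩
        · rintro ⟨h4, h5, h6⟩
          exact ⟨Or.inr ⟨h4, h5⟩, h6⟩
      rw [this, Finset.card_erase_of_mem, hc]
      · rfl
      · rw [Finset.mem_filter]; exact hb
    obtain ⟨τ, ht1, ⟨n, hn⟩, ht2⟩ := ih B' h1 h2 h3
    refine ⟨τ * Equiv.swap a b, ?_, ⟨max n (b + 1), ?_⟩, ?_⟩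
    · intro l hl
      rw [Equiv.Perm.mul_apply, Equiv.swap_apply_of_ne_of_ne (by omega) (by omega)]
      exact ht1 l hl
    · intro l hl
      rw [Equiv.Perm.mul_apply, Equiv.swap_apply_of_ne_of_ne (by omega) (by omega)]
      exact hn l (by omega)
    · intro x hx
      rw [Equiv.Perm.mul_apply]
      by_cases hxb : x = b
      · subst hxb
        rw [Equiv.swap_apply_right]
        exact ht2 a (Finset.mem_insert_self _ _)
      · have hxa : x ≠ a := by
          rintro rfl; exact ha3 hx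
        rw [Equiv.swap_apply_of_ne_of_ne hxa hxb]
        exact ht2 x (Finset.mem_insert_of_mem (Finset.mem_erase.2 ⟨hxb, hx⟩))

variable {I : Ideal (MvPolynomial ℕ K)} {Δ f : MvPolynomial ℕ K} {m k r : ℕ}
  {c : ℕ → MvPolynomial ℕ K}

theorem fg_all [CharZero K] (hΔ : Δ ∈ S K m) (hf : f ∈ S K k) (hr : 1 ≤ r)
    (hsym : ∀ σ : Equiv.Perm ℕ, ∀ f ∈ I, rename σ f ∈ I)
    (hrel : ∀ j, k ≤ j → (X j ^ r + ∑ i ∈ Finset.range r, c i * X j ^ i) * f ∈ I)
    (hc : ∀ i, i < r → ∀ h, Phi f 1 h ∈ SI I Δ → Phi f (c i) h ∈ SI I Δ)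
    (T : Submodule K (CC I Δ f))
    (hT1 : ∀ i (hi : i < r), ∀ x ∈ T, eop (hc i hi) x ∈ T)
    (hT2 : ∀ i, 1 ≤ i → i ≤ r * (m + k + 1) → ∀ x ∈ T, popC I hΔ f i x ∈ T)
    (hT3 : ∀ (β : ℕ →₀ ℕ) (σ : Equiv.Perm ℕ), (∀ s, β s < r * (m + k + 1)) →
      (∀ s, m + k + 1 ≤ s → β s = 0) → (∀ l, l < k → σ l < m + k + 1) →
      cl I Δ f σ (monomial β 1) ∈ T) : T = ⊤ := by
  classical
  have h0 := fg_main hΔ hf hr hsym hrel hc T hT1 hT2 hT3
  -- all polynomials
  have h1 : ∀ (u : MvPolynomial ℕ K) (σ : Equiv.Perm ℕ),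
      (∀ l, l < k → σ l < m + k + 1) → cl I Δ f σ u ∈ T := by
    intro u σ hσ
    rw [← sum_homogeneousComponent u, map_sum]
    apply T.sum_mem
    intro d _
    exact h0 d _ (homogeneousComponent_isHomogeneous d u) σ hσ
  -- all permutations
  have h2 : ∀ (u : MvPolynomial ℕ K) (σ : Equiv.Perm ℕ), cl I Δ f σ u ∈ T := by
    intro u σ
    let B : Finset ℕ := ((Finset.range k).image σ).filter (fun b => m ≤ b)
    have hB1 : ∀ b ∈ B, m ≤ b := fun b hb => (Finset.mem_filter.1 hb).2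
    have hB2 : B.card ≤ k := by
      refine (Finset.card_filter_le _ _).trans (Finset.card_image_le.trans ?_)
      rw [Finset.card_range]
    obtain ⟨τ, ht1, ⟨n, hn⟩, ht2⟩ := exists_move m k B hB1 hB2
    rw [cl_move hΔ ht1 hn σ u]
    apply h1
    intro l hl
    rw [Equiv.Perm.mul_apply]
    by_cases hm : σ l < m
    · rw [ht1 _ hm]; omega
    · have : σ l ∈ B := by
        rw [Finset.mem_filter, Finset.mem_image]
        exact ⟨⟨l, Finset.mem_range.2 hl, rfl⟩, by omega⟩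
      have := ht2 _ this
      omega
  rw [eq_top_iff]
  rintro x -
  obtain ⟨h, rfl⟩ := CC_ind x
  have h3 : (⟨PhiQ I Δ f 1 h, PhiQ_mem I Δ f 1 h⟩ : CC I Δ f) =
      ((PhiQ I Δ f 1).codRestrict (CC I Δ f) (PhiQ_mem I Δ f 1)) h := rfl
  rw [h3, ← Finsupp.sum_single h, Finsupp.sum, map_sum]
  apply T.sum_mem
  intro σ _
  exact h2 (h σ) σ

/-- a finite generating set -/
theorem fg_finset [CharZero K] (hΔ : Δ ∈ S K m) (hf : f ∈ S K k) (hr : 1 ≤ r)
    (hsym : ∀ σ : Equiv.Perm ℕ, ∀ f ∈ I, rename σ f ∈ I)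
    (hrel : ∀ j, k ≤ j → (X j ^ r + ∑ i ∈ Finset.range r, c i * X j ^ i) * f ∈ I)
    (hc : ∀ i, i < r → ∀ h, Phi f 1 h ∈ SI I Δ → Phi f (c i) h ∈ SI I Δ) :
    ∃ G : Finset (CC I Δ f), ∀ T : Submodule K (CC I Δ f), (↑G ⊆ (T : Set (CC I Δ f))) →
      (∀ i (hi : i < r), ∀ x ∈ T, eop (hc i hi) x ∈ T) →
      (∀ i, 1 ≤ i → i ≤ r * (m + k + 1) → ∀ x ∈ T, popC I hΔ f i x ∈ T) → T = ⊤ := by
  classical
  let M := r * (m + k + 1)
  let G : Set (CC I Δ f) := {x | ∃ (β : ℕ →₀ ℕ) (σ : Equiv.Perm ℕ), (∀ s, β s < M) ∧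
      (∀ s, m + k + 1 ≤ s → β s = 0) ∧ (∀ l, l < k → σ l < m + k + 1) ∧
      x = cl I Δ f σ (monomial β 1)}
  let q : (Fin (m + k + 1) → Fin M) × (Fin k → Fin (m + k + 1)) →
      (MvPolynomial ℕ K ⧸ SI I Δ) := fun p => Submodule.Quotient.mk
        (monomial (Finsupp.onFinset (Finset.range (m + k + 1))
          (fun s => if h : s < m + k + 1 then (p.1 ⟨s, h⟩ : ℕ) else 0)
          (by
            intro s hs
            rw [Finset.mem_range]
            by_contra h
            rw [dif_neg h] at hs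
            exact hs rfl)) 1 *
          rename (fun l => if h : l < k then (p.2 ⟨l, h⟩ : ℕ) else 0) f)
  have hG : G.Finite := by
    apply Set.Finite.of_finite_image (f := fun x : CC I Δ f =>
      (x : MvPolynomial ℕ K ⧸ SI I Δ)) _ Subtype.val_injective.injOn
    apply (Set.finite_range q).subset
    rintro _ ⟨x, ⟨β, σ, h1, h2, h3, rfl⟩, rfl⟩
    refine ⟨(fun s => ⟨β s, h1 s⟩, fun l => ⟨σ l, h3 l l.2⟩), ?_⟩
    simp only [q]
    rw [cl_coe]
    congr 2
    · refine congrArg (fun b => monomial b (1 : K)) ?_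
      ext s
      rw [Finsupp.onFinset_apply]
      split_ifs with h
      · rfl
      · exact (h2 s (by omega)).symm
    · apply rename_congr hf
      intro l hl
      rw [Set.mem_Iio] at hl
      rw [dif_pos hl]
  refine ⟨hG.toFinset, ?_⟩
  intro T hT hT1 hT2
  apply fg_all hΔ hf hr hsym hrel hc T hT1 hT2
  intro β σ h1 h2 h3
  apply hT
  rw [Set.Finite.coe_toFinset]
  exact ⟨β, σ, h1, h2, h3, rfl⟩

end Pool.Agent.H408.Iso
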