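import Pool.Agent.H408.Iso.Eta

set_option autoImplicit false

open MvPolynomial

namespace Pool.Agent.H408.Iso

universe u

variable {K : Type u} [Field K]

/-- permutations fixing the first `m` and almost all variables act trivially modulo `Z` -/
theorem rename_sub_mem_Z {Δ : MvPolynomial ℕ K} {m : ℕ} (hΔ : Δ ∈ S K m) (τ : Equiv.Perm ℕ)
    (h1 : ∀ i, i < m → τ i = i) {n : ℕ} (h2 : ∀ i, n ≤ i → τ i = i) (w : MvPolynomial ℕ K) :
    rename τ w - w ∈ Z Δ := by
  classical
  obtain ⟨σ, rfl⟩ := exists_ext τ h2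
  apply Zn_le_Z Δ n
  have h3 : rename (ext n σ⁻¹) Δ = Δ := by
    apply rename_self hΔ
    intro i hi
    rw [← ext_inv, Equiv.Perm.inv_eq_iff_eq]
    exact (h1 i hi).symm
  have key : ∀ F : Equiv.Perm (Fin n) → MvPolynomial ℕ K,
      ∑ τ, ((Pi.single σ⁻¹ 1 - Pi.single 1 1 : Equiv.Perm (Fin n) → K) τ) • F τ
        = F σ⁻¹ - F 1 := by
    intro F
    simp only [Pi.sub_apply, sub_smul, Finset.sum_sub_distrib]
    congr 1
    · rw [Finset.sum_eq_single σ⁻¹]
      · simp
      · intro b _ hb
        rw [Pi.single_eq_of_ne hb, zero_smul]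
      · simp
    · rw [Finset.sum_eq_single 1]
      · simp
      · intro b _ hb
        rw [Pi.single_eq_of_ne hb, zero_smul]
      · simp
  have h4 : st (Pi.single σ⁻¹ 1 - Pi.single 1 1 : Equiv.Perm (Fin n) → K) w =
      rename (ext n σ) w - w := by
    rw [st_apply, key]
    simp [ext_one]
  rw [← h4]
  apply st_mem_Zn
  unfold ap
  rw [key, h3]
  simp [ext_one]

theorem swap_sub_mem_Z {Δ : MvPolynomial ℕ K} {m : ℕ} (hΔ : Δ ∈ S K m) {i j : ℕ}
    (hi : m ≤ i) (hj : m ≤ j) (w : MvPolynomial ℕ K) :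
    rename (Equiv.swap i j) w - w ∈ Z Δ := by
  apply rename_sub_mem_Z hΔ (n := max i j + 1)
  · intro k hk
    apply Equiv.swap_apply_of_ne_of_ne <;> omega
  · intro k hk
    apply Equiv.swap_apply_of_ne_of_ne <;> omega

theorem mul_mem_Zn {Δ : MvPolynomial ℕ K} {n : ℕ} {q z : MvPolynomial ℕ K}
    (hq : ∀ σ : Equiv.Perm (Fin n), rename (ext n σ) q = q) (hz : z ∈ Zn Δ n) :
    q * z ∈ Zn Δ n := by
  induction hz using Submodule.span_induction with
  | mem x hx =>
    obtain ⟨a, ha, w, rfl⟩ := hx
    have : q * st a w = st a (q * w) := by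
      rw [st_apply, st_apply, Finset.mul_sum]
      apply Finset.sum_congr rfl
      intro σ _
      rw [map_mul, hq, mul_smul_comm]
    rw [this]
    exact st_mem_Zn ha _
  | zero => simp
  | add x y _ _ hx hy => rw [mul_add]; exact add_mem hx hy
  | smul c x _ hx => rw [mul_smul_comm]; exact Submodule.smul_mem _ _ hx

theorem hc_st {n : ℕ} (a : Equiv.Perm (Fin n) → K) (d : ℕ) (w : MvPolynomial ℕ K) :
    homogeneousComponent d (st a w) = st a (homogeneousComponent d w) := by
  rw [st_apply, st_apply, map_sum]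
  apply Finset.sum_congr rfl
  intro σ _
  rw [map_smul, rename_homogeneousComponent]

theorem hc_mem_Zn {Δ : MvPolynomial ℕ K} {n : ℕ} (d : ℕ) {z : MvPolynomial ℕ K}
    (hz : z ∈ Zn Δ n) : homogeneousComponent d z ∈ Zn Δ n := by
  induction hz using Submodule.span_induction with
  | mem x hx =>
    obtain ⟨a, ha, w, rfl⟩ := hx
    rw [hc_st]
    exact st_mem_Zn ha _
  | zero => simp
  | add x y _ _ hx hy => rw [map_add]; exact add_mem hx hy
  | smul c x _ hx => rw [map_smul]; exact Submodule.smul_mem _ _ hx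

theorem hc_mem_Z {Δ : MvPolynomial ℕ K} (d : ℕ) {z : MvPolynomial ℕ K}
    (hz : z ∈ Z Δ) : homogeneousComponent d z ∈ Z Δ := by
  obtain ⟨n, hn⟩ := mem_Z.1 hz
  exact Zn_le_Z Δ n (hc_mem_Zn d hn)

theorem hc_mul {ι : Type} {q : MvPolynomial ι K} {i : ℕ} (hq : q.IsHomogeneous i) (d : ℕ)
    (u : MvPolynomial ι K) :
    homogeneousComponent (d + i) (q * u) = q * homogeneousComponent d u := by
  have h := sum_homogeneousComponent u
  conv_lhs => rw [← h]
  rw [Finset.mul_sum, map_sum]
  by_cases hd : d ≤ u.totalDegree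
  · rw [Finset.sum_eq_single d]
    · have h1 : (q * homogeneousComponent d u).IsHomogeneous (d + i) := by
        rw [add_comm]
        exact hq.mul (homogeneousComponent_isHomogeneous d u)
      exact homogeneousComponent_eq_self h1
    · intro b _ hb
      have h1 : (q * homogeneousComponent b u).IsHomogeneous (b + i) := by
        rw [add_comm]
        exact hq.mul (homogeneousComponent_isHomogeneous b u)
      rw [homogeneousComponent_of_mem ((mem_homogeneousSubmodule _ _).2 h1), if_neg]
      omega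
    · intro h2
      exact absurd (Finset.mem_range.2 (by omega)) h2
  · rw [homogeneousComponent_eq_zero d u (by omega), mul_zero]
    apply Finset.sum_eq_zero
    intro b hb
    have h1 : (q * homogeneousComponent b u).IsHomogeneous (b + i) := by
      rw [add_comm]
      exact hq.mul (homogeneousComponent_isHomogeneous b u)
    rw [homogeneousComponent_of_mem ((mem_homogeneousSubmodule _ _).2 h1), if_neg]
    rw [Finset.mem_range] at hb
    omega

theorem hc_mul_lt {ι : Type} {q : MvPolynomial ι K} {i : ℕ} (hq : q.IsHomogeneous i) {d : ℕ}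
    (hd : d < i) (u : MvPolynomial ι K) :
    homogeneousComponent d (q * u) = 0 := by
  have h := sum_homogeneousComponent u
  rw [← h, Finset.mul_sum, map_sum]
  apply Finset.sum_eq_zero
  intro b hb
  have h1 : (q * homogeneousComponent b u).IsHomogeneous (b + i) := by
    rw [add_comm]
    exact hq.mul (homogeneousComponent_isHomogeneous b u)
  rw [homogeneousComponent_of_mem ((mem_homogeneousSubmodule _ _).2 h1), if_neg]
  omega

/-- the polynomial `x_0^i + ... + x_{n-1}^i - (n+1) x_n^i` -/
noncomputable def qq (K : Type u) [Field K] (i n : ℕ) : MvPolynomial ℕ K :=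
  ∑ j ∈ Finset.range n, X j ^ i - ((n : K) + 1) • X n ^ i

theorem qq_mem (i n : ℕ) : qq K i n ∈ S K (n + 1) := by
  unfold qq
  apply sub_mem
  · apply sum_mem
    intro j hj
    rw [Finset.mem_range] at hj
    exact pow_mem (X_mem_S (by omega)) _
  · exact Subalgebra.smul_mem _ (pow_mem (X_mem_S (by omega)) _) _

theorem qq_homog (i n : ℕ) : (qq K i n).IsHomogeneous i := by
  unfold qq
  rw [← mem_homogeneousSubmodule]
  apply sub_mem
  · apply sum_mem
    intro j hj
    rw [mem_homogeneousSubmodule]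
    exact isHomogeneous_X_pow j i
  · apply Submodule.smul_mem
    rw [mem_homogeneousSubmodule]
    exact isHomogeneous_X_pow n i

theorem qq_symm (i n : ℕ) (σ : Equiv.Perm (Fin n)) : rename (ext n σ) (qq K i n) = qq K i n := by
  unfold qq
  rw [map_sub, map_sum, map_smul, map_pow, rename_X, ext_ge n σ le_rfl]
  congr 1
  simp only [map_pow, rename_X]
  rw [Finset.sum_range, Finset.sum_range]
  simp only [ext_coe]
  exact Equiv.sum_comp σ (fun j => (X (j : ℕ) : MvPolynomial ℕ K) ^ i)

theorem qq_succ {Δ : MvPolynomial ℕ K} {m : ℕ} (hΔ : Δ ∈ S K m) (i : ℕ) {n : ℕ} (hn : m ≤ n)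
    {u : MvPolynomial ℕ K} (hu : u ∈ S K n) :
    qq K i (n + 1) * u - qq K i n * u ∈ Z Δ := by
  have h1 : qq K i (n + 1) * u - qq K i n * u =
      -(((n : K) + 2) • (rename (Equiv.swap n (n + 1)) (X n ^ i * u) - X n ^ i * u)) := by
    have h2 : rename (Equiv.swap n (n + 1)) u = u := by
      apply rename_self hu
      intro k hk
      simp only [Set.mem_Iio] at hk
      apply Equiv.swap_apply_of_ne_of_ne <;> omega
    rw [map_mul, h2, map_pow, rename_X, Equiv.swap_apply_left]
    unfold qq
    rw [Finset.sum_range_succ]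
    push_cast
    simp only [MvPolynomial.smul_eq_C_mul, map_add, map_one, map_natCast]
    have : (C (2 : K) : MvPolynomial ℕ K) = 2 := map_ofNat C 2
    rw [this]
    ring
  rw [h1]
  exact neg_mem (Submodule.smul_mem _ _ (swap_sub_mem_Z hΔ hn (by omega) _))

theorem qq_stable {Δ : MvPolynomial ℕ K} {m : ℕ} (hΔ : Δ ∈ S K m) (i : ℕ) {n n' : ℕ} (hn : m ≤ n)
    (hn' : n ≤ n') {u : MvPolynomial ℕ K} (hu : u ∈ S K n) :
    qq K i n' * u - qq K i n * u ∈ Z Δ := by
  induction n', hn' using Nat.le_induction with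
  | base => simp
  | succ k hk ih =>
    have h1 := qq_succ hΔ i (hn.trans hk) (S_mono hk hu)
    have := add_mem h1 ih
    rwa [sub_add_sub_cancel] at this

end Pool.Agent.H408.Iso
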