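import Pool.Agent.H408.Iso.Ops

set_option autoImplicit false

open MvPolynomial

namespace Pool.Agent.H408.Iso

universe u

variable {K : Type u} [Field K]

/-- `I + Z` -/
noncomputable def SI (I : Ideal (MvPolynomial ℕ K)) (Δ : MvPolynomial ℕ K) :
    Submodule K (MvPolynomial ℕ K) := I.restrictScalars K ⊔ Z Δ

theorem I_le_SI (I : Ideal (MvPolynomial ℕ K)) (Δ : MvPolynomial ℕ K) {u : MvPolynomial ℕ K}
    (hu : u ∈ I) : u ∈ SI I Δ :=
  Submodule.mem_sup_left hu

theorem Z_le_SI (I : Ideal (MvPolynomial ℕ K)) (Δ : MvPolynomial ℕ K) {u : MvPolynomial ℕ K}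
    (hu : u ∈ Z Δ) : u ∈ SI I Δ :=
  Submodule.mem_sup_right hu

theorem mem_SI {I : Ideal (MvPolynomial ℕ K)} {Δ u : MvPolynomial ℕ K} :
    u ∈ SI I Δ ↔ ∃ g ∈ I, ∃ z ∈ Z Δ, g + z = u := by
  unfold SI
  rw [Submodule.mem_sup]
  rfl

/-- a bound for the variables of `u`, at least `m` -/
noncomputable def bd (m : ℕ) (u : MvPolynomial ℕ K) : ℕ := max m (u.vars.sup id + 1)

theorem mem_S_bd (m : ℕ) (u : MvPolynomial ℕ K) : u ∈ S K (bd m u) := by
  rw [mem_supported]
  intro i hi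
  have := Finset.le_sup (f := id) hi
  simp only [Set.mem_Iio, id, bd] at *
  omega

theorem le_bd (m : ℕ) (u : MvPolynomial ℕ K) : m ≤ bd m u := le_max_left _ _

theorem mk_qq_eq (I : Ideal (MvPolynomial ℕ K)) {Δ : MvPolynomial ℕ K} {m : ℕ} (hΔ : Δ ∈ S K m)
    (i : ℕ) {n n' : ℕ} (hn : m ≤ n) (hn' : m ≤ n') {u : MvPolynomial ℕ K}
    (hu : u ∈ S K n) (hu' : u ∈ S K n') :
    (Submodule.Quotient.mk (qq K i n * u) : _ ⧸ SI I Δ) = Submodule.Quotient.mk (qq K i n' * u) := by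
  have h1 := qq_stable hΔ i hn (le_max_left n n') hu
  have h2 := qq_stable hΔ i hn' (le_max_right n n') hu'
  rw [Submodule.Quotient.eq]
  apply Z_le_SI
  have := sub_mem h2 h1
  rwa [sub_sub_sub_cancel_left] at this

/-- the operator `p_i` on `P/(I+Z)`, on representatives -/
noncomputable def pop0 (I : Ideal (MvPolynomial ℕ K)) {Δ : MvPolynomial ℕ K} {m : ℕ}
    (hΔ : Δ ∈ S K m) (i : ℕ) : MvPolynomial ℕ K →ₗ[K] (MvPolynomial ℕ K ⧸ SI I Δ) where
  toFun u := Submodule.Quotient.mk (qq K i (bd m u) * u)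
  map_add' u v := by
    let n := max (bd m u) (max (bd m v) (bd m (u + v)))
    have h1 : bd m u ≤ n := le_max_left _ _
    have h2 : bd m v ≤ n := (le_max_left _ _).trans (le_max_right _ _)
    have h3 : bd m (u + v) ≤ n := (le_max_right _ _).trans (le_max_right _ _)
    rw [mk_qq_eq I hΔ i (le_bd m u) ((le_bd m u).trans h1) (mem_S_bd m u) (S_mono h1 (mem_S_bd m u)),
      mk_qq_eq I hΔ i (le_bd m v) ((le_bd m v).trans h2) (mem_S_bd m v) (S_mono h2 (mem_S_bd m v)),
      mk_qq_eq I hΔ i (le_bd m (u + v)) ((le_bd m (u + v)).trans h3) (mem_S_bd m _)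
        (S_mono h3 (mem_S_bd m _)), mul_add, Submodule.Quotient.mk_add]
  map_smul' c u := by
    let n := max (bd m u) (bd m (c • u))
    have h1 : bd m u ≤ n := le_max_left _ _
    have h2 : bd m (c • u) ≤ n := le_max_right _ _
    rw [mk_qq_eq I hΔ i (le_bd m u) ((le_bd m u).trans h1) (mem_S_bd m u) (S_mono h1 (mem_S_bd m u)),
      mk_qq_eq I hΔ i (le_bd m _) ((le_bd m _).trans h2) (mem_S_bd m _) (S_mono h2 (mem_S_bd m _)),
      mul_smul_comm, Submodule.Quotient.mk_smul, RingHom.id_apply]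

theorem pop0_eq (I : Ideal (MvPolynomial ℕ K)) {Δ : MvPolynomial ℕ K} {m : ℕ}
    (hΔ : Δ ∈ S K m) (i : ℕ) {n : ℕ} (hn : m ≤ n) {u : MvPolynomial ℕ K} (hu : u ∈ S K n) :
    pop0 I hΔ i u = Submodule.Quotient.mk (qq K i n * u) :=
  mk_qq_eq I hΔ i (le_bd m u) hn (mem_S_bd m u) hu

theorem pop0_ker (I : Ideal (MvPolynomial ℕ K)) {Δ : MvPolynomial ℕ K} {m : ℕ}
    (hΔ : Δ ∈ S K m) (i : ℕ) : SI I Δ ≤ LinearMap.ker (pop0 I hΔ i) := by
  intro u hu
  rw [LinearMap.mem_ker]
  obtain ⟨g, hg, z, hz, rfl⟩ := mem_SI.1 hu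
  rw [map_add]
  have h1 : pop0 I hΔ i g = 0 := by
    rw [pop0_eq I hΔ i (le_bd m g) (mem_S_bd m g), Submodule.Quotient.mk_eq_zero]
    exact I_le_SI I Δ (I.mul_mem_left _ hg)
  have h2 : pop0 I hΔ i z = 0 := by
    obtain ⟨n, hn⟩ := mem_Z.1 hz
    let n' := max n (bd m z)
    have h3 : n ≤ n' := le_max_left _ _
    have h4 : bd m z ≤ n' := le_max_right _ _
    rw [pop0_eq I hΔ i ((le_bd m z).trans h4) (S_mono h4 (mem_S_bd m z)),
      Submodule.Quotient.mk_eq_zero]
    apply Z_le_SI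
    apply Zn_le_Z Δ n'
    exact mul_mem_Zn (qq_symm i n') (Zn_mono Δ h3 hn)
  rw [h1, h2, add_zero]

/-- the operator `p_i` on `P/(I+Z)` -/
noncomputable def pop (I : Ideal (MvPolynomial ℕ K)) {Δ : MvPolynomial ℕ K} {m : ℕ}
    (hΔ : Δ ∈ S K m) (i : ℕ) : Module.End K (MvPolynomial ℕ K ⧸ SI I Δ) :=
  Submodule.liftQ _ (pop0 I hΔ i) (pop0_ker I hΔ i)

theorem pop_mk (I : Ideal (MvPolynomial ℕ K)) {Δ : MvPolynomial ℕ K} {m : ℕ}
    (hΔ : Δ ∈ S K m) (i : ℕ) {n : ℕ} (hn : m ≤ n) {u : MvPolynomial ℕ K} (hu : u ∈ S K n) :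
    pop I hΔ i (Submodule.Quotient.mk u) = Submodule.Quotient.mk (qq K i n * u) := by
  exact pop0_eq I hΔ i hn hu

theorem pop_comm (I : Ideal (MvPolynomial ℕ K)) {Δ : MvPolynomial ℕ K} {m : ℕ}
    (hΔ : Δ ∈ S K m) (i j : ℕ) : pop I hΔ i * pop I hΔ j = pop I hΔ j * pop I hΔ i := by
  apply LinearMap.ext
  intro x
  obtain ⟨u, rfl⟩ := Submodule.Quotient.mk_surjective _ x
  rw [Module.End.mul_apply, Module.End.mul_apply]
  set n := bd m u with hn
  have h1 : m ≤ n := le_bd m u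
  have h2 : u ∈ S K n := mem_S_bd m u
  have h3 : ∀ k, qq K k n * u ∈ S K (n + 1) := fun k => mul_mem (qq_mem k n) (S_mono (by omega) h2)
  rw [pop_mk I hΔ j h1 h2, pop_mk I hΔ i h1 h2, pop_mk I hΔ i (by omega) (h3 j),
    pop_mk I hΔ j (by omega) (h3 i), Submodule.Quotient.eq]
  apply Z_le_SI
  have hu : rename (Equiv.swap n (n + 1)) u = u := by
    apply rename_self h2
    intro k hk
    simp only [Set.mem_Iio] at hk
    apply Equiv.swap_apply_of_ne_of_ne <;> omega
  have hs : ∀ k, rename (Equiv.swap n (n + 1)) (∑ l ∈ Finset.range n, X l ^ k :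
      MvPolynomial ℕ K) = ∑ l ∈ Finset.range n, X l ^ k := by
    intro k
    rw [map_sum]
    apply Finset.sum_congr rfl
    intro l hl
    rw [Finset.mem_range] at hl
    rw [map_pow, rename_X, Equiv.swap_apply_of_ne_of_ne] <;> omega
  have key : qq K i (n + 1) * (qq K j n * u) - qq K j (n + 1) * (qq K i n * u) =
      -(((n : K) + 2) • ((∑ l ∈ Finset.range n, X l ^ i) * X n ^ j * u -
          rename (Equiv.swap n (n + 1)) ((∑ l ∈ Finset.range n, X l ^ i) * X n ^ j * u)))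
      + (((n : K) + 2) • ((∑ l ∈ Finset.range n, X l ^ j) * X n ^ i * u -
          rename (Equiv.swap n (n + 1)) ((∑ l ∈ Finset.range n, X l ^ j) * X n ^ i * u)))
      + ((((n : K) + 1) * ((n : K) + 2)) • (X (n + 1) ^ i * X n ^ j * u -
          rename (Equiv.swap n (n + 1)) (X (n + 1) ^ i * X n ^ j * u))) := by
    simp only [map_mul, hu, hs, map_pow, rename_X, Equiv.swap_apply_left, Equiv.swap_apply_right]
    unfold qq
    rw [Finset.sum_range_succ, Finset.sum_range_succ]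
    push_cast
    simp only [MvPolynomial.smul_eq_C_mul, map_add, map_one, map_natCast, map_mul]
    have : (C (2 : K) : MvPolynomial ℕ K) = 2 := map_ofNat C 2
    rw [this]
    ring
  rw [key]
  have hz : ∀ w : MvPolynomial ℕ K, w - rename (Equiv.swap n (n + 1)) w ∈ Z Δ := by
    intro w
    have := neg_mem (swap_sub_mem_Z hΔ h1 (show m ≤ n + 1 by omega) w)
    rwa [neg_sub] at this
  exact add_mem (add_mem (neg_mem (Submodule.smul_mem _ _ (hz _)))
    (Submodule.smul_mem _ _ (hz _))) (Submodule.smul_mem _ _ (hz _))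

/-- the general formula for `p_i` -/
theorem pop_mk_finset (I : Ideal (MvPolynomial ℕ K)) {Δ : MvPolynomial ℕ K} {m : ℕ}
    (hΔ : Δ ∈ S K m) (i : ℕ) {A : Finset ℕ} (hA : ∀ k, k < m → k ∈ A) {w : MvPolynomial ℕ K}
    (hw : w ∈ supported K (A : Set ℕ)) {b : ℕ} (hb : b ∉ A) :
    pop I hΔ i (Submodule.Quotient.mk w) =
      (∑ j ∈ A, Submodule.Quotient.mk (X j ^ i * w)) -
        ((A.card : K) + 1) • (Submodule.Quotient.mk (X b ^ i * w) : _ ⧸ SI I Δ) := by
  classical
  obtain ⟨n, hn⟩ : ∃ n, ∀ k ∈ insert b A, k < n := by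
    refine ⟨(insert b A).sup id + 1, ?_⟩
    intro k hk
    have := Finset.le_sup (f := id) hk
    simp only [id] at this
    omega
  have hAn : A ⊆ Finset.range n := fun k hk =>
    Finset.mem_range.2 (hn k (Finset.mem_insert_of_mem hk))
  have hbn : b < n := hn b (Finset.mem_insert_self _ _)
  have hmn : m ≤ n := by
    by_contra h
    push Not at h
    have := hn n (Finset.mem_insert_of_mem (hA n h))
    omega
  have hwn : w ∈ S K n := by
    apply supported_mono _ hw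
    intro k hk
    exact hn k (Finset.mem_insert_of_mem hk)
  have hout : ∀ j, j ∉ A → (Submodule.Quotient.mk (X j ^ i * w) : _ ⧸ SI I Δ) =
      Submodule.Quotient.mk (X b ^ i * w) := by
    intro j hj
    have h1 : rename (Equiv.swap b j) w = w := by
      apply rename_self hw
      intro k hk
      apply Equiv.swap_apply_of_ne_of_ne
      · rintro rfl; exact hb hk
      · rintro rfl; exact hj hk
    have h2 : m ≤ b := by
      by_contra h
      push Not at h
      exact hb (hA b h)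
    have h3 : m ≤ j := by
      by_contra h
      push Not at h
      exact hj (hA j h)
    rw [Submodule.Quotient.eq]
    apply Z_le_SI
    have := swap_sub_mem_Z hΔ h2 h3 (X b ^ i * w)
    rwa [map_mul, h1, map_pow, rename_X, Equiv.swap_apply_left] at this
  rw [pop_mk I hΔ i hmn hwn]
  unfold qq
  rw [sub_mul, Finset.sum_mul, smul_mul_assoc, Submodule.Quotient.mk_sub, Submodule.Quotient.mk_smul,
    hout n (fun h => absurd (hn n (Finset.mem_insert_of_mem h)) (lt_irrefl _)),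
    ← Finset.sum_sdiff hAn, Submodule.Quotient.mk_add]
  have h5 : (Submodule.Quotient.mk (∑ x ∈ Finset.range n \ A, X x ^ i * w) : _ ⧸ SI I Δ) =
      ((n : K) - A.card) • (Submodule.Quotient.mk (X b ^ i * w) : _ ⧸ SI I Δ) := by
    rw [← Submodule.mkQ_apply, map_sum]
    simp only [Submodule.mkQ_apply]
    rw [Finset.sum_congr rfl (g := fun _ => (Submodule.Quotient.mk (X b ^ i * w) : _ ⧸ SI I Δ))]
    · rw [Finset.sum_const, Finset.card_sdiff_of_subset hAn, Finset.card_range,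
        ← Nat.cast_smul_eq_nsmul K, Nat.cast_sub]
      have := Finset.card_le_card hAn
      rwa [Finset.card_range] at this
    · intro x hx
      exact hout x (Finset.mem_sdiff.1 hx).2
  have h6 : (Submodule.Quotient.mk (∑ x ∈ A, X x ^ i * w) : _ ⧸ SI I Δ) =
      ∑ j ∈ A, Submodule.Quotient.mk (X j ^ i * w) := by
    rw [← Submodule.mkQ_apply, map_sum]
    rfl
  rw [h5, h6]
  module

end Pool.Agent.H408.Iso
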