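import Pool.Agent.H408.Iso.Grad
import Pool.Agent.H408.Iso.ACC

set_option autoImplicit false

open MvPolynomial

namespace Pool.Agent.H408.Iso

universe u

variable {K : Type u} [Field K]

/-- rationality of the Hilbert series of `P/(I+Z)` -/
def Rat {I : Ideal (MvPolynomial ℕ K)}
    (hI : ∀ f ∈ I, ∀ d, homogeneousComponent d f ∈ I) (Δ : MvPolynomial ℕ K) : Prop :=
  (∀ d, Module.Finite K (LinearMap.range (hcQ hI Δ d))) ∧
    ∃ (A : Multiset ℕ) (p : Polynomial ℤ), (∀ a ∈ A, 0 < a) ∧ (den A : PowerSeries ℤ) *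
      PowerSeries.mk (fun d => (Module.finrank K (LinearMap.range (hcQ hI Δ d)) : ℤ)) =
        (p : PowerSeries ℤ)

/-- the ideal generated by `I` and the orbit of `f` -/
noncomputable def nextI (I : Ideal (MvPolynomial ℕ K)) (f : MvPolynomial ℕ K) :
    Ideal (MvPolynomial ℕ K) :=
  I ⊔ Ideal.span (Set.range fun σ : Equiv.Perm ℕ => rename σ f)

theorem mem_nextI {I : Ideal (MvPolynomial ℕ K)} {f u : MvPolynomial ℕ K} :
    u ∈ nextI I f ↔ ∃ g ∈ I, ∃ h : FF K, g + Phi f 1 h = u := by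
  unfold nextI
  rw [Submodule.mem_sup]
  constructor
  · rintro ⟨g, hg, v, hv, rfl⟩
    obtain ⟨h, rfl⟩ := (Finsupp.mem_span_range_iff_exists_finsupp).1 hv
    refine ⟨g, hg, h, ?_⟩
    rw [Phi_apply]
    simp only [one_mul]
    rfl
  · rintro ⟨g, hg, h, rfl⟩
    refine ⟨g, hg, Phi f 1 h, ?_, rfl⟩
    rw [Phi_apply]
    apply Ideal.sum_mem
    intro σ _
    apply Ideal.mul_mem_left
    rw [one_mul]
    exact Ideal.subset_span ⟨σ, rfl⟩

theorem le_nextI (I : Ideal (MvPolynomial ℕ K)) (f : MvPolynomial ℕ K) : I ≤ nextI I f :=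
  le_sup_left

theorem self_mem_nextI (I : Ideal (MvPolynomial ℕ K)) (f : MvPolynomial ℕ K) :
    f ∈ nextI I f := by
  apply Ideal.mem_sup_right
  apply Ideal.subset_span
  exact ⟨1, by simp⟩

theorem nextI_sym {I : Ideal (MvPolynomial ℕ K)} (f : MvPolynomial ℕ K)
    (hsym : ∀ σ : Equiv.Perm ℕ, ∀ f ∈ I, rename σ f ∈ I) :
    ∀ σ : Equiv.Perm ℕ, ∀ u ∈ nextI I f, rename σ u ∈ nextI I f := by
  intro σ u hu
  obtain ⟨g, hg, h, rfl⟩ := mem_nextI.1 hu
  refine mem_nextI.2 ⟨rename σ g, hsym σ g hg, TT σ h, ?_⟩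
  rw [map_add, Phi_TT]

theorem nextI_hom {I : Ideal (MvPolynomial ℕ K)} {f : MvPolynomial ℕ K} {e : ℕ}
    (hf : f.IsHomogeneous e) (hI : ∀ f ∈ I, ∀ d, homogeneousComponent d f ∈ I) :
    ∀ u ∈ nextI I f, ∀ d, homogeneousComponent d u ∈ nextI I f := by
  intro u hu d
  obtain ⟨g, hg, h, rfl⟩ := mem_nextI.1 hu
  refine mem_nextI.2 ⟨homogeneousComponent d g, hI g hg d, GG e d h, ?_⟩
  rw [map_add, Phi_GG hf (isHomogeneous_one ℕ K) d h, add_zero]

/-- the projection `P/(I+Z) → P/(I'+Z)` -/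
noncomputable def fac {I J : Ideal (MvPolynomial ℕ K)} (h : I ≤ J) (Δ : MvPolynomial ℕ K) :
    (MvPolynomial ℕ K ⧸ SI I Δ) →ₗ[K] (MvPolynomial ℕ K ⧸ SI J Δ) :=
  Submodule.mapQ _ _ LinearMap.id (by
    intro u hu
    obtain ⟨g, hg, z, hz, rfl⟩ := mem_SI.1 hu
    exact mem_SI.2 ⟨g, h hg, z, hz, rfl⟩)

theorem fac_mk {I J : Ideal (MvPolynomial ℕ K)} (h : I ≤ J) (Δ u : MvPolynomial ℕ K) :
    fac h Δ (Submodule.Quotient.mk u) = Submodule.Quotient.mk u := rfl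

theorem fac_hcQ {I J : Ideal (MvPolynomial ℕ K)} (h : I ≤ J) (Δ : MvPolynomial ℕ K)
    (hI : ∀ f ∈ I, ∀ d, homogeneousComponent d f ∈ I)
    (hJ : ∀ f ∈ J, ∀ d, homogeneousComponent d f ∈ J) (d : ℕ) (x : MvPolynomial ℕ K ⧸ SI I Δ) :
    fac h Δ (hcQ hI Δ d x) = hcQ hJ Δ d (fac h Δ x) := by
  obtain ⟨u, rfl⟩ := Submodule.Quotient.mk_surjective _ x
  rfl

theorem ker_fac {I : Ideal (MvPolynomial ℕ K)} (f Δ : MvPolynomial ℕ K) :
    LinearMap.ker (fac (le_nextI I f) Δ) = CC I Δ f := by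
  ext x
  obtain ⟨u, rfl⟩ := Submodule.Quotient.mk_surjective _ x
  rw [LinearMap.mem_ker, fac_mk, Submodule.Quotient.mk_eq_zero]
  constructor
  · intro hu
    obtain ⟨g, hg, z, hz, rfl⟩ := mem_SI.1 hu
    obtain ⟨g', hg', h, rfl⟩ := mem_nextI.1 hg
    refine ⟨h, ?_⟩
    rw [PhiQ_apply, Submodule.Quotient.eq]
    have : Phi f 1 h - (g' + Phi f 1 h + z) = -(g' + z) := by ring
    rw [this]
    exact neg_mem (mem_SI.2 ⟨g', hg', z, hz, rfl⟩)
  · rintro ⟨h, hh⟩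
    rw [PhiQ_apply, Submodule.Quotient.eq] at hh
    obtain ⟨g, hg, z, hz, hgz⟩ := mem_SI.1 hh
    refine mem_SI.2 ⟨-g + Phi f 1 h, mem_nextI.2 ⟨-g, neg_mem hg, h, rfl⟩, -z, neg_mem hz, ?_⟩
    have : u = Phi f 1 h - (Phi f 1 h - u) := by ring
    rw [this, ← hgz]
    ring

theorem rat_step [CharZero K] {I : Ideal (MvPolynomial ℕ K)}
    (hsym : ∀ σ : Equiv.Perm ℕ, ∀ f ∈ I, rename σ f ∈ I)
    (hI : ∀ f ∈ I, ∀ d, homogeneousComponent d f ∈ I) (hbot : I ≠ ⊥) (htop : I ≠ ⊤)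
    {Δ : MvPolynomial ℕ K} {m : ℕ} (hΔ : Δ ∈ S K m) :
    ∃ (f : MvPolynomial ℕ K) (e : ℕ) (hf : f.IsHomogeneous e), f ∉ I ∧
      (Rat (nextI_hom hf hI) Δ → Rat hI Δ) := by
  obtain ⟨r, k, f, e, c, hr, hfk, hf, hfI, hc, hrel, hmin⟩ := exists_data hsym hI hbot htop
  refine ⟨f, e, hf, hfI, ?_⟩
  rintro ⟨hfin', A', p', hA', hp'⟩
  obtain ⟨hfin, A, p, hA, hp⟩ := rat_C hsym hI hΔ hr hfk hf hc hrel hmin
  set ψ := fac (le_nextI I f) Δ with hψ
  -- image and kernel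
  have e1 : ∀ d, (LinearMap.range (hcQ hI Δ d)).map ψ =
      LinearMap.range (hcQ (nextI_hom hf hI) Δ d) := by
    intro d
    ext y
    constructor
    · rintro ⟨_, ⟨x, rfl⟩, rfl⟩
      rw [hψ, fac_hcQ (le_nextI I f) Δ hI (nextI_hom hf hI)]
      exact ⟨_, rfl⟩
    · rintro ⟨x, rfl⟩
      obtain ⟨u, rfl⟩ := Submodule.Quotient.mk_surjective _ x
      exact ⟨hcQ hI Δ d (Submodule.Quotient.mk u), ⟨_, rfl⟩, rfl⟩
  have e2 : ∀ d, LinearMap.range (hcQ hI Δ d) ⊓ LinearMap.ker ψ =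
      (LinearMap.range (hcC hI Δ hf d)).map (CC I Δ f).subtype := by
    intro d
    rw [hψ, ker_fac]
    ext y
    constructor
    · rintro ⟨⟨x, rfl⟩, hy⟩
      refine ⟨⟨hcQ hI Δ d x, hy⟩, ⟨⟨hcQ hI Δ d x, hy⟩, ?_⟩, rfl⟩
      apply Subtype.ext
      rw [hcC_coe]
      exact LinearMap.congr_fun (hcQ_idem hI Δ d) x
    · rintro ⟨_, ⟨x, rfl⟩, rfl⟩
      refine ⟨⟨(x : MvPolynomial ℕ K ⧸ SI I Δ), rfl⟩, ?_⟩
      exact (hcC hI Δ hf d x).2
  have hfinR : ∀ d, Module.Finite K (LinearMap.range (hcQ hI Δ d)) := by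
    intro d
    rw [Module.Finite.iff_fg]
    apply Submodule.fg_of_fg_map_of_fg_inf_ker ψ
    · rw [e1]
      exact Module.Finite.iff_fg.1 (hfin' d)
    · rw [e2]
      exact (Module.Finite.iff_fg.1 (hfin d)).map _
  have e3 : ∀ d, Module.finrank K (LinearMap.range (hcQ hI Δ d)) =
      Module.finrank K (LinearMap.range (hcQ (nextI_hom hf hI) Δ d)) +
      Module.finrank K (LinearMap.range (hcC hI Δ hf d)) := by
    intro d
    have := hfinR d
    have h1 := LinearMap.finrank_range_add_finrank_ker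
      (ψ.domRestrict (LinearMap.range (hcQ hI Δ d)))
    rw [← h1]
    congr 1
    · rw [← e1 d, LinearMap.range_domRestrict]
    · have h2 : (LinearMap.ker (ψ.domRestrict (LinearMap.range (hcQ hI Δ d)))).map
          (LinearMap.range (hcQ hI Δ d)).subtype =
          LinearMap.range (hcQ hI Δ d) ⊓ LinearMap.ker ψ := by
        ext y
        constructor
        · rintro ⟨x, hx, rfl⟩
          exact ⟨x.2, hx⟩
        · rintro ⟨h3, h4⟩
          exact ⟨⟨y, h3⟩, h4, rfl⟩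
      rw [← Submodule.finrank_map_subtype_eq, h2, e2, Submodule.finrank_map_subtype_eq]
  refine ⟨hfinR, A + A', p' * den A + p * den A', ?_, ?_⟩
  · intro a ha
    rcases Multiset.mem_add.1 ha with h | h
    · exact hA a h
    · exact hA' a h
  · have e4 : PowerSeries.mk (fun d =>
        (Module.finrank K (LinearMap.range (hcQ hI Δ d)) : ℤ)) =
        PowerSeries.mk (fun d =>
          (Module.finrank K (LinearMap.range (hcQ (nextI_hom hf hI) Δ d)) : ℤ)) +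
        PowerSeries.mk (fun d =>
          (Module.finrank K (LinearMap.range (hcC hI Δ hf d)) : ℤ)) := by
      ext d
      rw [map_add, PowerSeries.coeff_mk, PowerSeries.coeff_mk, PowerSeries.coeff_mk, e3]
      push_cast
      rfl
    rw [e4, mul_add, den_add, Polynomial.coe_mul, Polynomial.coe_add, Polynomial.coe_mul,
      Polynomial.coe_mul, ← hp, ← hp']
    ring

theorem rat_top {I : Ideal (MvPolynomial ℕ K)}
    (hI : ∀ f ∈ I, ∀ d, homogeneousComponent d f ∈ I) (htop : I = ⊤) (Δ : MvPolynomial ℕ K) :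
    Rat hI Δ := by
  have h1 : ∀ d, LinearMap.range (hcQ hI Δ d) = ⊥ := by
    intro d
    rw [LinearMap.range_eq_bot]
    apply LinearMap.ext
    intro x
    obtain ⟨u, rfl⟩ := Submodule.Quotient.mk_surjective _ x
    rw [hcQ_mk, LinearMap.zero_apply, Submodule.Quotient.mk_eq_zero]
    apply I_le_SI
    rw [htop]
    trivial
  refine ⟨fun d => ?_, 0, 0, by simp, ?_⟩
  · rw [h1]; infer_instance
  · have h2 : ∀ d, Module.finrank K (LinearMap.range (hcQ hI Δ d)) = 0 := by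
      intro d
      rw [h1]
      exact finrank_bot K _
    simp only [h2, Nat.cast_zero]
    have h3 : (PowerSeries.mk fun _ => (0 : ℤ)) = 0 := by
      ext d; simp
    rw [h3, mul_zero, Polynomial.coe_zero]

/-- the main theorem in the form of the quotients `P/(I+Z)` -/
theorem rat_all [CharZero K] {I : Ideal (MvPolynomial ℕ K)}
    (hsym : ∀ σ : Equiv.Perm ℕ, ∀ f ∈ I, rename σ f ∈ I)
    (hI : ∀ f ∈ I, ∀ d, homogeneousComponent d f ∈ I) (hbot : I ≠ ⊥)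
    {Δ : MvPolynomial ℕ K} {m : ℕ} (hΔ : Δ ∈ S K m) : Rat hI Δ := by
  classical
  by_contra hcon
  -- the type of bad ideals
  let B := {J : Ideal (MvPolynomial ℕ K) // (∀ σ : Equiv.Perm ℕ, ∀ f ∈ J, rename σ f ∈ J) ∧
    J ≠ ⊥ ∧ ∃ hJ : ∀ f ∈ J, ∀ d, homogeneousComponent d f ∈ J, ¬ Rat hJ Δ}
  have hnext : ∀ J : B, ∃ J' : B, J.1 < J'.1 := by
    rintro ⟨J, hJs, hJb, hJ, hJr⟩
    have hJt : J ≠ ⊤ := fun h => hJr (rat_top hJ h Δ)
    obtain ⟨f, e, hf, hfJ, himp⟩ := rat_step hJs hJ hJb hJt hΔ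
    refine ⟨⟨nextI J f, nextI_sym f hJs, ?_, nextI_hom hf hJ, fun h => hJr (himp h)⟩, ?_⟩
    · intro h
      apply hJb
      rw [eq_bot_iff, ← h]
      exact le_nextI J f
    · apply lt_of_le_of_ne (le_nextI J f)
      intro h
      apply hfJ
      rw [h]
      exact self_mem_nextI J f
  choose nx hnx using hnext
  let J0 : B := ⟨I, hsym, hbot, hI, hcon⟩
  let seq : ℕ → B := fun n => nx^[n] J0
  have hseq : ∀ n, (seq n).1 < (seq (n + 1)).1 := by
    intro n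
    simp only [seq]
    rw [Function.iterate_succ_apply']
    exact hnx _
  obtain ⟨n, hn⟩ := symm_acc K (fun n => (seq n).1) (monotone_nat_of_le_succ fun n => (hseq n).le)
    (fun n => (seq n).2.1)
  have := hn (n + 1) (by omega)
  exact absurd this (hseq n).ne'

end Pool.Agent.H408.Iso
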