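import Mathlib

set_option autoImplicit false

open MvPolynomial

/-!
The definitions used by the statement on isotypic Hilbert series (MP_7f6900_al).
The variables are `X 0, X 1, ...`; `K[X_n]` is `MvPolynomial (Fin n) K`.
-/

namespace Pool.Agent.H408.Iso

universe u

variable {K : Type u} [Field K]

/-- an ideal of `K[x_0, x_1, ...]` is symmetric if it is stable under all permutations of the
variables -/
def IsSymm (I : Ideal (MvPolynomial ℕ K)) : Prop :=
  ∀ σ : Equiv.Perm ℕ, ∀ f ∈ I, rename σ f ∈ I

/-- an ideal is homogeneous if it contains the homogeneous components of its elements -/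
def IsHom (I : Ideal (MvPolynomial ℕ K)) : Prop :=
  ∀ f ∈ I, ∀ d, homogeneousComponent d f ∈ I

/-- `I_n = I ∩ K[X_n]` -/
noncomputable def trunc (I : Ideal (MvPolynomial ℕ K)) (n : ℕ) : Ideal (MvPolynomial (Fin n) K) :=
  I.comap (rename (Fin.val : Fin n → ℕ))

theorem trunc_perm {I : Ideal (MvPolynomial ℕ K)} (hI : IsSymm I) (n : ℕ)
    (σ : Equiv.Perm (Fin n)) {f : MvPolynomial (Fin n) K} (hf : f ∈ trunc I n) :
    rename σ f ∈ trunc I n := by
  unfold trunc at hf ⊢
  rw [Ideal.mem_comap] at hf ⊢
  have h1 := hI (σ.extendDomain Fin.equivSubtype) _ hf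
  rw [rename_rename] at h1 ⊢
  convert h1 using 3
  funext i
  have := Equiv.Perm.extendDomain_apply_image σ (Fin.equivSubtype (n := n)) i
  simpa using this.symm

/-- the ring `K[X_n]/I_n` -/
def QuoT (I : Ideal (MvPolynomial ℕ K)) (n : ℕ) : Type u := MvPolynomial (Fin n) K ⧸ trunc I n

noncomputable instance instRingQuoT (I : Ideal (MvPolynomial ℕ K)) (n : ℕ) :
    CommRing (QuoT I n) := Ideal.Quotient.commRing (trunc I n)

noncomputable instance instAlgQuoT (I : Ideal (MvPolynomial ℕ K)) (n : ℕ) :
    Algebra K (QuoT I n) := inferInstanceAs (Algebra K (MvPolynomial (Fin n) K ⧸ trunc I n))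

/-- the class in `K[X_n]/I_n` of a polynomial -/
noncomputable def clsT (I : Ideal (MvPolynomial ℕ K)) (n : ℕ) :
    MvPolynomial (Fin n) K →ₐ[K] QuoT I n := Ideal.Quotient.mkₐ K (trunc I n)

/-- the action of a permutation on `K[X_n]/I_n`: it sends the class of `f` to the class of
`rename σ f` -/
noncomputable def actT {I : Ideal (MvPolynomial ℕ K)} (hI : IsSymm I) (n : ℕ)
    (σ : Equiv.Perm (Fin n)) : QuoT I n →ₐ[K] QuoT I n :=
  Ideal.quotientMapₐ (trunc I n) (rename σ) (fun _ hf => trunc_perm hI n σ hf)

theorem actT_cls {I : Ideal (MvPolynomial ℕ K)} (hI : IsSymm I) (n : ℕ)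
    (σ : Equiv.Perm (Fin n)) (f : MvPolynomial (Fin n) K) :
    actT hI n σ (clsT I n f) = clsT I n (rename σ f) := rfl

theorem clsT_surj (I : Ideal (MvPolynomial ℕ K)) (n : ℕ) : Function.Surjective (clsT I n) :=
  Ideal.Quotient.mk_surjective

/-- the graded piece `[K[X_n]/I_n]_d`, as a subspace: the classes of the forms of degree `d` -/
noncomputable def pieceT (I : Ideal (MvPolynomial ℕ K)) (n d : ℕ) : Submodule K (QuoT I n) :=
  (homogeneousSubmodule (Fin n) K d).map (clsT I n).toLinearMap

/-- the graded piece `[K[X_n]/I_n]_d`, as a vector space -/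
def PieceT (I : Ideal (MvPolynomial ℕ K)) (n d : ℕ) : Type u := pieceT I n d

noncomputable instance instGroupPieceT (I : Ideal (MvPolynomial ℕ K)) (n d : ℕ) :
    AddCommGroup (PieceT I n d) := (pieceT I n d).addCommGroup

noncomputable instance instModulePieceT (I : Ideal (MvPolynomial ℕ K)) (n d : ℕ) :
    Module K (PieceT I n d) := (pieceT I n d).module

theorem actT_mem {I : Ideal (MvPolynomial ℕ K)} (hI : IsSymm I) (n d : ℕ)
    (σ : Equiv.Perm (Fin n)) : ∀ x ∈ pieceT I n d, (actT hI n σ).toLinearMap x ∈ pieceT I n d := by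
  rintro _ ⟨u, hu, rfl⟩
  exact ⟨rename σ u, IsHomogeneous.rename_isHomogeneous hu, rfl⟩

/-- the action of a permutation on `[K[X_n]/I_n]_d` -/
noncomputable def actPieceT {I : Ideal (MvPolynomial ℕ K)} (hI : IsSymm I) (n d : ℕ)
    (σ : Equiv.Perm (Fin n)) : Module.End K (PieceT I n d) :=
  (actT hI n σ).toLinearMap.restrict (actT_mem hI n d σ)

theorem actPieceT_one {I : Ideal (MvPolynomial ℕ K)} (hI : IsSymm I) (n d : ℕ) :
    actPieceT hI n d 1 = 1 := by
  apply LinearMap.ext
  intro x
  apply Subtype.ext
  obtain ⟨u, hu⟩ := clsT_surj I n (x : pieceT I n d).1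
  change actT hI n 1 (x : pieceT I n d).1 = (x : pieceT I n d).1
  rw [← hu, actT_cls]
  simp

theorem actPieceT_mul {I : Ideal (MvPolynomial ℕ K)} (hI : IsSymm I) (n d : ℕ)
    (σ τ : Equiv.Perm (Fin n)) :
    actPieceT hI n d (σ * τ) = actPieceT hI n d σ * actPieceT hI n d τ := by
  apply LinearMap.ext
  intro x
  apply Subtype.ext
  obtain ⟨u, hu⟩ := clsT_surj I n (x : pieceT I n d).1
  change actT hI n (σ * τ) (x : pieceT I n d).1 =
    actT hI n σ (actT hI n τ (x : pieceT I n d).1)
  rw [← hu, actT_cls, actT_cls, actT_cls, rename_rename]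
  rfl

/-- the representation of `Sym(n)` on `[K[X_n]/I_n]_d` -/
noncomputable def pieceRepT {I : Ideal (MvPolynomial ℕ K)} (hI : IsSymm I) (n d : ℕ) :
    Representation K (Equiv.Perm (Fin n)) (PieceT I n d) where
  toFun := actPieceT hI n d
  map_one' := actPieceT_one hI n d
  map_mul' := actPieceT_mul hI n d

/-- the Specht polynomial of a filling `T` of the Young diagram `lam` by the numbers `< n`:
the product over the columns of the Vandermonde products of the entries -/
noncomputable def spechtPoly (K : Type u) [Field K] (lam : YoungDiagram) (n : ℕ)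
    (T : lam.cells → Fin n) : MvPolynomial (Fin n) K :=
  ∏ a : lam.cells, ∏ b : lam.cells,
    if (a : ℕ × ℕ).2 = (b : ℕ × ℕ).2 ∧ (a : ℕ × ℕ).1 < (b : ℕ × ℕ).1 then X (T a) - X (T b) else 1

/-- the Specht module `V^lam` of `Sym(n)` (`lam` a partition of `n`), realised as the span of the
Specht polynomials of all bijective fillings -/
noncomputable def specht (K : Type u) [Field K] (lam : YoungDiagram) (n : ℕ) :
    Submodule K (MvPolynomial (Fin n) K) :=
  Submodule.span K (Set.range fun T : lam.cells ≃ Fin n => spechtPoly K lam n T)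

theorem rename_spechtPoly (lam : YoungDiagram) (n m : ℕ) (T : lam.cells → Fin n)
    (g : Fin n → Fin m) :
    rename g (spechtPoly K lam n T) = spechtPoly K lam m (fun c => g (T c)) := by
  unfold spechtPoly
  rw [map_prod]
  apply Finset.prod_congr rfl
  intro a _
  rw [map_prod]
  apply Finset.prod_congr rfl
  intro b _
  split_ifs
  · rw [map_sub, rename_X, rename_X]
  · rw [map_one]

theorem rename_specht (lam : YoungDiagram) (n : ℕ) (σ : Equiv.Perm (Fin n)) :
    ∀ v ∈ specht K lam n, (rename σ).toLinearMap v ∈ specht K lam n := by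
  intro v hv
  induction hv using Submodule.span_induction with
  | mem x hx =>
    obtain ⟨T, rfl⟩ := hx
    apply Submodule.subset_span
    refine ⟨T.trans σ, ?_⟩
    rw [AlgHom.toLinearMap_apply, rename_spechtPoly]
    rfl
  | zero => simp
  | add x y _ _ hx hy => rw [map_add]; exact add_mem hx hy
  | smul c x _ hx => rw [map_smul]; exact Submodule.smul_mem _ _ hx

/-- the Specht module `V^lam`, as a vector space -/
def SpT (K : Type u) [Field K] (lam : YoungDiagram) (n : ℕ) : Type u := specht K lam n

noncomputable instance instGroupSpT (lam : YoungDiagram) (n : ℕ) :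
    AddCommGroup (SpT K lam n) := (specht K lam n).addCommGroup

noncomputable instance instModuleSpT (lam : YoungDiagram) (n : ℕ) :
    Module K (SpT K lam n) := (specht K lam n).module

/-- the action of a permutation on the Specht module -/
noncomputable def actSpT (K : Type u) [Field K] (lam : YoungDiagram) (n : ℕ)
    (σ : Equiv.Perm (Fin n)) : Module.End K (SpT K lam n) :=
  ((rename σ).toLinearMap).restrict (rename_specht lam n σ)

theorem actSpT_one (lam : YoungDiagram) (n : ℕ) : actSpT K lam n 1 = 1 := by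
  apply LinearMap.ext
  intro x
  apply Subtype.ext
  change rename (1 : Equiv.Perm (Fin n)) (x : specht K lam n).1 = (x : specht K lam n).1
  simp

theorem actSpT_mul (lam : YoungDiagram) (n : ℕ) (σ τ : Equiv.Perm (Fin n)) :
    actSpT K lam n (σ * τ) = actSpT K lam n σ * actSpT K lam n τ := by
  apply LinearMap.ext
  intro x
  apply Subtype.ext
  change rename (σ * τ : Equiv.Perm (Fin n)) (x : specht K lam n).1 =
    rename σ (rename τ (x : specht K lam n).1)
  rw [rename_rename]
  rfl

/-- the representation of `Sym(n)` on the Specht module -/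
noncomputable def spRepT (K : Type u) [Field K] (lam : YoungDiagram) (n : ℕ) :
    Representation K (Equiv.Perm (Fin n)) (SpT K lam n) where
  toFun := actSpT K lam n
  map_one' := actSpT_one lam n
  map_mul' := actSpT_mul lam n

/-- the cells of the padded partition -/
def padCells (μ : YoungDiagram) (n : ℕ) : Finset (ℕ × ℕ) :=
  μ.cells ∪ (Finset.range (n - μ.card + μ.rowLen 0)).image (fun j => (0, j))

theorem padCells_lower (μ : YoungDiagram) (n : ℕ) :
    IsLowerSet (padCells μ n : Set (ℕ × ℕ)) := by
  rintro ⟨i, j⟩ ⟨i', j'⟩ hle h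
  simp only [padCells, Finset.coe_union, Finset.coe_image, Set.mem_union, Finset.mem_coe,
    Set.mem_image, Finset.mem_range] at h ⊢
  obtain ⟨h1, h2⟩ := Prod.mk_le_mk.1 hle
  rcases h with h | ⟨k, hk, hk'⟩
  · exact Or.inl (μ.isLowerSet hle h)
  · right
    rw [Prod.mk.injEq] at hk'
    obtain ⟨rfl, rfl⟩ := hk'
    refine ⟨j', by omega, ?_⟩
    rw [Prod.mk.injEq]
    exact ⟨by omega, rfl⟩

/-- the padding `μ(n) = (n - |μ| + μ_1, μ_2, ...)` of a partition: the first row is made longer
by `n - |μ|` cells -/
def pad (μ : YoungDiagram) (n : ℕ) : YoungDiagram where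
  cells := padCells μ n
  isLowerSet := padCells_lower μ n

/-- the multiplicity of the irreducible representation `V^{μ(n)}` of `Sym(n)` in
`[K[X_n]/I_n]_d`: the dimension of the space of equivariant maps -/
noncomputable def multT {I : Ideal (MvPolynomial ℕ K)} (hI : IsSymm I) (μ : YoungDiagram)
    (n d : ℕ) : ℕ :=
  Module.finrank K (Representation.IntertwiningMap (spRepT K (pad μ n) n) (pieceRepT hI n d))

end Pool.Agent.H408.Iso
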